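import Pool.Agent.Y377.IL.Desc

/-!
Statements of the project IL (iterated linear differential equations).
-/

set_option autoImplicit false

namespace Pool.Agent.Y377.IL

open Pool.Agent.Y377.EL MvPolynomial

/-- the constants of the derivation are the complex numbers -/
def Cst {K : Type} [Field K] [Algebra ℂ K] (D : Derivation ℂ K K) : Prop :=
  ∀ x, D x = 0 → ∃ c : ℂ, x = algebraMap ℂ K c

/-- the ring generated over `R` by the entries of two matrices -/
noncomputable def mat {K : Type} [Field K] [Algebra ℂ K] (R : Subalgebra ℂ K) {n : ℕ}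
    (X Y : Matrix (Fin n) (Fin n) K) : Subalgebra ℂ K :=
  R ⊔ Algebra.adjoin ℂ {x | ∃ i j, x = X i j ∨ x = Y i j}

/-- `X` is a fundamental matrix, with inverse `Y`, of the linear system `X' = M X` over `R` -/
structure Fund {K : Type} [Field K] [Algebra ℂ K] (D : Derivation ℂ K K) (R : Subalgebra ℂ K)
    {n : ℕ} (X Y M : Matrix (Fin n) (Fin n) K) : Prop where
  inv : X * Y = 1
  mem : ∀ i j, M i j ∈ R
  eq : ∀ i j, D (X i j) = ∑ k, M i k * X k j

/-- the index set of the entries of two matrices -/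
abbrev Sg (n : ℕ) : Type := (Fin n × Fin n) ⊕ (Fin n × Fin n)

/-- the entries of two matrices -/
def pt {A : Type} {n : ℕ} (X Y : Matrix (Fin n) (Fin n) A) : Sg n → A :=
  Sum.elim (fun p => X p.1 p.2) (fun p => Y p.1 p.2)

/-- finitely generated as a module -/
def FGmod {K : Type} [Field K] [Algebra ℂ K] (R S : Subalgebra ℂ K) : Prop :=
  ∃ N : Submodule R K, N.FG ∧ ∀ x, x ∈ N ↔ x ∈ S

/-- the derivation as a linear endomorphism -/
noncomputable def en {K : Type} [Field K] [Algebra ℂ K] (δ : Derivation ℂ K K) :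
    Module.End ℂ K := (δ : K →ₗ[ℂ] K)

/-! ### The torsor theorem -/

/-- a proper ideal of `K[τ]` stable under the coefficientwise derivation has a complex zero -/
def S_PT : Prop := ∀ (K : Type) [Field K] [Algebra ℂ K] (D : Derivation ℂ K K), Cst D →
  ∀ (τ : Type) [Finite τ] (J : Ideal (MvPolynomial τ K))
    (e : Derivation ℂ (MvPolynomial τ K) (MvPolynomial τ K)),
    (∀ a, e (C a) = C (D a)) → (∀ s, e (X s) = 0) → (∀ f ∈ J, e f ∈ J) → J ≠ ⊤ →
    ∃ v : τ → ℂ, ∀ f ∈ J, aeval (fun s => algebraMap ℂ K (v s)) f = 0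

/-- the substitution `Y ↦ X Z`, `W ↦ U X⁻¹` -/
noncomputable def subs {K : Type} [Field K] [Algebra ℂ K] {n : ℕ}
    (X Y : Matrix (Fin n) (Fin n) K) : Sg n → MvPolynomial (Sg n) K :=
  Sum.elim
    (fun p => ∑ k, C (X p.1 k) * MvPolynomial.X (Sum.inl (k, p.2)))
    (fun p => ∑ k, MvPolynomial.X (Sum.inr (p.1, k)) * C (Y k p.2))

/-- properness of the extended ideal -/
def S_PROP : Prop := ∀ (K : Type) [Field K] [Algebra ℂ K] (L : Subalgebra ℂ K),
  (∀ x ∈ L, x⁻¹ ∈ L) → ∀ (n : ℕ) (X Y : Matrix (Fin n) (Fin n) K), X * Y = 1 →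
    ∀ Q : Ideal (MvPolynomial (Sg n) L), Q ≠ ⊤ →
      Ideal.span ((fun q => aeval (subs X Y) q) '' (Q : Set (MvPolynomial (Sg n) L))) ≠
        (⊤ : Ideal (MvPolynomial (Sg n) K))

/-- the torsor theorem over a field -/
def S_TOR : Prop := ∀ (K : Type) [Field K] [Algebra ℂ K] (D : Derivation ℂ K K), Cst D →
  ∀ (L : Subalgebra ℂ K), Stab D L → (∀ x ∈ L, x⁻¹ ∈ L) →
    ∀ (n : ℕ) (X Y M : Matrix (Fin n) (Fin n) K), Fund D L X Y M → DSimple D (mat L X Y)

/-- the torsor theorem over a ring -/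
def S_RNG : Prop := ∀ (K : Type) [Field K] [Algebra ℂ K] (D : Derivation ℂ K K), Cst D →
  ∀ (R : Subalgebra ℂ K), Stab D R → DSimple D R →
    ∀ (n : ℕ) (X Y M : Matrix (Fin n) (Fin n) K), Fund D R X Y M → DSimple D (mat R X Y)

/-- elementary properties of the extension by a fundamental matrix -/
def S_NOE : Prop := ∀ (K : Type) [Field K] [Algebra ℂ K] (D : Derivation ℂ K K)
  (R : Subalgebra ℂ K) (n : ℕ) (X Y M : Matrix (Fin n) (Fin n) K), Fund D R X Y M →
    (IsNoetherianRing R → IsNoetherianRing (mat R X Y)) ∧ (Stab D R → Stab D (mat R X Y)) ∧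
    (∀ i j, D (Y i j) = -∑ k, Y i k * M k j) ∧
    ∀ δ : Derivation ℂ K K, (∀ r ∈ R, δ r = 0) → ∀ ξ : Matrix (Fin n) (Fin n) ℂ,
      (∀ i j, δ (X i j) = ∑ k, X i k * algebraMap ℂ K (ξ k j)) →
        (∀ i j, δ (Y i j) = -∑ k, algebraMap ℂ K (ξ i k) * Y k j) ∧ Stab δ (mat R X Y) ∧
        (Stab D R → ∀ b ∈ mat R X Y, D (δ b) = δ (D b))

/-! ### Finite modules -/

/-- algebraic elements of the extension by a fundamental matrix -/
def S_FA : Prop := ∀ (K : Type) [Field K] [Algebra ℂ K] (D : Derivation ℂ K K)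
  (R : Subalgebra ℂ K), Stab D R → DSimple D R → IsNoetherianRing R →
    ∀ (n : ℕ) (X Y M : Matrix (Fin n) (Fin n) K), Fund D R X Y M →
      FGmod R (mat R X Y ⊓ algC R)

/-- algebraic elements of finite extensions -/
def S_FB : Prop := ∀ (K : Type) [Field K] [Algebra ℂ K] (D : Derivation ℂ K K)
  (R R' S : Subalgebra ℂ K), R ≤ R' → R' ≤ S → Stab D R → Stab D R' → Stab D S →
    DSimple D R' → IsNoetherianRing R → FGmod R (R' ⊓ algC R) → FGmod R' S →
      FGmod R (S ⊓ algC R)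

/-- algebraic elements of the fraction field -/
def S_FR : Prop := ∀ (K : Type) [Field K] [Algebra ℂ K] (D : Derivation ℂ K K)
  (R S : Subalgebra ℂ K), R ≤ S → Stab D R → Stab D S → DSimple D S →
    ∀ x ∈ frac S, IsAlgebraic R x → ∃ r ∈ R, r ≠ 0 ∧ r * x ∈ S

/-! ### Derivations -/

/-- existence of infinitesimal symmetries -/
def S_DER : Prop := ∀ (K : Type) [Field K] [Algebra ℂ K] (D : Derivation ℂ K K), Cst D →
  ∀ (R : Subalgebra ℂ K), Stab D R →
    ∀ (n : ℕ) (X Y M : Matrix (Fin n) (Fin n) K), Fund D R X Y M →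
      ∀ x : K, IsAlgebraic (mat R X Y) x → ¬ IsAlgebraic R x →
        ∃ (δ : Derivation ℂ K K) (ξ : Matrix (Fin n) (Fin n) ℂ), (∀ r ∈ R, δ r = 0) ∧
          δ x ≠ 0 ∧ ∀ i j, δ (X i j) = ∑ k, X i k * algebraMap ℂ K (ξ k j)

/-- generalised eigenvectors -/
def S_GE : Prop := ∀ (K : Type) [Field K] [Algebra ℂ K] (δ : Derivation ℂ K K)
  (R : Subalgebra ℂ K) (n : ℕ) (X Y : Matrix (Fin n) (Fin n) K)
  (ξ : Matrix (Fin n) (Fin n) ℂ), (∀ r ∈ R, δ r = 0) →
    (∀ i j, δ (X i j) = ∑ k, X i k * algebraMap ℂ K (ξ k j)) →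
    (∀ i j, δ (Y i j) = -∑ k, algebraMap ℂ K (ξ i k) * Y k j) →
      ∀ b ∈ mat R X Y, b ∈ ⨆ μ : ℂ, Subalgebra.toSubmodule (mat R X Y) ⊓
        (en δ).maxGenEigenspace μ

/-- derivations attached to additive functions of the eigenvalues -/
def S_GR : Prop := ∀ (K : Type) [Field K] [Algebra ℂ K] (δ : Derivation ℂ K K)
  (B : Subalgebra ℂ K), Stab δ B →
    (∀ b ∈ B, b ∈ ⨆ μ : ℂ, Subalgebra.toSubmodule B ⊓ (en δ).maxGenEigenspace μ) →
      ∀ φ : ℂ →+ ℂ, ∃ d : Derivation ℂ B B, ∀ (μ : ℂ) (b : B),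
        (b : K) ∈ (en δ).maxGenEigenspace μ → d b = φ μ • b

/-- extension of derivations -/
def S_EXT : Prop := ∀ (K : Type) [Field K] [Algebra ℂ K] (B : Subalgebra ℂ K)
  (d : Derivation ℂ B B), ∃ δ : Derivation ℂ K K, ∀ b : B, δ b = d b

/-- replicas -/
def S_SP : Prop := ∀ (K : Type) [Field K] [Algebra ℂ K] (D δ : Derivation ℂ K K)
  (B : Subalgebra ℂ K), Stab D B → Stab δ B → (∀ b ∈ B, D (δ b) = δ (D b)) →
    (∀ b ∈ B, b ∈ ⨆ μ : ℂ, Subalgebra.toSubmodule B ⊓ (en δ).maxGenEigenspace μ) →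
      ∀ x : K, IsAlgebraic B x → δ x ≠ 0 →
        ∃ δ' : Derivation ℂ K K, Stab δ' B ∧ (∀ b ∈ B, D (δ' b) = δ' (D b)) ∧ δ' x ≠ 0 ∧
          ((∀ b ∈ B, ∃ k : ℕ, (en δ' ^ k) b = 0) ∨
            ∀ b ∈ B, b ∈ ⨆ q : ℚ, Subalgebra.toSubmodule B ⊓ (en δ').eigenspace (q : ℂ))

/-- symmetries preserve finite extensions -/
def S_COM : Prop := ∀ (K : Type) [Field K] [Algebra ℂ K] (D δ : Derivation ℂ K K)
  (B S : Subalgebra ℂ K), B ≤ S → Stab D B → Stab D S → DSimple D S → FGmod B S →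
    Stab δ B → (∀ b ∈ B, D (δ b) = δ (D b)) → Stab δ S ∧ ∀ s ∈ S, D (δ s) = δ (D s)

/-! ### Formal solutions which are integral -/

/-- convergence of the formal solutions of linear systems with entire coefficients -/
def S_ENT : Prop := ∀ (n : ℕ) (A : ℕ → Matrix (Fin n) (Fin n) ℂ) (s : ℕ → Fin n → ℂ),
  (∀ (ρ : ℝ), 0 < ρ → ∀ i j, Summable fun m => ‖A m i j‖ * ρ ^ m) →
    (∀ (m : ℕ) (i : Fin n), ((m : ℂ) + 1) * s (m + 1) i =
      ∑ l ∈ Finset.range (m + 1), ∑ j, A l i j * s (m - l) j) →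
      ∀ (ρ : ℝ), 0 < ρ → ∀ i, Summable fun m => ‖s m i‖ * ρ ^ m

/-- entire functions which are integral over the polynomials -/
def S_PC : Prop := ∀ (f : ℂ → ℂ), Differentiable ℂ f → ∀ P : Polynomial (Polynomial ℂ),
  P.Monic → (∀ z, (P.map (Polynomial.evalRingHom z)).eval (f z) = 0) →
    ∃ p : Polynomial ℂ, ∀ z, f z = p.eval z

/-- the exponential polynomials with rational frequencies -/
noncomputable def EP : Subalgebra ℂ (ℂ → ℂ) :=
  Algebra.adjoin ℂ {f | ∃ q : ℚ, f = fun z => Complex.exp (q * z)}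

/-- entire functions which are integral over the exponential polynomials with rational
frequencies -/
def S_EC : Prop := ∀ (f : ℂ → ℂ), Differentiable ℂ f → IsIntegral EP f → f ∈ EP

/-- the formal exponential series -/
noncomputable def fexp (F : Type) [Field F] [CharZero F] (q : ℚ) : PowerSeries F :=
  PowerSeries.mk fun n => (q : F) ^ n / (n.factorial : F)

/-- the formal exponential polynomials with rational frequencies -/
noncomputable def FEP (F : Type) [Field F] [CharZero F] : Subalgebra F (PowerSeries F) :=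
  Algebra.adjoin F {f | ∃ q : ℚ, f = fexp F q}

/-- formal solutions of linear systems over the polynomials -/
def S_POLY : Prop := ∀ (F : Type) [Field F] [CharZero F] (k : ℕ)
  (A : Fin k → Fin k → Polynomial F) (s : Fin k → PowerSeries F),
    (∀ i, PowerSeries.derivative F (s i) = ∑ j, (A i j : PowerSeries F) * s j) →
    (∀ i, ∃ P : Polynomial (Polynomial F), P.Monic ∧
      P.eval₂ (Polynomial.coeToPowerSeries.ringHom (R := F)) (s i) = 0) →
      ∀ i, ∃ p : Polynomial F, s i = (p : PowerSeries F)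

/-- formal solutions of linear systems over the exponential polynomials -/
def S_PER : Prop := ∀ (F : Type) [Field F] [CharZero F] (k : ℕ)
  (A : Fin k → Fin k → PowerSeries F) (s : Fin k → PowerSeries F), (∀ i j, A i j ∈ FEP F) →
    (∀ i, PowerSeries.derivative F (s i) = ∑ j, A i j * s j) →
    (∀ i, IsIntegral (FEP F) (s i)) → ∀ i, s i ∈ FEP F

/-- the exponential of a derivation -/
noncomputable def expD {K : Type} [Field K] [Algebra ℂ K] (δ : Derivation ℂ K K) (x : K) :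
    PowerSeries K := PowerSeries.mk fun n => (en δ ^ n) x / (n.factorial : K)

/-- the exponential of a derivation is a homomorphism -/
def S_EXP : Prop := ∀ (K : Type) [Field K] [Algebra ℂ K] (δ : Derivation ℂ K K),
  ∃ e : K →ₐ[ℂ] PowerSeries K, (∀ x, e x = expD δ x) ∧
    ∀ x, PowerSeries.derivative K (e x) = e (δ x)

/-- locally nilpotent derivations on finite extensions -/
def S_APN : Prop := ∀ (K : Type) [Field K] [Algebra ℂ K] (δ : Derivation ℂ K K)
  (B S : Subalgebra ℂ K), B ≤ S → FGmod B S → Stab δ B → Stab δ S →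
    (∀ b ∈ B, ∃ k : ℕ, (en δ ^ k) b = 0) → ∀ s ∈ S, ∃ k : ℕ, (en δ ^ k) s = 0

/-- derivations with rational eigenvalues on finite extensions -/
def S_APE : Prop := ∀ (K : Type) [Field K] [Algebra ℂ K] (δ : Derivation ℂ K K)
  (B S : Subalgebra ℂ K), B ≤ S → FGmod B S → Stab δ B → Stab δ S →
    (∀ b ∈ B, b ∈ ⨆ q : ℚ, Subalgebra.toSubmodule B ⊓ (en δ).eigenspace (q : ℂ)) →
      ∀ s ∈ S, s ∈ ⨆ q : ℚ, Subalgebra.toSubmodule S ⊓ (en δ).eigenspace (q : ℂ)

/-! ### Rational curves -/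

/-- a locally nilpotent derivation gives a family of affine lines -/
def S_CN : Prop := ∀ (K : Type) [Field K] [Algebra ℂ K] (δ : Derivation ℂ K K)
  (S : Subalgebra ℂ K), (∀ s ∈ S, ∃ k : ℕ, (en δ ^ k) s = 0) →
    ∃ (M : Type) (_ : Field M) (_ : Algebra ℂ M) (φ : frac S →ₐ[ℂ] RatFunc M),
      (∀ (x : frac S) (c : M), φ x = algebraMap M (RatFunc M) c → δ (x : K) = 0) ∧
      ∀ x : frac S, (x : K) ∈ S → ∃ p : Polynomial M,
        φ x = algebraMap (Polynomial M) (RatFunc M) p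

/-- a derivation with rational eigenvalues gives families of multiplicative groups -/
def S_CE : Prop := ∀ (K : Type) [Field K] [Algebra ℂ K] (δ : Derivation ℂ K K)
  (S : Subalgebra ℂ K),
    (∀ s ∈ S, s ∈ ⨆ q : ℚ, Subalgebra.toSubmodule S ⊓ (en δ).eigenspace (q : ℂ)) →
    ∀ t : Finset K, (∀ x ∈ t, x ∈ frac S) →
      ∃ (S0 : Subalgebra ℂ K) (M : Type) (_ : Field M) (_ : Algebra ℂ M)
        (φ : frac S0 →ₐ[ℂ] RatFunc M), S0 ≤ S ∧ (∀ x ∈ t, x ∈ frac S0) ∧
        (∀ x ∈ t, x ∈ S → x ∈ S0) ∧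
        (∀ (x : frac S0) (c : M), φ x = algebraMap M (RatFunc M) c → δ (x : K) = 0) ∧
        ∀ x : frac S0, (x : K) ∈ S0 → ∃ (p : Polynomial M) (k : ℕ),
          φ x * RatFunc.X ^ k = algebraMap (Polynomial M) (RatFunc M) p

/-! ### Entire functions -/

/-- fundamental matrices of entire functions -/
def S_FUND : Prop := ∀ (n : ℕ) (A : Fin n → Fin n → ℂ → ℂ),
  (∀ i j, Differentiable ℂ (A i j)) → ∃ X Y : Fin n → Fin n → ℂ → ℂ,
    (∀ i j, Differentiable ℂ (X i j)) ∧ (∀ i j, Differentiable ℂ (Y i j)) ∧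
    (∀ i j z, ∑ k, X i k z * Y k j z = if i = j then 1 else 0) ∧
    (∀ i j z, deriv (X i j) z = ∑ k, A i k z * X k j z) ∧
    ∀ y : Fin n → ℂ → ℂ, (∀ i, Differentiable ℂ (y i)) →
      (∀ i z, deriv (y i) z = ∑ k, A i k z * y k z) →
        ∃ c : Fin n → ℂ, ∀ i z, y i z = ∑ k, X i k z * c k

/-- forms which vanish on all rational curves over the complex numbers vanish on all rational
curves over larger fields -/
def S_RC : Prop := ∀ (N : ℕ) (I : Ideal (MvPolynomial (Fin (N + 1)) ℂ))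
  (G' : MvPolynomial (Fin (N + 1)) ℂ), (∃ d, G'.IsHomogeneous d) →
    (∀ p : Fin (N + 1) → Polynomial ℂ,
      (∀ G ∈ I, (∃ d, G.IsHomogeneous d) → aeval p G = 0) →
      (∃ j k, Polynomial.derivative (p j) * p k ≠ p j * Polynomial.derivative (p k)) →
        aeval p G' = 0) →
    ∀ (M : Type) [Field M] [Algebra ℂ M] (P : Fin (N + 1) → Polynomial M),
      (∀ G ∈ I, (∃ d, G.IsHomogeneous d) → aeval P G = 0) →
      (∃ j k, Polynomial.derivative (P j) * P k ≠ P j * Polynomial.derivative (P k)) →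
        aeval P G' = 0

end Pool.Agent.Y377.IL
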