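import Pool.Agent.Y377.IL.Cov

/-!
Statements of the project IL, fourth part: quasi-projective varieties.
-/

set_option autoImplicit false

namespace Pool.Agent.Y377.IL

open Set Filter Topology MvPolynomial Pool.Agent.Y377.EL
open scoped LinearAlgebra.Projectivization
open Pool.Agent.TH143.EL (LinB HolMap)
open Pool.Agent.TH143.GT (FunField)
open Pool.Agent.W602.GT (IsForm LogGeneralType)
open Pool.Agent.W603.GR (OffQ)

/-- solutions of linear differential equations belong to the class -/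
def S_LI : Prop := ∀ B : Subalgebra ℂ (ℂ → ℂ), DB B → ∀ h : ℂ → ℂ, Meromorphic h → LinB B h →
  IterLin B h

/-- ratios of the homogeneous coordinates are meromorphic -/
def S_RT : Prop := ∀ (N : ℕ) (f : ℂ → ℙ ℂ (Fin (N + 1) → ℂ)), HolMap f → ∀ l : Fin (N + 1),
  (∃ z, (f z).rep l ≠ 0) → (∀ i, Meromorphic fun z => (f z).rep i / (f z).rep l) ∧
    ∀ᶠ z in codiscrete ℂ, (f z).rep l ≠ 0

/-- homogeneous coordinates for families of punctured lines -/
def S_PF : Prop := S_LOGP → ∀ (K : Type) [Field K] [Algebra ℂ K] (N d : ℕ)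
  (Q : MvPolynomial (Fin (N + 1)) ℂ), 0 < d → Q.IsHomogeneous d →
  ∀ (x : Fin (N + 1) → K) (l : Fin (N + 1)) (S : Subalgebra ℂ K) (t : Finset K),
    x l ≠ 0 → aeval x Q ≠ 0 → RatFam S t →
    (∀ a ∈ t, (∃ j, a = x j / x l) ∨
      ∃ α : Fin (N + 1) →₀ ℕ, ∑ j, α j = d ∧ a = (∏ j, x j ^ α j) / aeval x Q) →
    (∀ j, x j / x l ∈ t) →
    (∀ α : Fin (N + 1) →₀ ℕ, ∑ j, α j = d →
      (∏ j, x j ^ α j) / aeval x Q ∈ t ∧ (∏ j, x j ^ α j) / aeval x Q ∈ S) →
    ∃ (M : Type) (_ : Field M) (_ : Algebra ℂ M) (P : Fin (N + 1) → Polynomial M),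
      (∀ G : MvPolynomial (Fin (N + 1)) ℂ, (∃ e, G.IsHomogeneous e) →
        (aeval P G = 0 ↔ aeval x G = 0)) ∧
      (∃ (c : M) (k : ℕ), c ≠ 0 ∧ aeval P Q = Polynomial.C c * Polynomial.X ^ k) ∧
      ∃ j k, Polynomial.derivative (P j) * P k ≠ P j * Polynomial.derivative (P k)

/-- varieties which are covered by images of the punctured line are not of logarithmic general
type -/
def S_LGT : Prop := ∀ (n : ℕ) (p : Ideal (MvPolynomial (Fin (n + 1)) ℂ))
  (Q : MvPolynomial (Fin (n + 1)) ℂ) (q : ℕ) (K : Type) [Field K] [Algebra ℂ K] (w : ℕ)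
  (y : Fin (n + 1) → K), Q.IsHomogeneous q → FunField p Q K w y →
  ∀ (M : Type) [Field M] [Algebra ℂ M] (P : Fin (n + 1) → Polynomial M),
    (∀ G : MvPolynomial (Fin (n + 1)) ℂ, IsForm G → (W602.GT.val y G = 0 ↔ aeval P G = 0)) →
    (∃ (c : M) (k : ℕ), c ≠ 0 ∧ aeval P Q = Polynomial.C c * Polynomial.X ^ k) →
    (∃ j k, Polynomial.derivative (P j) * P k ≠ P j * Polynomial.derivative (P k)) →
      ¬ LogGeneralType ℂ K w (OffQ Q q y)

end Pool.Agent.Y377.IL
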