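import Pool.Agent.Y377.IL.Gen
import Pool.Agent.Y377.IL.StmC

/-!
Curves which are algebraic over a differential ring of meromorphic functions.
-/

set_option autoImplicit false

namespace Pool.Agent.Y377.IL

open Set Filter Topology MvPolynomial Pool.Agent.Y377.EL
open scoped LinearAlgebra.Projectivization
open Pool.Agent.TH143.EL (TrOne HolMap Rep InV inV_iff inV_of_punct mero_an mero_ne mero_id
  freq_of_ev codis_ev codis_nhds codis_of_ev mero_eval rep_rep rep_iff)
open Pool.Agent.TH143.GT (Covered FunField Pluricanonical)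
open Pool.Agent.W602.GT (IsForm coords exists_embedding)

variable {N : ℕ}

/-- all ratios of the homogeneous coordinates of `f` are algebraic over `B` -/
def AlgebraicOver (B : Subalgebra ℂ (ℂ → ℂ)) (f : ℂ → ℙ ℂ (Fin (N + 1) → ℂ)) : Prop :=
  ∀ i j, AlgRatio B (fun z => (f z).rep i) fun z => (f z).rep j

/-- `f` has homogeneous coordinates in the class -/
def IteratedOver (B : Subalgebra ℂ (ℂ → ℂ)) (f : ℂ → ℙ ℂ (Fin (N + 1) → ℂ)) : Prop :=
  ∃ h : Fin (N + 1) → ℂ → ℂ, (∀ j, IterLin B (h j)) ∧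
    ∀ᶠ z in codiscrete ℂ, Rep (f z) fun j => h j z

theorem algRatio_rep {B : Subalgebra ℂ (ℂ → ℂ)} {f : ℂ → ℙ ℂ (Fin (N + 1) → ℂ)}
    {h : Fin (N + 1) → ℂ → ℂ} (hr : ∀ᶠ z in codiscrete ℂ, Rep (f z) fun j => h j z)
    {i j : Fin (N + 1)} (ha : AlgRatio B (h i) (h j)) :
    AlgRatio B (fun z => (f z).rep i) fun z => (f z).rep j := by
  obtain ⟨m, b, hb, hne, hs⟩ := ha
  refine ⟨m, b, hb, hne, ?_⟩
  filter_upwards [hs, hr] with z h1 h2
  obtain ⟨hv, h3⟩ := h2
  obtain ⟨a, ha⟩ := Projectivization.exists_smul_eq_mk_rep ℂ _ hv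
  have h4 : ∀ k, (f z).rep k = (a : ℂ) * h k z := by
    intro k
    rw [h3, ← ha]
    rfl
  have h5 : ∀ k ∈ Finset.range (m + 1), b k z * (f z).rep i ^ k * (f z).rep j ^ (m - k) =
      (a : ℂ) ^ m * (b k z * h i z ^ k * h j z ^ (m - k)) := by
    intro k hk
    have hk' : k ≤ m := by
      have := Finset.mem_range.1 hk
      omega
    rw [h4, h4, mul_pow, mul_pow]
    have h6 : (a : ℂ) ^ m = (a : ℂ) ^ k * (a : ℂ) ^ (m - k) := by
      rw [← pow_add, Nat.add_sub_cancel' hk']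
    rw [h6]
    ring
  rw [Finset.sum_congr rfl h5, ← Finset.mul_sum, h1, mul_zero]

/-- curves with algebraic germs of the coordinates -/
theorem algebraicOver_of_ty {hT : S_TAY} {B : Subalgebra ℂ (ℂ → ℂ)} (hB : DB B)
    {h : Fin (N + 1) → ℂ → ℂ} (hl : ∀ j, IterLin B (h j))
    {z0 : ℂ} {l : Fin (N + 1)} (han : ∀ j, AnalyticAt ℂ (h j) z0) (hne : ty z0 (h l) ≠ 0)
    {f : ℂ → ℙ ℂ (Fin (N + 1) → ℂ)} (hr : ∀ᶠ z in codiscrete ℂ, Rep (f z) fun j => h j z)
    (hal : ∀ j, IsAlgebraic (baseF hT B z0) (ty z0 (h j) / ty z0 (h l))) :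
    AlgebraicOver B f := by
  intro i j
  apply algRatio_rep hr
  by_cases hj : ty z0 (h j) = 0
  · have h1 : ∀ᶠ z in codiscrete ℂ, h j z = 0 :=
      mero_id ((hl j).mero hB) (freq_of_ev ((ty_zero hT (han j)).1 hj))
    refine ⟨1, fun k _ => if k = 0 then 1 else 0, fun k => ?_, ⟨0, zero_le_one, fun h0 => ?_⟩, ?_⟩
    · exact B.algebraMap_mem (if k = 0 then (1 : ℂ) else 0)
    · obtain ⟨z, hz⟩ := h0.exists
      simp at hz
    · filter_upwards [h1] with z hz
      rw [Finset.sum_range_succ, Finset.sum_range_one, hz]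
      simp
  · refine algRatio_of_ty hT hB ((hl i).mero hB) ((hl j).mero hB) (han i) (han j) hj ?_
    have h1 : ty z0 (h i) / ty z0 (h j) =
        (ty z0 (h i) / ty z0 (h l)) * (ty z0 (h j) / ty z0 (h l))⁻¹ := by
      rw [inv_div, div_mul_div_cancel₀ hne]
    rw [h1]
    exact (hal i).mul (hal j).inv

/-- functions which are algebraic over the ring have algebraic germs -/
theorem ty_of_alg (hT : S_TAY) {B : Subalgebra ℂ (ℂ → ℂ)} {z0 : ℂ} {r : ℂ → ℂ}
    (hr : AnalyticAt ℂ r z0) {m : ℕ} {b : ℕ → ℂ → ℂ} (hb : ∀ k, b k ∈ B)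
    (hba : ∀ k ∈ Finset.range (m + 1), AnalyticAt ℂ (b k) z0) {k0 : ℕ} (hk0 : k0 ≤ m)
    (hne : ¬ ∀ᶠ z in 𝓝 z0, b k0 z = 0)
    (hs : ∀ᶠ z in 𝓝 z0, ∑ k ∈ Finset.range (m + 1), b k z * r z ^ k = 0) :
    IsAlgebraic (baseR hT B z0) (ty z0 r) := by
  classical
  let c : ℕ → baseR hT B z0 := fun k => if hk : k ∈ Finset.range (m + 1) then
    ⟨ty z0 (b k), b k, hb k, hba k hk, rfl⟩ else 0
  have hc : ∀ k ∈ Finset.range (m + 1), (c k : LK) = ty z0 (b k) := by
    intro k hk
    simp only [c, dif_pos hk]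
  refine ⟨∑ k ∈ Finset.range (m + 1), Polynomial.C (c k) * Polynomial.X ^ k, ?_, ?_⟩
  · intro h0
    have h1 := congrArg (fun q => ((Polynomial.coeff q k0 : baseR hT B z0) : LK)) h0
    simp only [Polynomial.finsetSum_coeff, Polynomial.coeff_C_mul, Polynomial.coeff_X_pow,
      Polynomial.coeff_zero] at h1
    rw [Finset.sum_eq_single k0] at h1
    · rw [if_pos rfl, mul_one, hc k0 (Finset.mem_range.2 (by omega))] at h1
      exact hne ((ty_zero hT (hba k0 (Finset.mem_range.2 (by omega)))).1 h1)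
    · intro k _ hk
      rw [if_neg (fun h => hk h.symm), mul_zero]
    · intro hk
      exact absurd (Finset.mem_range.2 (by omega)) hk
  · rw [map_sum]
    have h2 : ∀ k ∈ Finset.range (m + 1),
        Polynomial.aeval (ty z0 r) (Polynomial.C (c k) * Polynomial.X ^ k) =
          ty z0 (b k) * ty z0 (fun z => r z ^ k) := by
      intro k hk
      rw [map_mul, Polynomial.aeval_C, map_pow, Polynomial.aeval_X, (an_pow hr hT k).2, ← hc k hk]
      rfl
    rw [Finset.sum_congr rfl h2]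
    have h3 : ∀ s ⊆ Finset.range (m + 1), AnalyticAt ℂ (fun z => ∑ k ∈ s, b k z * r z ^ k) z0 ∧
        ty z0 (fun z => ∑ k ∈ s, b k z * r z ^ k) =
          ∑ k ∈ s, ty z0 (b k) * ty z0 (fun z => r z ^ k) := by
      intro s
      induction s using Finset.induction_on with
      | empty =>
        intro _
        simp only [Finset.sum_empty]
        exact ⟨analyticAt_const, by rw [ty_const hT, map_zero]⟩
      | insert a s ha ih =>
        intro hs
        have ha' := hs (Finset.mem_insert_self a s)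
        obtain ⟨i1, i2⟩ := ih fun x hx => hs (Finset.mem_insert_of_mem hx)
        simp only [Finset.sum_insert ha]
        have i3 : AnalyticAt ℂ (fun z => b a z * r z ^ a) z0 := (hba a ha').mul (an_pow hr hT a).1
        refine ⟨i3.add i1, ?_⟩
        have i4 : ty z0 (fun z => b a z * r z ^ a + ∑ k ∈ s, b k z * r z ^ k) =
            ty z0 (fun z => b a z * r z ^ a) + ty z0 (fun z => ∑ k ∈ s, b k z * r z ^ k) :=
          ty_add hT i3 i1
        have i5 : ty z0 (fun z => b a z * r z ^ a) = ty z0 (b a) * ty z0 (fun z => r z ^ a) :=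
          ty_mul hT (hba a ha') (an_pow hr hT a).1
        rw [i4, i5, i2]
    obtain ⟨h4, h5⟩ := h3 _ (Finset.Subset.refl _)
    rw [← h5, ty_zero hT h4]
    exact hs

/-- algebraic curves are given by iterated linear differential equations -/
theorem AlgebraicOver.iterated (hT : S_TAY) (hFRC : S_FRC) (hALD : S_ALD) (hLI : S_LI)
    (hRT : S_RT) {B : Subalgebra ℂ (ℂ → ℂ)} (hB : DB B) {f : ℂ → ℙ ℂ (Fin (N + 1) → ℂ)}
    (hf : HolMap f) (ha : AlgebraicOver B f) : IteratedOver B f := by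
  obtain ⟨D, hD, -⟩ := hFRC
  obtain ⟨l, hl0⟩ := Function.ne_iff.1 (f 0).rep_nonzero
  obtain ⟨hm, hne⟩ := hRT N f hf l ⟨0, hl0⟩
  refine ⟨fun j z => (f z).rep j / (f z).rep l, fun j => hLI B hB _ (hm j) ?_, ?_⟩
  · obtain ⟨m, b, hb, ⟨k0, hk0, hbk⟩, hs⟩ := ha j l
    have e1 : ∀ᶠ z in codiscrete ℂ, ∀ k ∈ Finset.range (m + 1), AnalyticAt ℂ (b k) z := by
      rw [eventually_all_finset]
      exact fun k _ => mero_an (hB.mero _ (hb k))
    have e2 : ∀ᶠ z in codiscrete ℂ, ∑ k ∈ Finset.range (m + 1),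
        b k z * ((f z).rep j / (f z).rep l) ^ k = 0 := by
      filter_upwards [hs, hne] with z h1 h2
      have h3 : ∀ k ∈ Finset.range (m + 1), b k z * (f z).rep j ^ k * (f z).rep l ^ (m - k) =
          (f z).rep l ^ m * (b k z * ((f z).rep j / (f z).rep l) ^ k) := by
        intro k hk
        have hk' : k ≤ m := by
          have := Finset.mem_range.1 hk
          omega
        have h6 : (f z).rep l ^ m = (f z).rep l ^ k * (f z).rep l ^ (m - k) := by
          rw [← pow_add, Nat.add_sub_cancel' hk']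
        rw [h6, div_pow]
        field_simp
      rw [Finset.sum_congr rfl h3, ← Finset.mul_sum] at h1
      exact (mul_eq_zero.1 h1).resolve_left (pow_ne_zero _ h2)
    obtain ⟨z0, ⟨h1, h2⟩, h3⟩ := ((e1.and (mero_an (hm j))).and e2).exists
    have h4 : ∀ᶠ z in 𝓝 z0, ∑ k ∈ Finset.range (m + 1),
        b k z * ((f z).rep j / (f z).rep l) ^ k = 0 :=
      codis_nhds (U := {z | ∑ k ∈ Finset.range (m + 1),
        b k z * ((f z).rep j / (f z).rep l) ^ k = 0}) e2 h3
    have h5 : IsAlgebraic (baseR hT B z0) (ty z0 fun z => (f z).rep j / (f z).rep l) :=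
      ty_of_alg hT h2 hb h1 hk0 (fun h6 => hbk (mero_id (hB.mero _ (hb k0)) (freq_of_ev h6))) h4
    exact linB_of_alg hT hALD hB hD (hm j) h2 (alg_mono (fun x hx => le_frac _ hx) h5)
  · filter_upwards [hne] with z hz
    have h1 : (fun j => (f z).rep j / (f z).rep l) = fun j => ((f z).rep l)⁻¹ * (f z).rep j := by
      funext j
      rw [div_eq_inv_mul]
    rw [h1]
    exact (Pool.Agent.TH143.EL.rep_smul (inv_ne_zero hz)).2 (rep_rep (f z))

end Pool.Agent.Y377.IL
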