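import Pool.Agent.Y377.IL.Cur
import Pool.Agent.Y884.IL.Pt
import Pool.Agent.Y87.IL.Prop
import Pool.Agent.Y77.IL.Tor
import Pool.Agent.Y574.IL.Rng
import Pool.Agent.Y71.IL.NOE
import Pool.Agent.Y379.IL.FA
import Pool.Agent.Y108.IL.FB
import Pool.Agent.Y43.IL.Alg
import Pool.Agent.Y587.IL.Der
import Pool.Agent.Y43.IL.Ge
import Pool.Agent.Y407.IL.Gr
import Pool.Agent.Y151.IL.Ext
import Pool.Agent.Y899.IL.SP
import Pool.Agent.Y592.IL.ENT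
import Pool.Agent.Y592.IL.FUND
import Pool.Agent.Y87.IL.Pc
import Pool.Agent.Y655.IL.Ec
import Pool.Agent.Y232.IL.Poly
import Pool.Agent.Y899.IL.PER
import Pool.Agent.Y858.IL.Exp
import Pool.Agent.Y983.IL.Ape
import Pool.Agent.Y43.IL.Cn
import Pool.Agent.Y297.IL.Ce
import Pool.Agent.Y737.IL.Rc

/-!
All statements of the algebraic part, proved by helpers 884, 87, 77, 574, 71, 379, 108, 43, 587,
407, 151, 899, 592, 655, 232, 858, 983, 297 and 737.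
-/

set_option autoImplicit false

namespace Pool.Agent.Y377.IL

theorem hyp : Hyp where
  noe := Pool.Agent.Y71.IL.t_NOE
  rng := Pool.Agent.Y574.IL.t_RNG (Pool.Agent.Y77.IL.t_TOR Pool.Agent.Y884.IL.t_PT
    Pool.Agent.Y87.IL.t_PROP)
  fa := Pool.Agent.Y379.IL.t_FA
  fb := Pool.Agent.Y108.IL.t_FB
  fr := Pool.Agent.Y43.IL.t_FR
  der := Pool.Agent.Y587.IL.t_DER
  ge := Pool.Agent.Y43.IL.t_GE
  sp := Pool.Agent.Y899.ILSP.t_SP Pool.Agent.Y407.IL.t_GR Pool.Agent.Y151.IL.t_EXT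
  com := Pool.Agent.Y43.IL.t_COM
  apn := Pool.Agent.Y858.IL.t_APN Pool.Agent.Y858.IL.t_EXP
    (Pool.Agent.Y232.IL.t_POLY Pool.Agent.Y592.IL.t_ENT Pool.Agent.Y87.IL.t_PC)
  ape := Pool.Agent.Y983.IL.t_APE Pool.Agent.Y858.IL.t_EXP
    (Pool.Agent.Y899.ILPER.t_PER Pool.Agent.Y592.IL.t_ENT Pool.Agent.Y655.IL.t_EC)
  cn := Pool.Agent.Y43.IL.t_CN Pool.Agent.Y858.IL.t_EXP
  ce := Pool.Agent.Y297.IL.t_CE
  fund := Pool.Agent.Y592.IL.t_FUND Pool.Agent.Y592.IL.t_ENT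

end Pool.Agent.Y377.IL
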