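import Pool.Agent.Y377.IL.CurA

/-!
Entire curves given by iterated linear differential equations: constant coefficients at the bottom.
-/

set_option autoImplicit false

namespace Pool.Agent.Y377.IL

open Set Filter Topology MvPolynomial Pool.Agent.Y377.EL
open scoped LinearAlgebra.Projectivization
open Pool.Agent.TH143.EL (TrOne LinB mero_an mero_ne mero_id mero_top freq_of_ev codis_ev
  codis_nhds codis_of_ev HolMap Rep InV inV_iff inV_of_punct rep_iff rep_smul mero_eval rep_eq
  rep_eq' holMap_ext)
open Pool.Agent.TH143.HE (RatCurvesIn IsPtP NonConst)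

variable {N : ℕ}

theorem trOne_bot : TrOne (⊥ : Subalgebra ℂ (ℂ → ℂ)) where
  mero := by
    intro b hb
    obtain ⟨c, rfl⟩ := Algebra.mem_bot.1 hb
    exact Meromorphic.const c
  der := by
    intro b hb
    obtain ⟨c, rfl⟩ := Algebra.mem_bot.1 hb
    have h1 : deriv (algebraMap ℂ (ℂ → ℂ) c) = 0 := by
      funext z
      exact deriv_const z c
    rw [h1]
    exact Subalgebra.zero_mem _
  dep := by
    intro b hb c _
    obtain ⟨a, rfl⟩ := Algebra.mem_bot.1 hb
    refine ⟨X 0 - C a, ?_, Eventually.of_forall fun z => ?_⟩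
    · intro h0
      have h1 := congrArg (eval fun _ => a + 1) h0
      rw [map_sub, eval_X, eval_C, map_zero] at h1
      exact one_ne_zero (by linear_combination h1 : (1 : ℂ) = 0)
    · rw [map_sub, eval_X, eval_C]
      exact sub_self a

theorem IterLin.const (B : Subalgebra ℂ (ℂ → ℂ)) (c : ℂ) : IterLin B fun _ => c := by
  have h1 := IterLin.quot (B.algebraMap_mem c) B.one_mem
  have h2 : (fun z => (algebraMap ℂ (ℂ → ℂ) c) z / (1 : ℂ → ℂ) z) = fun _ => c := by
    funext z
    exact div_one c
  rwa [h2] at h1

theorem mero_of_diff' {f : ℂ → ℂ} (hf : Differentiable ℂ f) : Meromorphic f :=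
  fun z => (hf.analyticAt z).meromorphicAt

theorem IterLin.id' (B : Subalgebra ℂ (ℂ → ℂ)) : IterLin B fun z => z := by
  have h1 := IterLin.ode (B := B) (n := 2) (fun i j _ => if i = 0 ∧ j = 1 then 1 else 0)
    (fun i z => if i = 0 then z else 1) (fun i j => IterLin.const B _) (fun i => by
      by_cases hi : i = 0
      · simp only [hi, if_true]
        exact mero_of_diff' differentiable_id
      · simp only [hi, if_false]
        exact Meromorphic.const 1) (Eventually.of_forall fun z i => by
      rw [Fin.sum_univ_two]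
      by_cases hi : i = 0
      · simp only [hi, true_and, if_true]
        simpa using hasDerivAt_id' z
      · simp only [hi, false_and, if_false]
        simpa using hasDerivAt_const z (1 : ℂ)) 0
  simpa using h1

theorem IterLin.poly (B : Subalgebra ℂ (ℂ → ℂ)) (p : Polynomial ℂ) :
    IterLin B fun z => p.eval z := by
  induction p using Polynomial.induction_on with
  | C a =>
    simp only [Polynomial.eval_C]
    exact IterLin.const B a
  | add p q hp hq =>
    simp only [Polynomial.eval_add]
    exact IterLin.add hp hq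
  | monomial n a h =>
    have h1 : (fun z => (Polynomial.C a * Polynomial.X ^ (n + 1)).eval z) =
        fun z => (Polynomial.C a * Polynomial.X ^ n).eval z * z := by
      funext z
      simp only [Polynomial.eval_mul, Polynomial.eval_C, Polynomial.eval_pow, Polynomial.eval_X,
        pow_succ]
      ring
    rw [h1]
    exact IterLin.mul h (IterLin.id' B)

/-- polynomial curves are entire curves -/
theorem exists_holMap (p : Fin (N + 1) → Polynomial ℂ) (hp : ∃ j, p j ≠ 0) :
    ∃ f : ℂ → ℙ ℂ (Fin (N + 1) → ℂ), HolMap f ∧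
      ∀ z, (fun j => (p j).eval z) ≠ 0 → Rep (f z) fun j => (p j).eval z := by
  classical
  obtain ⟨j0, hj0⟩ := hp
  let J : Ideal (Polynomial ℂ) := Ideal.span (Set.range p)
  have hJ : J.IsPrincipal := inferInstance
  let g := hJ.generator
  have hgJ : J = Ideal.span {g} := by
    have := hJ.span_singleton_generator
    exact this.symm
  have hdiv : ∀ j, g ∣ p j := by
    intro j
    rw [← Ideal.mem_span_singleton, ← hgJ]
    exact Ideal.subset_span ⟨j, rfl⟩
  choose q hq using hdiv
  have hg0 : g ≠ 0 := by
    intro h0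
    apply hj0
    rw [hq j0, h0, zero_mul]
  obtain ⟨a, ha⟩ : ∃ a : Fin (N + 1) → Polynomial ℂ, ∑ j, a j * p j = g := by
    have h1 : g ∈ J := by
      rw [hgJ]
      exact Ideal.mem_span_singleton_self g
    exact (Ideal.mem_span_range_iff_exists_fun).1 h1
  have hone : ∑ j, a j * q j = 1 := by
    apply mul_left_cancel₀ hg0
    rw [mul_one, Finset.mul_sum]
    conv_rhs => rw [← ha]
    refine Finset.sum_congr rfl fun j _ => ?_
    conv_rhs => rw [hq j]
    ring
  have hne : ∀ z, (fun j => (q j).eval z) ≠ 0 := by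
    intro z h0
    have h1 := congrArg (Polynomial.eval z) hone
    rw [Polynomial.eval_finsetSum, Polynomial.eval_one] at h1
    have h2 : ∀ j, (q j).eval z = 0 := fun j => congrFun h0 j
    simp only [Polynomial.eval_mul, h2, mul_zero, Finset.sum_const_zero] at h1
    exact zero_ne_one h1
  refine ⟨fun z => Projectivization.mk ℂ _ (hne z), fun a => ⟨fun j z => (q j).eval z,
    fun j => (Polynomial.differentiable (q j)).analyticAt a,
      Eventually.of_forall fun z => ⟨hne z, rfl⟩⟩, fun z hz => ?_⟩
  have h1 : (fun j => (p j).eval z) = fun j => g.eval z * (q j).eval z := by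
    funext j
    rw [hq j, Polynomial.eval_mul]
  have h2 : g.eval z ≠ 0 := by
    intro h0
    apply hz
    rw [h1]
    funext j
    rw [h0, zero_mul]
    rfl
  rw [h1]
  exact (rep_smul h2).2 ⟨hne z, rfl⟩

/-- over the constants all curves lie in the rational curves -/
theorem iter_rat (H : Hyp) (hRC : S_RC) (hT : S_TAY) (hFML : S_FML) (hFRC : S_FRC)
    {I I' : Ideal (MvPolynomial (Fin (N + 1)) ℂ)}
    (hR : RatCurvesIn (RingHom.id ℂ) I I')
    {f : ℂ → ℙ ℂ (Fin (N + 1) → ℂ)} (hf : HolMap f) {h : Fin (N + 1) → ℂ → ℂ}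
    (hl : ∀ j, IterLin ⊥ (h j)) (hr : ∀ᶠ z in codiscrete ℂ, Rep (f z) fun j => h j z)
    (hI : ∀ z, InV I (f z)) (hnc : ∃ z w, f z ≠ f w) : ∀ z, InV I' (f z) := by
  classical
  have hB : DB (⊥ : Subalgebra ℂ (ℂ → ℂ)) := db_of_trOne trOne_bot
  rcases iter_alt H hRC hT hFML hFRC hR hB hf hl hr hI with h1 | ⟨z0, l, hz0, hl0, hr0, hall⟩
  · exact h1
  · exfalso
    obtain ⟨z1, w1, hne⟩ := hnc
    have hm : ∀ j, Meromorphic (h j) := fun j => (hl j).mero hB
    -- the ratios are constant
    have hcon : ∀ j, ∃ c : ℂ, ∀ᶠ z in codiscrete ℂ, h j z = c * h l z := by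
      intro j
      have e1 : IsAlgebraic (⊥ : Subalgebra ℂ LK) (ty z0 (h j) / ty z0 (h l)) := by
        have e2 : baseF hT ⊥ z0 ≤ ⊥ := by
          rintro x ⟨r, ⟨b, hb, hba, hbe⟩, hr0, ⟨b', hb', hba', hbe'⟩⟩
          obtain ⟨c, rfl⟩ := Algebra.mem_bot.1 hb
          obtain ⟨c', rfl⟩ := Algebra.mem_bot.1 hb'
          have e3 : r = algebraMap ℂ LK c := hbe.trans (ty_const hT c)
          have e4 : r * x = algebraMap ℂ LK c' := hbe'.trans (ty_const hT c')
          have e5 : x = algebraMap ℂ LK (c' / c) := by
            rw [map_div₀, ← e3, ← e4, mul_div_cancel_left₀ _ hr0]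
          rw [e5]
          exact Subalgebra.algebraMap_mem _ _
        exact alg_mono e2 (hall j)
      obtain ⟨c, hc⟩ := const_of_alg e1
      refine ⟨c, ?_⟩
      have e6 : ty z0 (h l) ≠ 0 := by
        rw [Ne, ty_zero hT (hz0 l)]
        intro h3
        exact hl0 h3.self_of_nhds
      rw [div_eq_iff e6, ← ty_const hT (z0 := z0) c, ← ty_mul hT analyticAt_const (hz0 l)] at hc
      have e7 : AnalyticAt ℂ (fun z => c * h l z) z0 := analyticAt_const.mul (hz0 l)
      have e12 : AnalyticAt ℂ (fun z => (-1 : ℂ) * (c * h l z)) z0 := analyticAt_const.mul e7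
      have e13 : ty z0 (fun z => h j z + (-1 : ℂ) * (c * h l z)) = ty z0 (h j) +
          ty z0 (fun z => (-1 : ℂ) * (c * h l z)) := ty_add hT (hz0 j) e12
      have e14 : ty z0 (fun z => (-1 : ℂ) * (c * h l z)) = ty z0 (fun _ => (-1 : ℂ)) *
          ty z0 (fun z => c * h l z) := ty_mul hT analyticAt_const e7
      have e8 : ty z0 (fun z => h j z - c * h l z) = 0 := by
        have e9 : (fun z => h j z - c * h l z) = fun z => h j z + (-1 : ℂ) * (c * h l z) := by
          funext z
          ring
        rw [e9, e13, e14, ty_const hT, hc, map_neg, map_one]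
        ring
      have e15 : AnalyticAt ℂ (fun z => h j z - c * h l z) z0 := (hz0 j).sub e7
      rw [ty_zero hT e15] at e8
      have e10 := mero_id ((hm j).sub ((Meromorphic.const c).mul (hm l))) (x := z0)
        (freq_of_ev e8)
      filter_upwards [e10] with z hz
      have e11 : h j z - c * h l z = 0 := hz
      exact sub_eq_zero.1 e11
    choose c hc using hcon
    have hev : ∀ᶠ z in codiscrete ℂ, Rep (f z) c := by
      filter_upwards [hr, eventually_all.2 hc] with z h3 h4
      have h5 : (fun j => h j z) = fun j => h l z * c j := by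
        funext j
        rw [h4 j, mul_comm]
      have h6 : h l z ≠ 0 := by
        intro h0
        apply h3.1
        rw [h5]
        funext j
        rw [h0, zero_mul]
        rfl
      rw [h5] at h3
      exact (rep_smul h6).1 h3
    obtain ⟨z2, hz2⟩ := hev.exists
    have hfc : ∀ z, f z = f z2 := by
      intro z
      have h7 : HolMap fun _ : ℂ => f z2 := fun a => ⟨fun j _ => c j, fun j => analyticAt_const,
        Eventually.of_forall fun _ => hz2⟩
      refine holMap_ext hf h7 ?_
      filter_upwards [codis_ev hev z] with w hw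
      exact rep_eq hw hz2
    exact hne ((hfc z1).trans (hfc w1).symm)

end Pool.Agent.Y377.IL
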