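import Pool.Agent.Y377.IL.Stm

/-!
The induction over towers of linear differential equations.
-/

set_option autoImplicit false

namespace Pool.Agent.Y377.IL

open Pool.Agent.Y377.EL

variable {K : Type} [Field K] [Algebra ℂ K]

/-- towers of fundamental matrices of linear differential systems over the ring `R0` -/
inductive LTow (D : Derivation ℂ K K) (R0 : Subalgebra ℂ K) : Subalgebra ℂ K → Prop
  | base : LTow D R0 R0
  | step {R : Subalgebra ℂ K} {n : ℕ} {X Y M : Matrix (Fin n) (Fin n) K} :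
      LTow D R0 R → Fund D R X Y M → LTow D R0 (mat R X Y)

/-- the properties of the base of a tower -/
structure GoodB (D : Derivation ℂ K K) (R : Subalgebra ℂ K) : Prop where
  st : Stab D R
  sim : DSimple D R
  noe : IsNoetherianRing R

/-- a family of rational curves through the elements of the finite set `t` of `frac S` -/
def RatFam (S : Subalgebra ℂ K) (t : Finset K) : Prop :=
  ∃ (S0 : Subalgebra ℂ K) (M : Type) (_ : Field M) (_ : Algebra ℂ M)
    (φ : frac S0 →ₐ[ℂ] RatFunc M), S0 ≤ S ∧ (∀ x ∈ t, x ∈ frac S0) ∧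
    (∀ x ∈ t, x ∈ S → x ∈ S0) ∧
    (∃ x : frac S0, (x : K) ∈ t ∧ ∀ c : M, φ x ≠ algebraMap M (RatFunc M) c) ∧
    ∀ x : frac S0, (x : K) ∈ S0 → ∃ (p : Polynomial M) (k : ℕ),
      φ x * RatFunc.X ^ k = algebraMap (Polynomial M) (RatFunc M) p

theorem le_mat (R : Subalgebra ℂ K) {n : ℕ} (X Y : Matrix (Fin n) (Fin n) K) : R ≤ mat R X Y :=
  le_sup_left

theorem mem_mat_left (R : Subalgebra ℂ K) {n : ℕ} (X Y : Matrix (Fin n) (Fin n) K) (i j : Fin n) :
    X i j ∈ mat R X Y :=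
  (le_sup_right : _ ≤ mat R X Y) (Algebra.subset_adjoin ⟨i, j, Or.inl rfl⟩)

theorem mem_mat_right (R : Subalgebra ℂ K) {n : ℕ} (X Y : Matrix (Fin n) (Fin n) K)
    (i j : Fin n) : Y i j ∈ mat R X Y :=
  (le_sup_right : _ ≤ mat R X Y) (Algebra.subset_adjoin ⟨i, j, Or.inr rfl⟩)

theorem stab_bot (D : Derivation ℂ K K) : Stab D ⊥ := by
  intro x hx
  obtain ⟨c, rfl⟩ := Algebra.mem_bot.1 hx
  rw [D.map_algebraMap]
  exact Subalgebra.zero_mem _

theorem noeth_bot : IsNoetherianRing (⊥ : Subalgebra ℂ K) := by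
  have e : ℂ ≃+* (⊥ : Subalgebra ℂ K) := (Algebra.botEquiv ℂ K).symm.toRingEquiv
  exact isNoetherianRing_of_ringEquiv ℂ e

theorem goodB_bot (D : Derivation ℂ K K) : GoodB D ⊥ := ⟨stab_bot D, dSimple_bot D, noeth_bot⟩

theorem LTow.good (hNOE : S_NOE) (hRNG : S_RNG) {D : Derivation ℂ K K} (hC : Cst D)
    {R0 R : Subalgebra ℂ K} (h0 : GoodB D R0) (h : LTow D R0 R) : GoodB D R := by
  induction h with
  | base => exact h0
  | @step R n X Y M _ hF ih =>
    obtain ⟨h1, h2, -, -⟩ := hNOE K D R n X Y M hF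
    exact ⟨h2 ih.st, hRNG K D hC R ih.st ih.sim n X Y M hF, h1 ih.noe⟩

/-- `S` as an algebra over the subring `R` -/
noncomputable def ovr {R S : Subalgebra ℂ K} (h : R ≤ S) : Subalgebra R K where
  carrier := S
  mul_mem' := S.mul_mem
  add_mem' := S.add_mem
  algebraMap_mem' := fun r => h r.2

theorem fgmod_alg {R S : Subalgebra ℂ K} (hRS : R ≤ S) (h : FGmod R S) {x : K} (hx : x ∈ S) :
    IsIntegral R x := by
  obtain ⟨N, hN, hNS⟩ := h
  have h1 : Subalgebra.toSubmodule (ovr hRS) = N := by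
    ext y
    rw [hNS]
    rfl
  exact IsIntegral.of_mem_of_fg (ovr hRS) (h1 ▸ hN) x hx

/-- derivations preserve algebraic elements -/
theorem alg_der {D : Derivation ℂ K K} {R : Subalgebra ℂ K} (hR : Stab D R) {x : K}
    (hx : IsAlgebraic R x) : IsAlgebraic R (D x) := by
  obtain ⟨P, hP0, hP, hd, hmin⟩ := exists_min hx
  have h1 := D_aeval D R hR x P
  rw [hP, map_zero] at h1
  have hne : Polynomial.aeval x (Polynomial.derivative P) ≠ 0 := by
    intro h0
    have h2 := hmin _ h0 fun n hn => by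
      apply Polynomial.coeff_eq_zero_of_natDegree_lt
      exact lt_of_lt_of_le (Polynomial.natDegree_derivative_lt (by omega)) hn
    have h3 := congrArg (fun q => ((Polynomial.coeff q (P.natDegree - 1) : R) : K)) h2
    simp only [Polynomial.coeff_derivative, Polynomial.coeff_zero] at h3
    have h4 : P.natDegree - 1 + 1 = P.natDegree := by omega
    have hK : CharZero K := charZero_of_injective_algebraMap (algebraMap ℂ K).injective
    rw [h4] at h3
    push_cast at h3
    rcases mul_eq_zero.1 h3 with h5 | h5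
    · have h6 : P.leadingCoeff = 0 := Subtype.ext h5
      exact hP0 (Polynomial.leadingCoeff_eq_zero.1 h6)
    · have h6 : ((P.natDegree - 1 + 1 : ℕ) : K) = 0 := by
        push_cast
        exact h5
      rw [Nat.cast_eq_zero] at h6
      omega
  have h2 : D x = -(Polynomial.aeval x (dc (dres D R hR) P)) *
      (Polynomial.aeval x (Polynomial.derivative P))⁻¹ := by
    rw [← div_eq_mul_inv, eq_div_iff hne]
    linear_combination -h1
  have hmem : ∀ Q : Polynomial R, IsAlgebraic R (Polynomial.aeval x Q) := by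
    intro Q
    rw [Polynomial.aeval_eq_sum_range]
    refine (algC R).sum_mem fun i _ => ?_
    rw [Algebra.smul_def]
    exact (algC R).mul_mem (alg_of_mem (Q.coeff i).2) ((algC R).pow_mem hx i)
  rw [h2]
  exact (hmem _).neg.mul (hmem _).inv

theorem frac_alg {R S : Subalgebra ℂ K} (h : ∀ x ∈ S, IsAlgebraic R x) {x : K}
    (hx : x ∈ frac S) : IsAlgebraic R x := by
  obtain ⟨r, hr, hr0, hrx⟩ := hx
  have h1 : x = r⁻¹ * (r * x) := by
    rw [← mul_assoc, inv_mul_cancel₀ hr0, one_mul]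
  rw [h1]
  exact ((h r hr).inv).mul (h _ hrx)

theorem fgmod_self (R : Subalgebra ℂ K) : FGmod R R := by
  refine ⟨Submodule.span R {(1 : K)}, Submodule.fg_span (Set.finite_singleton _), fun x => ?_⟩
  rw [Submodule.mem_span_singleton]
  constructor
  · rintro ⟨a, rfl⟩
    rw [Algebra.smul_def, mul_one]
    exact a.2
  · intro hx
    exact ⟨⟨x, hx⟩, by
      rw [Algebra.smul_def, mul_one]
      rfl⟩

/-- **The induction over the tower.** -/
theorem LTow.main (hNOE : S_NOE) (hRNG : S_RNG) (hFA : S_FA) (hFB : S_FB) (hFR : S_FR)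
    (hDER : S_DER) (hGE : S_GE) (hSP : S_SP) (hCOM : S_COM) (hAPN : S_APN) (hAPE : S_APE)
    (hCN : S_CN) (hCE : S_CE) {D : Derivation ℂ K K} (hC : Cst D)
    {R0 R : Subalgebra ℂ K} (h0 : GoodB D R0) (h : LTow D R0 R) :
    ∀ S : Subalgebra ℂ K, R ≤ S → Stab D S → FGmod R S →
      ∀ t : Finset K, (∀ x ∈ t, x ∈ frac S) → (∃ x ∈ t, ¬ IsAlgebraic R0 x) →
        RatFam S t := by
  classical
  induction h with
  | base =>
    intro S hRS hS hfg t ht ⟨x, hx, hxc⟩
    exact absurd (frac_alg (fun y hy => (fgmod_alg hRS hfg hy).isAlgebraic) (ht x hx)) hxc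
  | @step R n X Y M hR hF ih =>
    intro S hRS hS hfg t ht hne
    obtain ⟨hRst, hRsim, hRnoe⟩ := LTow.good hNOE hRNG hC h0 hR
    obtain ⟨hRst', hRsim', hRnoe'⟩ := LTow.good hNOE hRNG hC h0 (LTow.step hR hF)
    have hSint : ∀ x ∈ S, IsIntegral (mat R X Y) x := fun x hx => fgmod_alg hRS hfg hx
    have hSsim : DSimple D S := hRsim'.alg hRS hRst' fun x hx => (hSint x hx).isAlgebraic
    by_cases hall : ∀ x ∈ t, IsAlgebraic R x
    · -- everything is algebraic over the previous ring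
      have hle : R ≤ S ⊓ algC R := le_inf ((le_mat R X Y).trans hRS) fun x hx => alg_of_mem hx
      have hst : Stab D (S ⊓ algC R) := fun x hx => ⟨hS x hx.1, alg_der hRst hx.2⟩
      have hfg1 : FGmod R (S ⊓ algC R) :=
        hFB K D R (mat R X Y) S (le_mat R X Y) hRS hRst hRst' hS hRsim' hRnoe
          (hFA K D R hRst hRsim hRnoe n X Y M hF) hfg
      have ht1 : ∀ x ∈ t, x ∈ frac (S ⊓ algC R) := by
        intro x hx
        obtain ⟨r, hr, hr0, hrx⟩ := hFR K D R S ((le_mat R X Y).trans hRS) hRst hS hSsim x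
          (ht x hx) (hall x hx)
        exact ⟨r, hle hr, hr0, hrx, (alg_of_mem hr).mul (hall x hx)⟩
      obtain ⟨S0, M0, i1, i2, φ, h1, h2, h3, h4, h5⟩ := ih _ hle hst hfg1 t ht1 hne
      exact ⟨S0, M0, i1, i2, φ, h1.trans inf_le_left, h2, fun x hx hxS =>
        h3 x hx ⟨hxS, hall x hx⟩, h4, h5⟩
    · push Not at hall
      obtain ⟨x, hx, hxt⟩ := hall
      have hxa : IsAlgebraic (mat R X Y) x :=
        frac_alg (fun y hy => (hSint y hy).isAlgebraic) (ht x hx)
      obtain ⟨δ, ξ, hδ1, hδ2, hδ3⟩ := hDER K D hC R hRst n X Y M hF x hxa hxt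
      obtain ⟨-, -, -, hN4⟩ := hNOE K D R n X Y M hF
      obtain ⟨hY, hst, hcom⟩ := hN4 δ hδ1 ξ hδ3
      have hge := hGE K δ R n X Y ξ hδ1 hδ3 hY
      obtain ⟨δ', hst', hcom', hx', hor⟩ := hSP K D δ (mat R X Y) hRst' hst
        (hcom hRst) hge x hxa hδ2
      obtain ⟨hstS, -⟩ := hCOM K D δ' (mat R X Y) S hRS hRst' hS hSsim hfg hst' hcom'
      rcases hor with hnil | hss
      · obtain ⟨M0, i1, i2, φ, h1, h2⟩ := hCN K δ' S
          (hAPN K δ' (mat R X Y) S hRS hfg hst' hstS hnil)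
        refine ⟨S, M0, i1, i2, φ, le_rfl, ht, fun y _ hy => hy, ⟨⟨x, ht x hx⟩, hx, fun c hc =>
          hx' (h1 ⟨x, ht x hx⟩ c hc)⟩, fun y hy => ?_⟩
        obtain ⟨p, hp⟩ := h2 y hy
        exact ⟨p, 0, by rw [pow_zero, mul_one, hp]⟩
      · obtain ⟨S0, M0, i1, i2, φ, h1, h2, h3, h4, h5⟩ := hCE K δ' S
          (hAPE K δ' (mat R X Y) S hRS hfg hst' hstS hss) t ht
        exact ⟨S0, M0, i1, i2, φ, h1, h2, h3, ⟨⟨x, h2 x hx⟩, hx, fun c hc =>
          hx' (h4 ⟨x, h2 x hx⟩ c hc)⟩, h5⟩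

/-- elements algebraic over the constants are constant -/
theorem const_of_alg {x : K} (h1 : IsAlgebraic (⊥ : Subalgebra ℂ K) x) :
    ∃ c : ℂ, x = algebraMap ℂ K c := by
  have h2 : IsAlgebraic ℂ x := by
    have h3 : Algebra.IsAlgebraic ℂ (⊥ : Subalgebra ℂ K) := ⟨fun y => by
      obtain ⟨c, hc⟩ := Algebra.mem_bot.1 y.2
      have h4 : y = algebraMap ℂ (⊥ : Subalgebra ℂ K) c := Subtype.ext hc.symm
      rw [h4]
      exact isAlgebraic_algebraMap c⟩
    exact h1.restrictScalars ℂ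
  have h3 : IsIntegral ℂ x := h2.isIntegral
  have h4 := IsAlgClosed.degree_eq_one_of_irreducible ℂ (minpoly.irreducible h3)
  obtain ⟨c, hc⟩ := minpoly.mem_range_of_degree_eq_one ℂ x h4
  exact ⟨c, hc.symm⟩

end Pool.Agent.Y377.IL
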