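import Pool.Agent.Y377.IL.Stm

/-!
Statements of the project IL, second part: formal power series, families of punctured lines.
-/

set_option autoImplicit false

namespace Pool.Agent.Y377.IL

open Pool.Agent.Y377.EL MvPolynomial Filter

/-- the derivation of the fraction field of the ring of power series -/
def S_FRC : Prop := ∃ D : Derivation ℂ (FractionRing (PowerSeries ℂ))
  (FractionRing (PowerSeries ℂ)), (∀ f : PowerSeries ℂ, D (algebraMap _ _ f) =
    algebraMap _ _ (PowerSeries.derivative ℂ f)) ∧ Cst D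

/-- formal fundamental matrices -/
def S_FML : Prop := ∀ (n : ℕ) (A : Fin n → Fin n → PowerSeries ℂ),
  ∃ X Y : Matrix (Fin n) (Fin n) (PowerSeries ℂ), X * Y = 1 ∧
    (∀ i j, PowerSeries.derivative ℂ (X i j) = ∑ k, A i k * X k j) ∧
    ∀ y : Fin n → PowerSeries ℂ, (∀ i, PowerSeries.derivative ℂ (y i) = ∑ k, A i k * y k) →
      ∃ c : Fin n → ℂ, ∀ i, y i = ∑ k, X i k * algebraMap ℂ (PowerSeries ℂ) (c k)

/-- the Taylor series -/
noncomputable def tay (z0 : ℂ) (f : ℂ → ℂ) : PowerSeries ℂ :=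
  PowerSeries.mk fun n => iteratedDeriv n f z0 / n.factorial

/-- the Taylor series is an injective homomorphism on germs -/
def S_TAY : Prop := ∀ z0 : ℂ,
  (∀ c : ℂ, tay z0 (fun _ => c) = algebraMap ℂ (PowerSeries ℂ) c) ∧
  (∀ f g : ℂ → ℂ, AnalyticAt ℂ f z0 → AnalyticAt ℂ g z0 →
    tay z0 (fun z => f z + g z) = tay z0 f + tay z0 g ∧
    tay z0 (fun z => f z * g z) = tay z0 f * tay z0 g) ∧
  (∀ f : ℂ → ℂ, AnalyticAt ℂ f z0 →
    tay z0 (deriv f) = PowerSeries.derivative ℂ (tay z0 f)) ∧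
  (∀ f g : ℂ → ℂ, (∀ᶠ z in nhds z0, f z = g z) → tay z0 f = tay z0 g) ∧
  ∀ f : ℂ → ℂ, AnalyticAt ℂ f z0 → tay z0 f = 0 → ∀ᶠ z in nhds z0, f z = 0

/-- algebraic elements satisfy linear differential equations -/
def S_ALD : Prop := ∀ (K : Type) [Field K] [Algebra ℂ K] (D : Derivation ℂ K K)
  (B : Subalgebra ℂ K), Stab D B → ∀ x : K, IsAlgebraic B x →
    ∃ (m : ℕ) (a : ℕ → K), (∀ k, a k ∈ B) ∧ (∃ k ≤ m, a k ≠ 0) ∧
      ∑ k ∈ Finset.range (m + 1), a k * (D^[k]) x = 0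

/-- forms which vanish on all curves of the punctured line in the complement of `Q = 0` over the
complex numbers vanish on those over larger fields -/
def S_RCQ : Prop := ∀ (N : ℕ) (I : Ideal (MvPolynomial (Fin (N + 1)) ℂ))
  (Q G' : MvPolynomial (Fin (N + 1)) ℂ),
    (∀ p : Fin (N + 1) → Polynomial ℂ,
      (∀ G ∈ I, (∃ d, G.IsHomogeneous d) → aeval p G = 0) →
      (∃ (c : ℂ) (k : ℕ), c ≠ 0 ∧ aeval p Q = Polynomial.C c * Polynomial.X ^ k) →
      (∃ j k, Polynomial.derivative (p j) * p k ≠ p j * Polynomial.derivative (p k)) →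
        aeval p G' = 0) →
    ∀ (M : Type) [Field M] [Algebra ℂ M] (P : Fin (N + 1) → Polynomial M),
      (∀ G ∈ I, (∃ d, G.IsHomogeneous d) → aeval P G = 0) →
      (∃ (c : M) (k : ℕ), c ≠ 0 ∧ aeval P Q = Polynomial.C c * Polynomial.X ^ k) →
      (∃ j k, Polynomial.derivative (P j) * P k ≠ P j * Polynomial.derivative (P k)) →
        aeval P G' = 0

/-- homogeneous coordinates for curves of the punctured line in the complement of `Q = 0` -/
def S_LOGP : Prop := ∀ (N d : ℕ) (Q : MvPolynomial (Fin (N + 1)) ℂ), 0 < d →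
  Q.IsHomogeneous d → ∀ (M : Type) [Field M] [Algebra ℂ M] (v : Fin (N + 1) → RatFunc M)
    (w : RatFunc M) (l : Fin (N + 1)), v l = 1 → aeval v Q * w = 1 →
    (∀ α : Fin (N + 1) →₀ ℕ, (∑ j, α j = d) → ∃ (p : Polynomial M) (k : ℕ),
      (∏ j, v j ^ α j) * w * RatFunc.X ^ k = algebraMap (Polynomial M) (RatFunc M) p) →
    ∃ (P : Fin (N + 1) → Polynomial M) (g : RatFunc M), g ≠ 0 ∧
      (∀ j, algebraMap (Polynomial M) (RatFunc M) (P j) = g * v j) ∧
      ∃ (c : M) (k : ℕ), c ≠ 0 ∧ aeval P Q = Polynomial.C c * Polynomial.X ^ k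

end Pool.Agent.Y377.IL
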