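import Pool.Agent.Y377.IL.All
import Pool.Agent.Y377.IL.SpA
import Pool.Agent.Y884.IL.Frc
import Pool.Agent.Y954.IL.Fml
import Pool.Agent.Y564.IL.Tay
import Pool.Agent.Y454.IL.Ald
import Pool.Agent.TH600.LK.Ell

/-!
Entire curves given by iterated linear differential equations: unconditional statements.
The files of the second part are due to helpers 884, 954, 564, 454, 356 and 988.
-/

set_option autoImplicit false

namespace Pool.Agent.Y377.IL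

open Set Filter MvPolynomial
open scoped LinearAlgebra.Projectivization
open Pool.Agent.TH143.EL (TrOne HolMap Rep InV TorusMapsIn ratCurves_of_torus)
open Pool.Agent.TH143.HE (RatCurvesIn)

variable {N : ℕ}

theorem dich {I I' : Ideal (MvPolynomial (Fin (N + 1)) ℂ)}
    (hR : RatCurvesIn (RingHom.id ℂ) I I') {B : Subalgebra ℂ (ℂ → ℂ)} (hB : TrOne B)
    {f : ℂ → ℙ ℂ (Fin (N + 1) → ℂ)} (hf : HolMap f) {h : Fin (N + 1) → ℂ → ℂ}
    (hl : ∀ j, IterLin B (h j)) (hr : ∀ᶠ z in codiscrete ℂ, Rep (f z) fun j => h j z)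
    (hI : ∀ z, InV I (f z)) (hnc : ∃ z w, f z ≠ f w) : (∀ z, InV I' (f z)) ∨
      ∃ ω₁ ω₂ : ℂ, LinearIndependent ℝ ![ω₁, ω₂] ∧ (∀ z, f (z + ω₁) = f z) ∧
        ∀ z, f (z + ω₂) = f z :=
  iter_dichotomy hyp Pool.Agent.Y737.IL.t_RC Pool.Agent.Y564.IL.t_TAY Pool.Agent.Y954.IL.t_FML
    Pool.Agent.Y884.IL.t_FRC Pool.Agent.Y454.IL.t_ALD hR hB hf hl hr hI hnc

theorem rat {I I' : Ideal (MvPolynomial (Fin (N + 1)) ℂ)}
    (hR : RatCurvesIn (RingHom.id ℂ) I I')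
    {f : ℂ → ℙ ℂ (Fin (N + 1) → ℂ)} (hf : HolMap f) {h : Fin (N + 1) → ℂ → ℂ}
    (hl : ∀ j, IterLin ⊥ (h j)) (hr : ∀ᶠ z in codiscrete ℂ, Rep (f z) fun j => h j z)
    (hI : ∀ z, InV I (f z)) (hnc : ∃ z w, f z ≠ f w) : ∀ z, InV I' (f z) :=
  iter_rat hyp Pool.Agent.Y737.IL.t_RC Pool.Agent.Y564.IL.t_TAY Pool.Agent.Y954.IL.t_FML
    Pool.Agent.Y884.IL.t_FRC hR hf hl hr hI hnc

theorem iter_main {I I' : Ideal (MvPolynomial (Fin (N + 1)) ℂ)} (hT : TorusMapsIn I I')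
    {B : Subalgebra ℂ (ℂ → ℂ)} (hB : TrOne B)
    {f : ℂ → ℙ ℂ (Fin (N + 1) → ℂ)} (hf : HolMap f) {h : Fin (N + 1) → ℂ → ℂ}
    (hl : ∀ j, IterLin B (h j)) (hr : ∀ᶠ z in codiscrete ℂ, Rep (f z) fun j => h j z)
    (hI : ∀ z, InV I (f z)) (hnc : ∃ z w, f z ≠ f w) : ∀ z, InV I' (f z) := by
  rcases dich (ratCurves_of_torus hT) hB hf hl hr hI hnc with h1 | ⟨ω₁, ω₂, h1, h2, h3⟩
  · exact h1
  · exact hT ω₁ ω₂ h1 f hf h2 h3 hI hnc

end Pool.Agent.Y377.IL
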