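import Pool.Agent.Y377.IL.Cov
import Pool.Agent.Y261.IL.TR

/-!
Images of varieties with Zariski-dense curves given by iterated linear differential equations.
-/

set_option autoImplicit false

namespace Pool.Agent.Y377.IL

open Set Filter Topology MvPolynomial Pool.Agent.Y377.EL
open scoped LinearAlgebra.Projectivization
open Pool.Agent.TH143.EL (TrOne HolMap Rep InV inV_iff inV_of_punct mero_an mero_ne mero_id
  freq_of_ev codis_ev codis_nhds codis_of_ev mero_eval)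
open Pool.Agent.TH143.GT (Covered FunField Pluricanonical)
open Pool.Agent.W602.GT (IsForm coords exists_embedding)

variable {N : ℕ}

/-- projective models of finitely generated fields -/
theorem exists_funField {E : Type} [Field E] [Algebra ℂ E]
    (hfg : (⊤ : IntermediateField ℂ E).FG) {v : ℕ} (hv : Algebra.trdeg ℂ E = v) :
    ∃ (n : ℕ) (p : Ideal (MvPolynomial (Fin (n + 1)) ℂ)) (y : Fin (n + 1) → E),
      FunField p 1 E v y := by
  classical
  obtain ⟨t, ht⟩ := hfg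
  let y : Fin (t.card + 1) → E := Fin.cons 1 fun i => (t.equivFin.symm i : E)
  have hy0 : y 0 = 1 := rfl
  refine ⟨t.card, Ideal.span {G | IsForm G ∧ W602.GT.val y G = 0}, y, ⟨?_, ?_, ?_, ?_, hv⟩, ?_⟩
  · intro h0
    have h1 := congrFun h0 0
    rw [hy0] at h1
    exact one_ne_zero h1
  · intro G hG
    have h1 : Ideal.span {G | IsForm G ∧ W602.GT.val y G = 0} ≤
        RingHom.ker (aeval y : MvPolynomial (Fin (t.card + 1)) ℂ →ₐ[ℂ] E) := by
      rw [Ideal.span_le]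
      intro G hG
      exact hG.2
    exact h1 hG
  · unfold W602.GT.val
    rw [map_one]
    exact one_ne_zero
  · rw [← top_le_iff, ← ht]
    unfold coords
    rw [IntermediateField.adjoin_le_iff]
    intro a ha
    apply IntermediateField.subset_adjoin
    refine ⟨(t.equivFin ⟨a, ha⟩).succ, 0, by rw [hy0]; exact one_ne_zero, ?_⟩
    rw [hy0, div_one]
    change a = (t.equivFin.symm (t.equivFin ⟨a, ha⟩) : E)
    rw [Equiv.symm_apply_apply]
  · intro G hG h0
    exact Ideal.subset_span ⟨hG, h0⟩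

theorem fg_top_of_fg {K : Type} [Field K] [Algebra ℂ K] {E : IntermediateField ℂ K} (h : E.FG) :
    (⊤ : IntermediateField ℂ E).FG := by
  have h1 : Algebra.EssFiniteType ℂ E := IntermediateField.essFiniteType_iff.2 h
  exact IntermediateField.fg_top ℂ E

theorem fg_of_coords {K : Type} [Field K] [Algebra ℂ K] {y : Fin (N + 1) → K}
    (h : coords ℂ y = ⊤) : (⊤ : IntermediateField ℂ K).FG := by
  rw [← h]
  apply IntermediateField.fg_adjoin_of_finite
  refine (Set.finite_range fun p : Fin (N + 1) × Fin (N + 1) => y p.1 / y p.2).subset ?_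
  rintro _ ⟨i, j, -, rfl⟩
  exact ⟨(i, j), rfl⟩

/-- all forms that vanish on the curve belong to the ideal -/
def Dense (p : Ideal (MvPolynomial (Fin (N + 1)) ℂ)) (f : ℂ → ℙ ℂ (Fin (N + 1) → ℂ)) : Prop :=
  ∀ G : MvPolynomial (Fin (N + 1)) ℂ, IsForm G → (∀ z, eval (f z).rep G = 0) → G ∈ p

/-- forms at the generic point and on the curve -/
theorem rel_of_dense {p : Ideal (MvPolynomial (Fin (N + 1)) ℂ)} {K : Type} [Field K] [Algebra ℂ K]
    {w : ℕ} {y : Fin (N + 1) → K} (hy : FunField p 1 K w y) {f : ℂ → ℙ ℂ (Fin (N + 1) → ℂ)}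
    (hf : HolMap f) {h : Fin (N + 1) → ℂ → ℂ}
    (hr : ∀ᶠ z in codiscrete ℂ, Rep (f z) fun j => h j z) (hX : ∀ z, InV p (f z))
    (hd : Dense p f) (G : MvPolynomial (Fin (N + 1)) ℂ) (hG : IsForm G) :
    W602.GT.val y G = 0 ↔ ∀ᶠ z in codiscrete ℂ, eval (fun j => h j z) G = 0 := by
  constructor
  · intro h0
    have h1 := hy.mem G hG h0
    filter_upwards [hr] with z hz
    exact (inV_iff hz).1 (hX z) G h1 hG
  · intro h0
    refine hy.sub.mem G (hd G hG fun z => ?_)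
    have h3 : InV (Ideal.span {G}) (f z) := by
      apply inV_of_punct hf
      filter_upwards [codis_ev h0 z, codis_ev hr z] with w h4 h5
      rw [inV_iff h5]
      intro G2 hG2 _
      obtain ⟨G3, rfl⟩ := Ideal.mem_span_singleton.1 hG2
      rw [map_mul, h4, zero_mul]
    exact h3 G (Ideal.mem_span_singleton_self G) hG

/-- the value of a form as a multiple of a value of the ratios -/
theorem aeval_ratio {A : Type} [Field A] [Algebra ℂ A] {d : ℕ}
    {G : MvPolynomial (Fin (N + 1)) ℂ} (hG : G.IsHomogeneous d) {x : Fin (N + 1) → A}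
    {l : Fin (N + 1)} (hl : x l ≠ 0) :
    aeval x G = x l ^ d * aeval (fun j => x j / x l) G := by
  rw [← form_scale hG]
  congr 2
  funext j
  rw [mul_div_cancel₀ _ hl]

/-- the algebraic functions in the function field -/
theorem ratio_of_psi {hT : S_TAY} {B : Subalgebra ℂ (ℂ → ℂ)} (hB : DB B)
    {D : Derivation ℂ LK LK} {h : Fin (N + 1) → ℂ → ℂ} (hl : ∀ j, IterLin B (h j))
    {z0 : ℂ} {l : Fin (N + 1)} {R : Subalgebra ℂ LK}
    (hF : FPt hT B D h z0 l R) {K : Type} [Field K] [Algebra ℂ K] {y : Fin (N + 1) → K}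
    (hrel : ∀ G : MvPolynomial (Fin (N + 1)) ℂ, IsForm G →
      (W602.GT.val y G = 0 ↔ ∀ᶠ z in codiscrete ℂ, eval (fun j => h j z) G = 0))
    (hyl : y l ≠ 0) {ψ : K →ₐ[ℂ] LK}
    (hψ : ∀ j, ψ (y j / y l) = ty z0 (h j) / ty z0 (h l)) {d : ℕ}
    {g1 g0 : MvPolynomial (Fin (N + 1)) ℂ} (h1 : g1.IsHomogeneous d) (h0 : g0.IsHomogeneous d)
    (hn : W602.GT.val y g0 ≠ 0)
    (hal : IsAlgebraic (baseF hT B z0) (ψ (W602.GT.val y g1 / W602.GT.val y g0))) :
    AlgRatio B (fun z => eval (fun j => h j z) g1) fun z => eval (fun j => h j z) g0 := by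
  obtain ⟨a1, b1⟩ := ty_eval hT hF.an g1
  obtain ⟨a0, b0⟩ := ty_eval hT hF.an g0
  have hm : ∀ j, Meromorphic (h j) := fun j => (hl j).mero hB
  have hg0 : aeval (fun j => ty z0 (h j)) g0 ≠ 0 := by
    intro h2
    exact hn ((hrel g0 ⟨d, h0⟩).2 ((hF.val g0).1 h2))
  have hψG : ∀ G : MvPolynomial (Fin (N + 1)) ℂ, G.IsHomogeneous d →
      ψ (W602.GT.val y G) * ty z0 (h l) ^ d =
        ψ (y l) ^ d * aeval (fun j => ty z0 (h j)) G := by
    intro G hG
    have e1 : W602.GT.val y G = y l ^ d * aeval (fun j => y j / y l) G := aeval_ratio hG hyl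
    have e2 : aeval (fun j => ty z0 (h j)) G =
        ty z0 (h l) ^ d * aeval (fun j => ty z0 (h j) / ty z0 (h l)) G :=
      aeval_ratio (x := fun j => ty z0 (h j)) hG hF.ne'
    have e3 : ψ (aeval (fun j => y j / y l) G) =
        aeval (fun j => ty z0 (h j) / ty z0 (h l)) G := by
      rw [MvPolynomial.comp_aeval_apply]
      congr 2
      funext j
      exact hψ j
    rw [e1, e2, map_mul, map_pow, e3]
    ring
  have hψl : ψ (y l) ≠ 0 := by
    rw [Ne, map_eq_zero_iff ψ ψ.injective]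
    exact hyl
  have hxl : ty z0 (h l) ^ d ≠ 0 := pow_ne_zero _ hF.ne'
  have e4 : ψ (W602.GT.val y g1 / W602.GT.val y g0) =
      ty z0 (fun z => eval (fun j => h j z) g1) / ty z0 (fun z => eval (fun j => h j z) g0) := by
    rw [map_div₀, b1, b0]
    have e5 := hψG g1 h1
    have e6 := hψG g0 h0
    have e7 : ψ (W602.GT.val y g0) ≠ 0 := by
      rw [Ne, map_eq_zero_iff ψ ψ.injective]
      exact hn
    rw [div_eq_div_iff e7 hg0]
    have e8 : ψ (y l) ^ d * ty z0 (h l) ^ d ≠ 0 := mul_ne_zero (pow_ne_zero _ hψl) hxl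
    apply mul_left_cancel₀ e8
    calc ψ (y l) ^ d * ty z0 (h l) ^ d * (ψ (W602.GT.val y g1) *
          aeval (fun j => ty z0 (h j)) g0)
        = (ψ (W602.GT.val y g1) * ty z0 (h l) ^ d) *
          (ψ (y l) ^ d * aeval (fun j => ty z0 (h j)) g0) := by ring
      _ = (ψ (y l) ^ d * aeval (fun j => ty z0 (h j)) g1) *
          (ψ (W602.GT.val y g0) * ty z0 (h l) ^ d) := by rw [e5, e6]
      _ = _ := by ring
  rw [e4] at hal
  refine algRatio_of_ty hT hB (mero_eval hm g1) (mero_eval hm g0) a1 a0 ?_ hal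
  rw [b0]
  exact hg0

/-- **Images, general version.** -/
theorem gen_fields (H : Hyp) (hT : S_TAY) (hFML : S_FML) (hFRC : S_FRC) (hFGS : S_FGS)
    (hPL : S_PL)
    {p : Ideal (MvPolynomial (Fin (N + 1)) ℂ)} {K : Type} [Field K] [Algebra ℂ K]
    {w : ℕ} {y : Fin (N + 1) → K} (hy : FunField p 1 K w y) {f : ℂ → ℙ ℂ (Fin (N + 1) → ℂ)}
    (hf : HolMap f) (hX : ∀ z, InV p (f z)) (hd : Dense p f)
    {B : Subalgebra ℂ (ℂ → ℂ)} (hB : DB B) {h : Fin (N + 1) → ℂ → ℂ}
    (hl : ∀ j, IterLin B (h j)) (hr : ∀ᶠ z in codiscrete ℂ, Rep (f z) fun j => h j z) :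
    ∃ (z0 : ℂ) (ψ : K →ₐ[ℂ] LK), (∀ E : IntermediateField ℂ K,
        (∀ e ∈ E, IsAlgebraic (baseF hT B z0) (ψ e)) ∨ (Covered E ∧
          ∀ v : ℕ, 0 < v → Algebra.trdeg ℂ E = v → ∀ n : ℕ, 0 < n →
            ∀ ω : (Fin v → Derivation ℂ E E) → E, Pluricanonical v n ω → ω = 0)) ∧
      ∀ (d : ℕ) (g1 g0 : MvPolynomial (Fin (N + 1)) ℂ), g1.IsHomogeneous d →
        g0.IsHomogeneous d → W602.GT.val y g0 ≠ 0 →
        IsAlgebraic (baseF hT B z0) (ψ (W602.GT.val y g1 / W602.GT.val y g0)) →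
        AlgRatio B (fun z => eval (fun j => h j z) g1) fun z => eval (fun j => h j z) g0 := by
  obtain ⟨D, hD, hC⟩ := hFRC
  obtain ⟨z0, l, R, -, hF⟩ := exists_fpt hT hFML hB hD hl (P := fun _ => True)
    (Eventually.of_forall fun _ => trivial) (hr.mono fun z hz => hz.1)
  have hrel := rel_of_dense hy hf hr hX hd
  obtain ⟨hyl, ψ, hψ, hE⟩ := cov_of_fpt H hB hD hC hF hy.sub.gen hrel
  refine ⟨z0, ψ, fun E => ?_, fun d g1 g0 h1 h0 hn hal =>
    ratio_of_psi hB hl hF hrel hyl hψ h1 h0 hn hal⟩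
  have hfg : E.FG := hFGS K (fg_of_coords hy.sub.gen) E
  rcases hE E hfg with h1 | h1
  · exact Or.inl h1
  · refine Or.inr ⟨h1, fun v hv0 hv n hn ω hω => ?_⟩
    obtain ⟨m, p', y', hy'⟩ := exists_funField (fg_top_of_fg hfg) hv
    exact hPL m p' E v y' hy' hv0 h1 n hn ω hω

/-- algebraic elements over a ring of transcendence degree one -/
theorem trdeg_of_alg {hT : S_TAY} {B : Subalgebra ℂ (ℂ → ℂ)} (hB : TrOne B) {z0 : ℂ}
    {K : Type} [Field K] [Algebra ℂ K] {ψ : K →ₐ[ℂ] LK} {E : IntermediateField ℂ K}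
    (h : ∀ e ∈ E, IsAlgebraic (baseF hT B z0) (ψ e)) : Algebra.trdeg ℂ E ≤ 1 := by
  apply Pool.Agent.Y261.IL.trdeg_le_one
  intro b c
  have h1 : ∀ e : E, IsAlgebraic (baseR hT B z0) (ψ e) := fun e =>
    alg_trans (fun x hx => le_frac _ hx) (fun x hx => frac_alg (fun y hy => alg_of_mem hy) hx)
      (h e e.2)
  obtain ⟨P, hP0, hP⟩ := Pool.Agent.Y261.IL.t_TR LK (baseR hT B z0) (baseR_dep hT hB) _ _
    (h1 b) (h1 c)
  refine ⟨P, hP0, ?_⟩
  have e1 : (![ψ b, ψ c] : Fin 2 → LK) = fun i => ψ (E.val (![b, c] i)) := by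
    funext i
    fin_cases i <;> rfl
  rw [e1] at hP
  have e2 : aeval (fun i => ψ (E.val (![b, c] i))) P = ψ (E.val (aeval ![b, c] P)) := by
    rw [MvPolynomial.comp_aeval_apply, MvPolynomial.comp_aeval_apply]
  rw [e2, map_eq_zero_iff ψ ψ.injective] at hP
  exact Subtype.ext hP

/-- algebraic elements over the constants -/
theorem trdeg_of_alg_bot {hT : S_TAY} {z0 : ℂ}
    {K : Type} [Field K] [Algebra ℂ K] {ψ : K →ₐ[ℂ] LK} {E : IntermediateField ℂ K}
    (h : ∀ e ∈ E, IsAlgebraic (baseF hT ⊥ z0) (ψ e)) : Algebra.trdeg ℂ E = 0 := by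
  have e2 : baseF hT ⊥ z0 ≤ ⊥ := by
    rintro x ⟨r, ⟨b, hb, hba, hbe⟩, hr0, ⟨b', hb', hba', hbe'⟩⟩
    obtain ⟨c, rfl⟩ := Algebra.mem_bot.1 hb
    obtain ⟨c', rfl⟩ := Algebra.mem_bot.1 hb'
    have e3 : r = algebraMap ℂ LK c := hbe.trans (ty_const hT c)
    have e4 : r * x = algebraMap ℂ LK c' := hbe'.trans (ty_const hT c')
    have e5 : x = algebraMap ℂ LK (c' / c) := by
      rw [map_div₀, ← e3, ← e4, mul_div_cancel_left₀ _ hr0]
    rw [e5]
    exact Subalgebra.algebraMap_mem _ _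
  have h1 : Algebra.IsAlgebraic ℂ E := ⟨fun e => by
    obtain ⟨c, hc⟩ := const_of_alg (alg_mono e2 (h e e.2))
    have h2 : e = algebraMap ℂ E c := by
      apply Subtype.ext
      apply ψ.injective
      exact hc.trans (ψ.commutes c).symm
    rw [h2]
    exact isAlgebraic_algebraMap c⟩
  exact trdeg_eq_zero

end Pool.Agent.Y377.IL
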