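import Pool.Agent.Y377.IL.AllA
import Pool.Agent.Y377.IL.Gen
import Pool.Agent.Y333.IL.FGS
import Pool.Agent.Y288.IL.PL

/-!
Images of varieties with Zariski-dense curves given by iterated linear differential equations:
unconditional statements. The files of the third part are due to helpers 261, 333 and 288.
-/

set_option autoImplicit false

namespace Pool.Agent.Y377.IL

open Set Filter MvPolynomial
open scoped LinearAlgebra.Projectivization
open Pool.Agent.TH143.EL (TrOne HolMap Rep InV)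
open Pool.Agent.TH143.GT (Covered FunField Pluricanonical)
open Pool.Agent.W602.GT (IsForm GeneralType)

variable {N : ℕ} {p : Ideal (MvPolynomial (Fin (N + 1)) ℂ)} {K : Type} [Field K] [Algebra ℂ K]
  {w : ℕ} {y : Fin (N + 1) → K} {f : ℂ → ℙ ℂ (Fin (N + 1) → ℂ)}

/-- bases of transcendence degree at most one -/
theorem fields_trOne (hy : FunField p 1 K w y)
    (hf : HolMap f) (hX : ∀ z, InV p (f z)) (hd : Dense p f)
    {B : Subalgebra ℂ (ℂ → ℂ)} (hB : TrOne B) {h : Fin (N + 1) → ℂ → ℂ}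
    (hl : ∀ j, IterLin B (h j)) (hr : ∀ᶠ z in codiscrete ℂ, Rep (f z) fun j => h j z)
    (E : IntermediateField ℂ K) {v : ℕ} (hv : Algebra.trdeg ℂ E = v) (hv1 : 1 < v) :
    Covered E ∧ ∀ n : ℕ, 0 < n → ∀ ω : (Fin v → Derivation ℂ E E) → E,
      Pluricanonical v n ω → ω = 0 := by
  obtain ⟨z0, ψ, h1, -⟩ := gen_fields hyp Pool.Agent.Y564.IL.t_TAY Pool.Agent.Y954.IL.t_FML
    Pool.Agent.Y884.IL.t_FRC Pool.Agent.Y333.IL.t_FGS Pool.Agent.Y288.IL.t_PL hy hf hX hd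
    (db_of_trOne hB) hl hr
  rcases h1 E with h2 | ⟨h2, h3⟩
  · exfalso
    have h4 := trdeg_of_alg hB h2
    rw [hv] at h4
    have h5 : v ≤ 1 := by exact_mod_cast h4
    omega
  · exact ⟨h2, h3 v (by omega) hv⟩

/-- the constants as base -/
theorem fields_bot (hy : FunField p 1 K w y)
    (hf : HolMap f) (hX : ∀ z, InV p (f z)) (hd : Dense p f)
    {h : Fin (N + 1) → ℂ → ℂ}
    (hl : ∀ j, IterLin ⊥ (h j)) (hr : ∀ᶠ z in codiscrete ℂ, Rep (f z) fun j => h j z)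
    (E : IntermediateField ℂ K) {v : ℕ} (hv : Algebra.trdeg ℂ E = v) (hv0 : 0 < v) :
    Covered E ∧ ∀ n : ℕ, 0 < n → ∀ ω : (Fin v → Derivation ℂ E E) → E,
      Pluricanonical v n ω → ω = 0 := by
  obtain ⟨z0, ψ, h1, -⟩ := gen_fields hyp Pool.Agent.Y564.IL.t_TAY Pool.Agent.Y954.IL.t_FML
    Pool.Agent.Y884.IL.t_FRC Pool.Agent.Y333.IL.t_FGS Pool.Agent.Y288.IL.t_PL hy hf hX hd
    (db_of_trOne trOne_bot) hl hr
  rcases h1 E with h2 | ⟨h2, h3⟩
  · exfalso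
    have h4 := trdeg_of_alg_bot h2
    rw [hv] at h4
    have h5 : v = 0 := by exact_mod_cast h4
    omega
  · exact ⟨h2, h3 v hv0 hv⟩

/-- arbitrary differential rings of meromorphic functions as bases -/
theorem fields_gen (hy : FunField p 1 K w y)
    (hf : HolMap f) (hX : ∀ z, InV p (f z)) (hd : Dense p f)
    {B : Subalgebra ℂ (ℂ → ℂ)} (hB : DB B) {h : Fin (N + 1) → ℂ → ℂ}
    (hl : ∀ j, IterLin B (h j)) (hr : ∀ᶠ z in codiscrete ℂ, Rep (f z) fun j => h j z)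
    (E : IntermediateField ℂ K) :
    (∀ (d : ℕ) (g1 g0 : MvPolynomial (Fin (N + 1)) ℂ), g1.IsHomogeneous d → g0.IsHomogeneous d →
        W602.GT.val y g0 ≠ 0 → W602.GT.val y g1 / W602.GT.val y g0 ∈ E →
        AlgRatio B (fun z => eval (fun j => h j z) g1) fun z => eval (fun j => h j z) g0) ∨
      (Covered E ∧ ∀ v : ℕ, 0 < v → Algebra.trdeg ℂ E = v → ∀ n : ℕ, 0 < n →
        ∀ ω : (Fin v → Derivation ℂ E E) → E, Pluricanonical v n ω → ω = 0) := by
  obtain ⟨z0, ψ, h1, h2⟩ := gen_fields hyp Pool.Agent.Y564.IL.t_TAY Pool.Agent.Y954.IL.t_FML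
    Pool.Agent.Y884.IL.t_FRC Pool.Agent.Y333.IL.t_FGS Pool.Agent.Y288.IL.t_PL hy hf hX hd hB hl hr
  rcases h1 E with h3 | h3
  · exact Or.inl fun d g1 g0 e1 e0 hn hmem => h2 d g1 g0 e1 e0 hn (h3 _ hmem)
  · exact Or.inr h3

theorem not_gt {E : Type} [Field E] [Algebra ℂ E] {v : ℕ}
    (h : ∀ n : ℕ, 0 < n → ∀ ω : (Fin v → Derivation ℂ E E) → E, Pluricanonical v n ω → ω = 0) :
    ¬ GeneralType ℂ E v := by
  rintro ⟨-, n, hn, ω, hpl, hreg, D, hD0, -⟩
  apply hD0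
  rw [h n hn (ω 0) ⟨hpl 0, fun P hP => hreg P hP 0⟩]
  rfl

end Pool.Agent.Y377.IL
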