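import Pool.Agent.Y377.IL.AllB
import Pool.Agent.Y377.IL.AlgB
import Pool.Agent.Y125.IL.T

/-!
Curves given by iterated linear differential equations over arbitrary differential rings of
meromorphic functions: unconditional statements. The file `Y125/IL/T` is due to helper 125.
-/

set_option autoImplicit false

namespace Pool.Agent.Y377.IL

open Set Filter Topology MvPolynomial
open scoped LinearAlgebra.Projectivization
open Pool.Agent.TH143.EL (TrOne HolMap Rep InV mero_id freq_of_ev rep_rep)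
open Pool.Agent.TH143.HE (RatCurvesIn)
open Pool.Agent.TH143.GT (Covered FunField Pluricanonical Slow slow_diffRing)
open Pool.Agent.W602.GT (IsForm GeneralType coords)

variable {N : ℕ}

theorem algRatio_scale {B : Subalgebra ℂ (ℂ → ℂ)} {u v u' v' : ℂ → ℂ}
    (h : ∀ᶠ z in codiscrete ℂ, ∃ a : ℂ, u' z = a * u z ∧ v' z = a * v z)
    (ha : AlgRatio B u v) : AlgRatio B u' v' := by
  obtain ⟨m, b, hb, hne, hs⟩ := ha
  refine ⟨m, b, hb, hne, ?_⟩
  filter_upwards [hs, h] with z h1 h2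
  obtain ⟨a, h3, h4⟩ := h2
  have h5 : ∀ k ∈ Finset.range (m + 1), b k z * u' z ^ k * v' z ^ (m - k) =
      a ^ m * (b k z * u z ^ k * v z ^ (m - k)) := by
    intro k hk
    have hk' : k ≤ m := by
      have := Finset.mem_range.1 hk
      omega
    rw [h3, h4, mul_pow, mul_pow]
    have h6 : a ^ m = a ^ k * a ^ (m - k) := by
      rw [← pow_add, Nat.add_sub_cancel' hk']
    rw [h6]
    ring
  rw [Finset.sum_congr rfl h5, ← Finset.mul_sum, h1, mul_zero]

/-- the rational functions in the field `E` are algebraic over `B` along the curve `f` -/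
def AlgebraicAlong {K : Type} [Field K] [Algebra ℂ K] (B : Subalgebra ℂ (ℂ → ℂ))
    (y : Fin (N + 1) → K) (f : ℂ → ℙ ℂ (Fin (N + 1) → ℂ)) (E : IntermediateField ℂ K) : Prop :=
  ∀ (d : ℕ) (g1 g0 : MvPolynomial (Fin (N + 1)) ℂ), g1.IsHomogeneous d → g0.IsHomogeneous d →
    W602.GT.val y g0 ≠ 0 → W602.GT.val y g1 / W602.GT.val y g0 ∈ E →
    AlgRatio B (fun z => eval (f z).rep g1) fun z => eval (f z).rep g0

variable {p : Ideal (MvPolynomial (Fin (N + 1)) ℂ)} {K : Type} [Field K] [Algebra ℂ K]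
  {w : ℕ} {y : Fin (N + 1) → K} {f : ℂ → ℙ ℂ (Fin (N + 1) → ℂ)}

theorem images_gen (hy : FunField p 1 K w y)
    (hf : HolMap f) (hX : ∀ z, InV p (f z)) (hd : Dense p f)
    {B : Subalgebra ℂ (ℂ → ℂ)} (hB : DB B) (hl : IteratedOver B f) (E : IntermediateField ℂ K) :
    AlgebraicAlong B y f E ∨
      (Covered E ∧ ∀ v : ℕ, 0 < v → Algebra.trdeg ℂ E = v → ∀ n : ℕ, 0 < n →
        ∀ ω : (Fin v → Derivation ℂ E E) → E, Pluricanonical v n ω → ω = 0) := by
  obtain ⟨h, hl, hr⟩ := hl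
  rcases fields_gen hy hf hX hd hB hl hr E with h1 | h1
  · left
    intro d g1 g0 e1 e0 hn hmem
    refine algRatio_scale ?_ (h1 d g1 g0 e1 e0 hn hmem)
    filter_upwards [hr] with z h2
    obtain ⟨hv, h3⟩ := h2
    obtain ⟨a, ha⟩ := Projectivization.exists_smul_eq_mk_rep ℂ _ hv
    have h4 : (f z).rep = fun k => (a : ℂ) * h k z := by
      funext k
      rw [h3, ← ha]
      rfl
    have h5 : ∀ G : MvPolynomial (Fin (N + 1)) ℂ, G.IsHomogeneous d →
        eval (f z).rep G = (a : ℂ) ^ d * eval (fun k => h k z) G := by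
      intro G hG
      rw [h4]
      have h6 := form_scale (A := ℂ) hG (a : ℂ) (fun k => h k z)
      rwa [aeval_eq_eval, aeval_eq_eval] at h6
    exact ⟨(a : ℂ) ^ d, h5 g1 e1, h5 g0 e0⟩
  · exact Or.inr h1

theorem rep_zero_of_val (hy : FunField p 1 K w y) (hX : ∀ z, InV p (f z))
    {j : Fin (N + 1)} (h0 : y j = 0) (z : ℂ) : (f z).rep j = 0 := by
  have h1 : (X j : MvPolynomial (Fin (N + 1)) ℂ) ∈ p := by
    apply hy.mem _ ⟨1, isHomogeneous_X _ _⟩
    unfold W602.GT.val
    rw [aeval_X, h0]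
  have h2 := hX z _ h1 ⟨1, isHomogeneous_X _ _⟩
  rwa [eval_X] at h2

theorem algebraicOver_of_along {B : Subalgebra ℂ (ℂ → ℂ)} (hy : FunField p 1 K w y)
    (hX : ∀ z, InV p (f z)) (h : AlgebraicAlong B y f ⊤) : AlgebraicOver B f := by
  intro i j
  by_cases hj : y j = 0
  · refine ⟨1, fun k _ => if k = 0 then 1 else 0, fun k => ?_, ⟨0, zero_le_one, fun h0 => ?_⟩, ?_⟩
    · exact B.algebraMap_mem (if k = 0 then (1 : ℂ) else 0)
    · obtain ⟨z, hz⟩ := h0.exists
      simp at hz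
    · refine Eventually.of_forall fun z => ?_
      have h2 := rep_zero_of_val hy hX hj z
      rw [Finset.sum_range_succ, Finset.sum_range_one]
      simp [h2]
  · have h1 := h 1 (X i) (X j) (isHomogeneous_X _ _) (isHomogeneous_X _ _) (by
      unfold W602.GT.val
      rwa [aeval_X]) IntermediateField.mem_top
    simpa only [eval_X] using h1

theorem pos_of_covered {w : ℕ} (hw : Algebra.trdeg ℂ K = w) (h : Covered K) : 0 < w := by
  rcases Nat.eq_zero_or_pos w with h0 | h0
  · exfalso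
    rw [h0, Nat.cast_zero, trdeg_eq_zero_iff] at hw
    obtain ⟨M, _, _, φ, r, hr⟩ := h
    have h1 : IsAlgebraic ℂ r := hw.isAlgebraic r
    have h3 : IsIntegral ℂ r := h1.isIntegral
    have h4 := IsAlgClosed.degree_eq_one_of_irreducible ℂ (minpoly.irreducible h3)
    obtain ⟨c, hc⟩ := minpoly.mem_range_of_degree_eq_one ℂ r h4
    apply hr (algebraMap ℂ M c)
    rw [← hc, AlgHom.commutes]
    rfl
  · exact h0

theorem covered_of_top (h : Covered (⊤ : IntermediateField ℂ K)) : Covered K := by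
  obtain ⟨M, i1, i2, φ, r, hr⟩ := h
  refine ⟨M, i1, i2, φ.comp (IntermediateField.topEquiv (F := ℂ) (E := K)).symm.toAlgHom,
    (r : K), fun c hc => hr c ?_⟩
  exact hc

/-- **General base rings.** -/
theorem gen_K (hy : FunField p 1 K w y)
    (hf : HolMap f) (hX : ∀ z, InV p (f z)) (hd : Dense p f)
    {B : Subalgebra ℂ (ℂ → ℂ)} (hB : DB B) (hl : IteratedOver B f) :
    AlgebraicOver B f ∨ (Covered K ∧ ∀ n : ℕ, 0 < n → ∀ ω : (Fin w → Derivation ℂ K K) → K,
      Pluricanonical w n ω → ω = 0) := by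
  rcases images_gen hy hf hX hd hB hl ⊤ with h1 | ⟨h1, -⟩
  · exact Or.inl (algebraicOver_of_along hy hX h1)
  · right
    have h2 := covered_of_top h1
    exact ⟨h2, fun n hn ω hω => Pool.Agent.Y288.IL.t_PL N p K w y hy
      (pos_of_covered hy.sub.dim h2) h2 n hn ω hω⟩

theorem form_of_gt {v : ℕ} (h : GeneralType ℂ K v) :
    ∃ n : ℕ, 0 < n ∧ ∃ ω : (Fin v → Derivation ℂ K K) → K, Pluricanonical v n ω ∧ ω ≠ 0 := by
  by_contra hcon
  push Not at hcon
  exact not_gt (fun n hn ω hω => hcon n hn ω hω) h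

/-- the entire functions of order at most `lam` form a differential ring -/
theorem db_slow (lam : ℝ) (hlam : 0 ≤ lam) : DB (Slow lam hlam) where
  mero := fun b hb => mero_of_diff' hb.1
  der := fun b hb => by
    obtain ⟨g, hg, h1⟩ := (slow_diffRing lam hlam).2 b hb
    have h2 : deriv b = g := by
      funext z
      exact (h1 z (Set.mem_univ z)).deriv
    rw [h2]
    exact hg

/-- the alternative for arbitrary base rings -/
theorem dich_gen {I I' : Ideal (MvPolynomial (Fin (N + 1)) ℂ)}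
    (hR : RatCurvesIn (RingHom.id ℂ) I I') {B : Subalgebra ℂ (ℂ → ℂ)} (hB : DB B)
    (hf : HolMap f) (hl : IteratedOver B f) (hI : ∀ z, InV I (f z)) :
    (∀ z, InV I' (f z)) ∨ AlgebraicOver B f := by
  obtain ⟨h, hl, hr⟩ := hl
  rcases iter_alt hyp Pool.Agent.Y737.IL.t_RC Pool.Agent.Y564.IL.t_TAY Pool.Agent.Y954.IL.t_FML
    Pool.Agent.Y884.IL.t_FRC hR hB hf hl hr hI with h1 | ⟨z0, l, han, hl0, hr0, hall⟩
  · exact Or.inl h1
  · refine Or.inr (algebraicOver_of_ty hB hl han ?_ hr hall)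
    rw [Ne, ty_zero Pool.Agent.Y564.IL.t_TAY (han l)]
    intro h3
    exact hl0 h3.self_of_nhds

theorem iterated_of_algebraic {B : Subalgebra ℂ (ℂ → ℂ)} (hB : DB B) (hf : HolMap f)
    (ha : AlgebraicOver B f) : IteratedOver B f :=
  ha.iterated Pool.Agent.Y564.IL.t_TAY Pool.Agent.Y884.IL.t_FRC Pool.Agent.Y454.IL.t_ALD
    Pool.Agent.Y125.IL.t_LI Pool.Agent.Y125.IL.t_RT hB hf

end Pool.Agent.Y377.IL
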