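import Pool.Agent.Y377.IL.Log
import Pool.Agent.TH600.LE.Sp

/-!
Curves in quasi-projective varieties: the special set of the multiplicative group.
-/

set_option autoImplicit false

namespace Pool.Agent.Y377.IL

open Set Filter Topology MvPolynomial Pool.Agent.Y377.EL
open scoped LinearAlgebra.Projectivization
open Pool.Agent.TH143.EL (TrOne HolMap Rep InV inV_iff inV_of_punct mero_an mero_ne mero_id
  freq_of_ev codis_ev codis_nhds codis_of_ev mero_eval rep_rep rep_iff rep_smul holMap_ext rep_eq)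
open Pool.Agent.W602.GT (IsForm)
open Pool.Agent.TH600.LE (ExpPrim curve_of_gm form_zero rep_form)

variable {N : ℕ}

/-- `p` gives a nonconstant morphism from the multiplicative group to the complement of `Q = 0` in
the algebraic set of `I`. -/
def GmCurve (I : Ideal (MvPolynomial (Fin (N + 1)) ℂ)) (Q : MvPolynomial (Fin (N + 1)) ℂ)
    (p : Fin (N + 1) → Polynomial ℂ) : Prop :=
  (∀ t, t ≠ 0 → eval (fun j => (p j).eval t) Q ≠ 0) ∧
  (∀ t, t ≠ 0 → ∀ G ∈ I, (∃ d, G.IsHomogeneous d) → eval (fun j => (p j).eval t) G = 0) ∧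
  ∃ t u j k, t ≠ 0 ∧ u ≠ 0 ∧ (p j).eval t * (p k).eval u ≠ (p k).eval t * (p j).eval u

theorem poly_ne {P : Polynomial ℂ} (h : ∀ t, t ≠ 0 → P.eval t = 0) : P = 0 := by
  apply Polynomial.eq_zero_of_infinite_isRoot
  exact ((Set.finite_singleton (0 : ℂ)).infinite_compl).mono fun t ht => h t ht

theorem nonconst_of_wr' {p : Fin (N + 1) → Polynomial ℂ}
    (h : ∃ j k, Polynomial.derivative (p j) * p k ≠ p j * Polynomial.derivative (p k)) :
    ∃ t u j k, t ≠ 0 ∧ u ≠ 0 ∧ (p j).eval t * (p k).eval u ≠ (p k).eval t * (p j).eval u := by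
  by_contra hcon
  push Not at hcon
  obtain ⟨j, k, hjk⟩ := h
  apply hjk
  have h0 : ∀ v, v ≠ 0 → p j * Polynomial.C ((p k).eval v) = p k * Polynomial.C ((p j).eval v) := by
    intro v hv
    rw [← sub_eq_zero]
    apply poly_ne
    intro u hu
    rw [Polynomial.eval_sub, Polynomial.eval_mul, Polynomial.eval_mul, Polynomial.eval_C,
      Polynomial.eval_C]
    exact sub_eq_zero.2 (hcon u v j k hu hv)
  rw [← sub_eq_zero]
  apply poly_ne
  intro v hv
  have h2 := congrArg (fun q => (Polynomial.derivative q).eval v) (h0 v hv)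
  simp only [Polynomial.derivative_mul, Polynomial.derivative_C, mul_zero, add_zero,
    Polynomial.eval_mul, Polynomial.eval_C] at h2
  rw [Polynomial.eval_sub, Polynomial.eval_mul, Polynomial.eval_mul]
  linear_combination h2

/-- forms which vanish on all curves of the multiplicative group vanish on the curve -/
theorem log_gm (H : Hyp) (hT : S_TAY) (hFML : S_FML) (hFRC : S_FRC) (hRT : S_RT)
    (hLOGP : S_LOGP) (hPF : S_PF) (hRCQ : S_RCQ)
    {I : Ideal (MvPolynomial (Fin (N + 1)) ℂ)} {Q : MvPolynomial (Fin (N + 1)) ℂ} {d : ℕ}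
    (hd : 0 < d) (hQ : Q.IsHomogeneous d) {B : Subalgebra ℂ (ℂ → ℂ)} (hB : DB B)
    {f : ℂ → ℙ ℂ (Fin (N + 1) → ℂ)} (hf : HolMap f) (hI : ∀ z, InV I (f z))
    (hX : ∀ z, eval (f z).rep Q ≠ 0)
    (hl : ∀ α : Fin (N + 1) →₀ ℕ, ∑ j, α j = d → IterLin B (regf Q α f)) :
    AlgebraicOver B f ∨ ∀ G : MvPolynomial (Fin (N + 1)) ℂ, (∃ e, G.IsHomogeneous e) →
      (∀ p : Fin (N + 1) → Polynomial ℂ, GmCurve I Q p → ∀ t, t ≠ 0 →
        eval (fun j => (p j).eval t) G = 0) → ∀ z, eval (f z).rep G = 0 := by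
  rcases log_main H hT hFML hFRC hRT hLOGP hPF hd hQ hB hf hX hl with h1 |
    ⟨M, i1, i2, P, h1, h2, h3⟩
  · exact Or.inl h1
  · right
    intro G hG hGm
    rw [← h1 G hG]
    have hev : ∀ (p : Fin (N + 1) → Polynomial ℂ) (G : MvPolynomial (Fin (N + 1)) ℂ) (u : ℂ),
        (aeval p G : Polynomial ℂ).eval u = eval (fun j => (p j).eval u) G := by
      intro p G u
      have e1 := MvPolynomial.comp_aeval_apply (f := p) (Polynomial.aeval u) G
      rw [Polynomial.coe_aeval_eq_eval] at e1
      rw [e1, MvPolynomial.aeval_eq_eval]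
    refine hRCQ N I Q G (fun p e1 e2 e3 => ?_) M P (fun G' hG' hGh' => ?_) h2 h3
    · apply poly_ne
      intro t ht
      rw [hev]
      refine hGm p ⟨fun u hu => ?_, fun u _ G' hG' hGh' => ?_, nonconst_of_wr' e3⟩ t ht
      · obtain ⟨c, k, hc, hck⟩ := e2
        rw [← hev, hck, Polynomial.eval_mul, Polynomial.eval_C, Polynomial.eval_pow,
          Polynomial.eval_X]
        exact mul_ne_zero hc (pow_ne_zero _ hu)
      · rw [← hev, e1 G' hG' hGh', Polynomial.eval_zero]
    · rw [h1 G' hGh']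
      exact fun z => hI z G' hG' hGh'

/-- curves which are algebraic over the constants are constant -/
theorem AlgebraicOver.const (hT : S_TAY) (hRT : S_RT) {f : ℂ → ℙ ℂ (Fin (N + 1) → ℂ)}
    (hf : HolMap f) (ha : AlgebraicOver ⊥ f) : ∀ z w, f z = f w := by
  have hB : DB (⊥ : Subalgebra ℂ (ℂ → ℂ)) := db_of_trOne trOne_bot
  obtain ⟨l, hl0⟩ := Function.ne_iff.1 (f 0).rep_nonzero
  obtain ⟨hm, hne⟩ := hRT N f hf l ⟨0, hl0⟩
  have hcon : ∀ j, ∃ c : ℂ, ∀ᶠ z in codiscrete ℂ, (f z).rep j = c * (f z).rep l := by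
    intro j
    obtain ⟨m, b, hb, ⟨k0, hk0, hbk⟩, hs⟩ := ha j l
    have e1 : ∀ᶠ z in codiscrete ℂ, ∀ k ∈ Finset.range (m + 1), AnalyticAt ℂ (b k) z := by
      rw [eventually_all_finset]
      exact fun k _ => mero_an (hB.mero _ (hb k))
    have e2 : ∀ᶠ z in codiscrete ℂ, ∑ k ∈ Finset.range (m + 1),
        b k z * ((f z).rep j / (f z).rep l) ^ k = 0 := by
      filter_upwards [hs, hne] with z h1 h2
      have h3 : ∀ k ∈ Finset.range (m + 1), b k z * (f z).rep j ^ k * (f z).rep l ^ (m - k) =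
          (f z).rep l ^ m * (b k z * ((f z).rep j / (f z).rep l) ^ k) := by
        intro k hk
        have hk' : k ≤ m := by
          have := Finset.mem_range.1 hk
          omega
        have h6 : (f z).rep l ^ m = (f z).rep l ^ k * (f z).rep l ^ (m - k) := by
          rw [← pow_add, Nat.add_sub_cancel' hk']
        rw [h6, div_pow]
        field_simp
      rw [Finset.sum_congr rfl h3, ← Finset.mul_sum] at h1
      exact (mul_eq_zero.1 h1).resolve_left (pow_ne_zero _ h2)
    obtain ⟨z0, ⟨h1, h2⟩, h3⟩ := ((e1.and (mero_an (hm j))).and e2).exists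
    have h4 : ∀ᶠ z in 𝓝 z0, ∑ k ∈ Finset.range (m + 1),
        b k z * ((f z).rep j / (f z).rep l) ^ k = 0 :=
      codis_nhds (U := {z | ∑ k ∈ Finset.range (m + 1),
        b k z * ((f z).rep j / (f z).rep l) ^ k = 0}) e2 h3
    have h5 : IsAlgebraic (baseR hT ⊥ z0) (ty z0 fun z => (f z).rep j / (f z).rep l) :=
      ty_of_alg hT h2 hb h1 hk0 (fun h6 => hbk (mero_id (hB.mero _ (hb k0)) (freq_of_ev h6))) h4
    have h6 : baseR hT ⊥ z0 ≤ ⊥ := by
      rintro _ ⟨b', hb', -, rfl⟩
      obtain ⟨c, rfl⟩ := Algebra.mem_bot.1 hb'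
      have : ty z0 (algebraMap ℂ (ℂ → ℂ) c) = algebraMap ℂ LK c := ty_const hT c
      rw [this]
      exact Subalgebra.algebraMap_mem _ _
    obtain ⟨c, hc⟩ := const_of_alg (alg_mono h6 h5)
    refine ⟨c, ?_⟩
    have h7 : ty z0 (fun z => (f z).rep j / (f z).rep l + (-1 : ℂ) * c) = 0 := by
      have e3 : AnalyticAt ℂ (fun _ : ℂ => (-1 : ℂ) * c) z0 := analyticAt_const
      have e4 : ty z0 (fun z => (f z).rep j / (f z).rep l + (-1 : ℂ) * c) =
          ty z0 (fun z => (f z).rep j / (f z).rep l) + ty z0 (fun _ => (-1 : ℂ) * c) :=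
        ty_add hT h2 e3
      rw [e4, hc, ty_const hT, ← map_add]
      have : c + (-1 : ℂ) * c = 0 := by ring
      rw [this, map_zero]
    have e5 : AnalyticAt ℂ (fun z => (f z).rep j / (f z).rep l + (-1 : ℂ) * c) z0 :=
      h2.add analyticAt_const
    rw [ty_zero hT e5] at h7
    have h8 := mero_id ((hm j).add (Meromorphic.const ((-1 : ℂ) * c))) (x := z0) (freq_of_ev h7)
    filter_upwards [h8, hne] with z h9 h10
    have h11 : (f z).rep j / (f z).rep l + (-1 : ℂ) * c = 0 := h9
    have h12 : (f z).rep j / (f z).rep l = c := by linear_combination h11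
    rwa [div_eq_iff h10] at h12
  choose c hc using hcon
  have hev : ∀ᶠ z in codiscrete ℂ, Rep (f z) c := by
    filter_upwards [hne, eventually_all.2 hc] with z h3 h4
    have h5 : (f z).rep = fun j => (f z).rep l * c j := by
      funext j
      rw [h4 j, mul_comm]
    have h6 := rep_rep (f z)
    rw [h5] at h6
    exact (rep_smul h3).1 h6
  obtain ⟨z2, hz2⟩ := hev.exists
  have hfc : ∀ z, f z = f z2 := by
    intro z
    have h7 : HolMap fun _ : ℂ => f z2 := fun a => ⟨fun j _ => c j, fun j => analyticAt_const,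
      Eventually.of_forall fun _ => hz2⟩
    refine holMap_ext hf h7 ?_
    filter_upwards [codis_ev hev z] with w hw
    exact rep_eq hw hz2
  exact fun z w => (hfc z).trans (hfc w).symm

/-- functions built by exponentials and integrations belong to the class -/
theorem expPrim_iter {f : ℂ → ℂ} (hf : ExpPrim f) : IterLin ⊥ f ∧ IterLin ⊥ (deriv f) := by
  induction hf with
  | const c =>
    refine ⟨IterLin.const ⊥ c, ?_⟩
    have h1 : deriv (fun _ : ℂ => c) = fun _ => 0 := by
      funext z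
      exact deriv_const z c
    rw [h1]
    exact IterLin.const ⊥ 0
  | @add f g hf hg h1 h2 =>
    refine ⟨h1.1.add h2.1, ?_⟩
    have h3 : deriv (fun z => f z + g z) = fun z => deriv f z + deriv g z := by
      funext z
      exact deriv_add (hf.diff z) (hg.diff z)
    rw [h3]
    exact h1.2.add h2.2
  | @mul f g hf hg h1 h2 =>
    refine ⟨h1.1.mul h2.1, ?_⟩
    have h3 : deriv (fun z => f z * g z) = fun z => deriv f z * g z + f z * deriv g z := by
      funext z
      exact deriv_mul (hf.diff z) (hg.diff z)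
    rw [h3]
    exact (h1.2.mul h2.1).add (h1.1.mul h2.2)
  | @exp f hf h1 =>
    have h2 : ∀ z, HasDerivAt (fun z => Complex.exp (f z)) (deriv f z * Complex.exp (f z)) z := by
      intro z
      have := (hf.diff z).hasDerivAt.cexp
      rwa [mul_comm] at this
    have h3 : IterLin ⊥ fun z => Complex.exp (f z) :=
      IterLin.ode (B := ⊥) (n := 1) (fun _ _ => deriv f) (fun _ z => Complex.exp (f z))
        (fun _ _ => h1.2) (fun _ => mero_of_diff' fun z => (h2 z).differentiableAt)
        (Eventually.of_forall fun z _ => by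
          rw [Fin.sum_univ_one]
          exact h2 z) 0
    refine ⟨h3, ?_⟩
    have h4 : deriv (fun z => Complex.exp (f z)) = fun z => deriv f z * Complex.exp (f z) := by
      funext z
      exact (h2 z).deriv
    rw [h4]
    exact h1.2.mul h3
  | @prim F hF h1 h2 =>
    refine ⟨?_, h2.1⟩
    have h3 := IterLin.ode (B := ⊥) (n := 2)
      (fun i j => if i = 0 ∧ j = 1 then deriv F else fun _ => 0)
      (fun i z => if i = 0 then F z else 1) (fun i j => by
        by_cases h : i = 0 ∧ j = 1
        · simp only [if_pos h]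
          exact h2.1
        · simp only [if_neg h]
          exact IterLin.const ⊥ 0) (fun i => by
        by_cases hi : i = 0
        · simp only [hi, if_true]
          exact mero_of_diff' hF
        · simp only [hi, if_false]
          exact Meromorphic.const 1) (Eventually.of_forall fun z i => by
        rw [Fin.sum_univ_two]
        by_cases hi : i = 0
        · subst hi
          simpa using (hF z).hasDerivAt
        · simp only [hi, false_and, if_false]
          simpa using hasDerivAt_const z (1 : ℂ)) 0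
    simpa using h3

theorem expPrim_prod {h : Fin (N + 1) → ℂ → ℂ} (hh : ∀ j, ExpPrim (h j))
    (α : Fin (N + 1) →₀ ℕ) : ExpPrim fun z => ∏ j, h j z ^ α j := by
  classical
  have key : ∀ s : Finset (Fin (N + 1)), ExpPrim fun z => ∏ j ∈ s, h j z ^ α j := by
    intro s
    induction s using Finset.induction_on with
    | empty =>
      simp only [Finset.prod_empty]
      exact ExpPrim.const 1
    | insert a s ha ih =>
      simp only [Finset.prod_insert ha]
      exact ((hh a).pow _).mul ih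
  exact key Finset.univ

/-- curves of the multiplicative group are given by iterated linear differential equations -/
theorem iter_of_gm {Q : MvPolynomial (Fin (N + 1)) ℂ} {d : ℕ}
    (hd : 0 < d) (hQ : Q.IsHomogeneous d) {I : Ideal (MvPolynomial (Fin (N + 1)) ℂ)}
    {p : Fin (N + 1) → Polynomial ℂ} (hp : GmCurve I Q p) :
    ∃ f : ℂ → ℙ ℂ (Fin (N + 1) → ℂ), HolMap f ∧ (∀ z, InV I (f z)) ∧
      (∀ z, eval (f z).rep Q ≠ 0) ∧
      (∀ α : Fin (N + 1) →₀ ℕ, ∑ j, α j = d → IterLin ⊥ (regf Q α f)) ∧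
      (∃ z w, f z ≠ f w) ∧ ∀ t, t ≠ 0 → ∀ x, Rep x (fun j => (p j).eval t) → ∃ z, f z = x := by
  obtain ⟨hp1, hp2, t, u, j, k, ht, hu, hjk⟩ := hp
  obtain ⟨f, q, hf, hq, hqQ⟩ := curve_of_gm hQ hd hp1
  have hQf : ∀ z, eval (f z).rep Q ≠ 0 := by
    intro z
    rw [Ne, rep_form (hf z) ⟨d, hQ⟩]
    exact hp1 _ (Complex.exp_ne_zero z)
  have hcoord : ∀ j, ExpPrim fun z => (p j).eval (Complex.exp z) := fun j =>
    (ExpPrim.exp ExpPrim.id).poly (p j)
  refine ⟨f, fun a => ⟨fun j z => (p j).eval (Complex.exp z), fun j =>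
    (hcoord j).diff.analyticAt a, Eventually.of_forall hf⟩, fun z =>
    (inV_iff (hf z)).2 (hp2 _ (Complex.exp_ne_zero z)), hQf, fun α hα => ?_, ?_, ?_⟩
  · have h1 : regf Q α f = fun z => (∏ j, ((p j).eval (Complex.exp z)) ^ α j) * q z := by
      funext z
      obtain ⟨hv, h3⟩ := hf z
      obtain ⟨a, ha⟩ := Projectivization.exists_smul_eq_mk_rep ℂ _ hv
      have h4 : (f z).rep = fun j => (a : ℂ) * (p j).eval (Complex.exp z) := by
        funext k
        rw [h3, ← ha]
        rfl
      have ha0 : (a : ℂ) ≠ 0 := a.ne_zero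
      have hQz := hp1 _ (Complex.exp_ne_zero z)
      unfold regf
      rw [h4, eval_scale hQ]
      simp only [mul_pow, Finset.prod_mul_distrib]
      rw [Finset.prod_pow_eq_pow_sum, hα, mul_div_mul_left _ _ (pow_ne_zero _ ha0),
        div_eq_iff hQz, mul_assoc, hqQ, mul_one]
    rw [h1]
    exact (expPrim_iter ((expPrim_prod hcoord α).mul hq)).1
  · refine ⟨Complex.log t, Complex.log u, fun h0 => hjk ?_⟩
    have h1 := hf (Complex.log t)
    have h2 := hf (Complex.log u)
    rw [← h0] at h2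
    rw [Complex.exp_log ht] at h1
    rw [Complex.exp_log hu] at h2
    exact ((rep_iff h1).1 h2).2 j k
  · intro t₁ ht₁ x hx
    refine ⟨Complex.log t₁, ?_⟩
    have h1 := hf (Complex.log t₁)
    rw [Complex.exp_log ht₁] at h1
    exact rep_eq h1 hx

end Pool.Agent.Y377.IL
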