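import Pool.Agent.Y377.IL.Cls

/-!
Rational curves from families.
-/

set_option autoImplicit false

namespace Pool.Agent.Y377.IL

open MvPolynomial Pool.Agent.Y377.EL

/-- two polynomials with vanishing Wronskian are proportional -/
theorem prop_of_wronskian {M : Type} [Field M] [CharZero M] {P Q : Polynomial M} (hQ : Q ≠ 0)
    (h : Polynomial.derivative P * Q = P * Polynomial.derivative Q) :
    ∃ c : M, P = Polynomial.C c * Q := by
  classical
  obtain ⟨p, q, hpq, hp, hq⟩ : ∃ p q : Polynomial M, IsCoprime p q ∧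
      P = p * gcd P Q ∧ Q = q * gcd P Q := by
    have hg : gcd P Q ≠ 0 := fun h0 => hQ ((gcd_eq_zero_iff P Q).1 h0).2
    obtain ⟨p, hp⟩ := gcd_dvd_left P Q
    obtain ⟨q, hq⟩ := gcd_dvd_right P Q
    refine ⟨p, q, ?_, by rw [mul_comm]; exact hp, by rw [mul_comm]; exact hq⟩
    rw [← gcd_isUnit_iff]
    have h1 : gcd (gcd P Q * p) (gcd P Q * q) = normalize (gcd P Q) * gcd p q := gcd_mul_left _ _ _
    rw [← hp, ← hq] at h1
    have h2 : gcd P Q * 1 = gcd P Q * gcd p q := by
      rw [mul_one]
      rw [normalize_gcd] at h1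
      exact h1
    rw [← mul_left_cancel₀ hg h2]
    exact isUnit_one
  set g := gcd P Q with hg
  have hg0 : g ≠ 0 := by
    intro h0
    apply hQ
    rw [hq, h0, mul_zero]
  have h1 : Polynomial.wronskian p q = 0 := by
    have h2 : g ^ 2 * (p * Polynomial.derivative q - Polynomial.derivative p * q) = 0 := by
      have h3 : Polynomial.derivative P = Polynomial.derivative p * g +
          p * Polynomial.derivative g := by
        conv_lhs => rw [hp]
        rw [Polynomial.derivative_mul]
      have h4 : Polynomial.derivative Q = Polynomial.derivative q * g +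
          q * Polynomial.derivative g := by
        conv_lhs => rw [hq]
        rw [Polynomial.derivative_mul]
      rw [h3, h4] at h
      have h5 : (Polynomial.derivative p * g + p * Polynomial.derivative g) * (q * g) =
          p * g * (Polynomial.derivative q * g + q * Polynomial.derivative g) := by
        rw [← hp, ← hq]
        exact h
      linear_combination -h5
    rcases mul_eq_zero.1 h2 with h3 | h3
    · exact absurd (pow_eq_zero_iff (two_ne_zero)|>.1 h3) hg0
    · exact h3
  obtain ⟨h2, h3⟩ := hpq.wronskian_eq_zero_iff.1 h1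
  have h4 := Polynomial.derivative_eq_zero.1 h2
  have h5 := Polynomial.derivative_eq_zero.1 h3
  rw [Polynomial.eq_C_of_natDegree_eq_zero h4] at hp
  rw [Polynomial.eq_C_of_natDegree_eq_zero h5] at hq
  have h6 : q.coeff 0 ≠ 0 := by
    intro h0
    rw [h0, map_zero, zero_mul] at hq
    exact hQ hq
  refine ⟨p.coeff 0 / q.coeff 0, ?_⟩
  rw [hp]
  conv_rhs => rw [hq]
  rw [← mul_assoc, ← Polynomial.C_mul, div_mul_cancel₀ _ h6]

/-- values of forms at proportional points -/
theorem form_scale {A : Type} [CommRing A] [Algebra ℂ A] {N d : ℕ}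
    {G : MvPolynomial (Fin (N + 1)) ℂ} (hG : G.IsHomogeneous d) (c : A) (x : Fin (N + 1) → A) :
    aeval (fun j => c * x j) G = c ^ d * aeval x G := by
  rw [aeval_def, aeval_def, eval₂_eq, eval₂_eq, Finset.mul_sum]
  refine Finset.sum_congr rfl fun m hm => ?_
  have h1 : ∑ i ∈ m.support, m i = d := by
    have h2 := hG (mem_support_iff.1 hm)
    rw [← h2, Finsupp.weight_apply, Finsupp.sum]
    simp
  simp only [mul_pow]
  rw [Finset.prod_mul_distrib, Finset.prod_pow_eq_pow_sum, h1]
  ring

/-- **Forms which vanish on all rational curves vanish on varieties covered by rational curves.** -/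
theorem RatFam.rc (hRC : S_RC) {K : Type} [Field K] [Algebra ℂ K] {N : ℕ}
    {I : Ideal (MvPolynomial (Fin (N + 1)) ℂ)}
    {G' : MvPolynomial (Fin (N + 1)) ℂ} (hG' : ∃ d, G'.IsHomogeneous d)
    (hcur : ∀ p : Fin (N + 1) → Polynomial ℂ,
      (∀ G ∈ I, (∃ d, G.IsHomogeneous d) → aeval p G = 0) →
      (∃ j k, Polynomial.derivative (p j) * p k ≠ p j * Polynomial.derivative (p k)) →
        aeval p G' = 0)
    {x : Fin (N + 1) → K} {l : Fin (N + 1)} (hl : x l ≠ 0) {S : Subalgebra ℂ K} {t : Finset K}
    (ht : ∀ j, x j / x l ∈ t) (ht' : ∀ a ∈ t, ∃ j, a = x j / x l) (hF : RatFam S t)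
    (hI : ∀ G ∈ I, (∃ d, G.IsHomogeneous d) → aeval x G = 0) : aeval x G' = 0 := by
  classical
  obtain ⟨S0, M, i1, i2, φ, -, h2, -, ⟨a, ha, hac⟩, -⟩ := hF
  have hM : CharZero M := charZero_of_injective_algebraMap (algebraMap ℂ M).injective
  let y : Fin (N + 1) → frac S0 := fun j => ⟨x j / x l, h2 _ (ht j)⟩
  obtain ⟨b, hb⟩ := IsLocalization.exist_integer_multiples (nonZeroDivisors (Polynomial M))
    Finset.univ (fun j => φ (y j))
  choose P hP using fun j => hb j (Finset.mem_univ j)
  have hb0 : (b : Polynomial M) ≠ 0 := nonZeroDivisors.ne_zero b.2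
  set q : RatFunc M := algebraMap (Polynomial M) (RatFunc M) b with hq
  have hq0 : q ≠ 0 := by
    rw [hq, Ne, map_eq_zero_iff _ (RatFunc.algebraMap_injective M)]
    exact hb0
  have hPq : ∀ j, algebraMap (Polynomial M) (RatFunc M) (P j) = q * φ (y j) := by
    intro j
    rw [hP j, Algebra.smul_def]
  have hyl : y l = 1 := Subtype.ext (div_self hl)
  have hPl : P l = b := by
    apply RatFunc.algebraMap_injective M
    rw [hPq, hyl, map_one, mul_one]
  -- values of forms
  have hval : ∀ (d : ℕ) (G : MvPolynomial (Fin (N + 1)) ℂ), G.IsHomogeneous d →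
      (aeval P G = 0 ↔ aeval x G = 0) := by
    intro d G hG
    have e1 : algebraMap (Polynomial M) (RatFunc M) (aeval P G) = q ^ d * φ (aeval y G) := by
      have e2 : algebraMap (Polynomial M) (RatFunc M) (aeval P G) =
          aeval (fun j => algebraMap (Polynomial M) (RatFunc M) (P j)) G := by
        have := MvPolynomial.comp_aeval_apply (f := P)
          (IsScalarTower.toAlgHom ℂ (Polynomial M) (RatFunc M)) G
        exact this
      rw [e2]
      have e3 : (fun j => algebraMap (Polynomial M) (RatFunc M) (P j)) =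
          fun j => q * (fun j => φ (y j)) j := funext hPq
      rw [e3, form_scale hG, MvPolynomial.comp_aeval_apply (f := y) φ G]
    have e4 : aeval x G = x l ^ d * aeval (fun j => x j / x l) G := by
      rw [← form_scale hG]
      congr 2
      funext j
      rw [mul_div_cancel₀ _ hl]
    have e5 : ((aeval y G : frac S0) : K) = aeval (fun j => x j / x l) G := by
      have := MvPolynomial.comp_aeval_apply (f := y) (frac S0).val G
      exact this
    rw [← map_eq_zero_iff _ (RatFunc.algebraMap_injective M), e1, mul_eq_zero,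
      or_iff_right (pow_ne_zero _ hq0), map_eq_zero_iff φ φ.injective, e4, mul_eq_zero,
      or_iff_right (pow_ne_zero _ hl), ← e5]
    exact Subtype.ext_iff
  obtain ⟨d', hd'⟩ := hG'
  rw [← hval d' G' hd']
  refine hRC N I G' ⟨d', hd'⟩ hcur M P (fun G hG hGh => ?_) ?_
  · obtain ⟨d, hd⟩ := hGh
    rw [hval d G hd]
    exact hI G hG ⟨d, hd⟩
  · obtain ⟨j, hj⟩ := ht' _ ha
    refine ⟨j, l, fun hw => ?_⟩
    obtain ⟨c, hc⟩ := prop_of_wronskian (by rw [hPl]; exact hb0) hw
    apply hac c
    have e6 : a = y j := Subtype.ext hj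
    rw [e6]
    have e7 := hPq j
    rw [hc, hPl, map_mul, ← hq] at e7
    have e8 : algebraMap (Polynomial M) (RatFunc M) (Polynomial.C c) =
        algebraMap M (RatFunc M) c := rfl
    rw [e8, mul_comm] at e7
    exact (mul_left_cancel₀ hq0 e7).symm

end Pool.Agent.Y377.IL
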