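import Pool.Agent.Y377.IL.AllC
import Pool.Agent.Y377.IL.SpB
import Pool.Agent.Y356.IL.Rcq
import Pool.Agent.Y988.IL.Logp
import Pool.Agent.Y814.IL.PF

/-!
Curves in complements of hypersurfaces given by iterated linear differential equations:
unconditional statements. The files of the fourth part are due to helpers 356, 988, 814 and 405.
-/

set_option autoImplicit false

namespace Pool.Agent.Y377.IL

open Set Filter Topology MvPolynomial
open scoped LinearAlgebra.Projectivization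
open Pool.Agent.TH143.EL (TrOne HolMap Rep InV)
open Pool.Agent.TH143.GT (FunField)
open Pool.Agent.W602.GT (IsForm LogGeneralType)
open Pool.Agent.W603.GR (OffQ)

variable {N : ℕ} {Q : MvPolynomial (Fin (N + 1)) ℂ} {d : ℕ} {B : Subalgebra ℂ (ℂ → ℂ)}
  {f : ℂ → ℙ ℂ (Fin (N + 1) → ℂ)}

theorem log_family (hd : 0 < d) (hQ : Q.IsHomogeneous d) (hB : DB B) (hf : HolMap f)
    (hX : ∀ z, eval (f z).rep Q ≠ 0)
    (hl : ∀ α : Fin (N + 1) →₀ ℕ, ∑ j, α j = d → IterLin B (regf Q α f)) :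
    AlgebraicOver B f ∨
      ∃ (M : Type) (_ : Field M) (_ : Algebra ℂ M) (P : Fin (N + 1) → Polynomial M),
        (∀ G : MvPolynomial (Fin (N + 1)) ℂ, (∃ e, G.IsHomogeneous e) →
          (aeval P G = 0 ↔ ∀ z, eval (f z).rep G = 0)) ∧
        (∃ (c : M) (k : ℕ), c ≠ 0 ∧ aeval P Q = Polynomial.C c * Polynomial.X ^ k) ∧
        ∃ j k, Polynomial.derivative (P j) * P k ≠ P j * Polynomial.derivative (P k) :=
  log_main hyp Pool.Agent.Y564.IL.t_TAY Pool.Agent.Y954.IL.t_FML Pool.Agent.Y884.IL.t_FRC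
    Pool.Agent.Y125.IL.t_RT Pool.Agent.Y988.IL.t_LOGP Pool.Agent.Y814.IL.t_PF hd hQ hB hf hX hl

theorem log_cover {I : Ideal (MvPolynomial (Fin (N + 1)) ℂ)} (hd : 0 < d)
    (hQ : Q.IsHomogeneous d) (hB : DB B) (hf : HolMap f) (hI : ∀ z, InV I (f z))
    (hX : ∀ z, eval (f z).rep Q ≠ 0)
    (hl : ∀ α : Fin (N + 1) →₀ ℕ, ∑ j, α j = d → IterLin B (regf Q α f)) :
    AlgebraicOver B f ∨ ∀ G : MvPolynomial (Fin (N + 1)) ℂ, (∃ e, G.IsHomogeneous e) →
      (∀ p : Fin (N + 1) → Polynomial ℂ, GmCurve I Q p → ∀ t, t ≠ 0 →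
        eval (fun j => (p j).eval t) G = 0) → ∀ z, eval (f z).rep G = 0 :=
  log_gm hyp Pool.Agent.Y564.IL.t_TAY Pool.Agent.Y954.IL.t_FML Pool.Agent.Y884.IL.t_FRC
    Pool.Agent.Y125.IL.t_RT Pool.Agent.Y988.IL.t_LOGP Pool.Agent.Y814.IL.t_PF
    Pool.Agent.Y356.IL.t_RCQ hd hQ hB hf hI hX hl

theorem alg_const (hf : HolMap f) (ha : AlgebraicOver ⊥ f) : ∀ z w, f z = f w :=
  ha.const Pool.Agent.Y564.IL.t_TAY Pool.Agent.Y125.IL.t_RT hf

end Pool.Agent.Y377.IL
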