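import Pool.Agent.Y377.IL.AllD
import Pool.Agent.Y405.IL.Lgt

/-!
Curves in complements of hypersurfaces given by iterated linear differential equations:
logarithmic general type. The file `Y405/IL/Lgt` is due to helper 405.
-/

set_option autoImplicit false

namespace Pool.Agent.Y377.IL

open Set Filter Topology MvPolynomial
open scoped LinearAlgebra.Projectivization
open Pool.Agent.TH143.EL (TrOne HolMap Rep InV)
open Pool.Agent.TH143.GT (FunField)
open Pool.Agent.W602.GT (IsForm LogGeneralType)
open Pool.Agent.W603.GR (OffQ)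

variable {N : ℕ} {Q : MvPolynomial (Fin (N + 1)) ℂ} {d : ℕ} {B : Subalgebra ℂ (ℂ → ℂ)}
  {f : ℂ → ℙ ℂ (Fin (N + 1) → ℂ)}

/-- varieties with a dense curve of this kind are not of logarithmic general type, or the curve is
algebraic over the base -/
theorem log_not_gt {p : Ideal (MvPolynomial (Fin (N + 1)) ℂ)} {K : Type} [Field K] [Algebra ℂ K]
    {w : ℕ} {y : Fin (N + 1) → K} (hy : FunField p Q K w y) (hd : 0 < d)
    (hQ : Q.IsHomogeneous d) (hB : DB B) (hf : HolMap f) (hI : ∀ z, InV p (f z))
    (hX : ∀ z, eval (f z).rep Q ≠ 0)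
    (hl : ∀ α : Fin (N + 1) →₀ ℕ, ∑ j, α j = d → IterLin B (regf Q α f)) (hden : Dense p f) :
    AlgebraicOver B f ∨ ¬ LogGeneralType ℂ K w (OffQ Q d y) := by
  rcases log_family hd hQ hB hf hX hl with h1 | ⟨M, i1, i2, P, h1, h2, h3⟩
  · exact Or.inl h1
  · right
    refine Pool.Agent.Y405.IL.t_LGT N p Q d K w y hQ hy M P (fun G hG => ?_) h2 h3
    constructor
    · intro h0
      rw [h1 G hG]
      exact fun z => hI z G (hy.mem G hG h0) hG
    · intro h0
      exact hy.sub.mem G (hden G hG ((h1 G hG).1 h0))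

end Pool.Agent.Y377.IL
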