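import Pool.Agent.Y377.EL.Tower

/-!
Differentially simple rings.
-/

set_option autoImplicit false

namespace Pool.Agent.Y377.IL

open Pool.Agent.Y377.EL

variable {K : Type} [Field K] [Algebra ℂ K]

/-- stable under the derivation -/
def Stab (D : Derivation ℂ K K) (R : Subalgebra ℂ K) : Prop := ∀ x ∈ R, D x ∈ R

/-- no proper nonzero differential ideals -/
def DSimple (D : Derivation ℂ K K) (R : Subalgebra ℂ K) : Prop :=
  ∀ I : Submodule R K, (∀ x ∈ I, x ∈ R) → (∀ x ∈ I, D x ∈ I) → (∃ x ∈ I, x ≠ 0) → (1 : K) ∈ I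

/-- the fraction field -/
noncomputable def frac (R : Subalgebra ℂ K) : IntermediateField ℂ K where
  carrier := {x | ∃ r ∈ R, r ≠ 0 ∧ r * x ∈ R}
  mul_mem' := by
    rintro x y ⟨r, hr, hr0, hx⟩ ⟨s, hs, hs0, hy⟩
    refine ⟨r * s, R.mul_mem hr hs, mul_ne_zero hr0 hs0, ?_⟩
    have : r * s * (x * y) = (r * x) * (s * y) := by ring
    rw [this]
    exact R.mul_mem hx hy
  add_mem' := by
    rintro x y ⟨r, hr, hr0, hx⟩ ⟨s, hs, hs0, hy⟩
    refine ⟨r * s, R.mul_mem hr hs, mul_ne_zero hr0 hs0, ?_⟩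
    have : r * s * (x + y) = s * (r * x) + r * (s * y) := by ring
    rw [this]
    exact R.add_mem (R.mul_mem hs hx) (R.mul_mem hr hy)
  algebraMap_mem' := fun c => ⟨1, R.one_mem, one_ne_zero, by
    rw [one_mul]
    exact R.algebraMap_mem c⟩
  inv_mem' := by
    rintro x ⟨r, hr, hr0, hx⟩
    by_cases hx0 : x = 0
    · rw [hx0, inv_zero]
      exact ⟨1, R.one_mem, one_ne_zero, by
        rw [mul_zero]
        exact R.zero_mem⟩
    · refine ⟨r * x, hx, mul_ne_zero hr0 hx0, ?_⟩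
      rw [mul_assoc, mul_inv_cancel₀ hx0, mul_one]
      exact hr

theorem mem_frac {R : Subalgebra ℂ K} {x : K} : x ∈ frac R ↔ ∃ r ∈ R, r ≠ 0 ∧ r * x ∈ R := Iff.rfl

theorem le_frac (R : Subalgebra ℂ K) {x : K} (hx : x ∈ R) : x ∈ frac R :=
  ⟨1, R.one_mem, one_ne_zero, by rwa [one_mul]⟩

theorem frac_mono {R S : Subalgebra ℂ K} (h : R ≤ S) {x : K} (hx : x ∈ frac R) : x ∈ frac S := by
  obtain ⟨r, hr, hr0, hx⟩ := hx
  exact ⟨r, h hr, hr0, h hx⟩

/-- the localization of `S` at the nonzero elements of `R` -/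
noncomputable def loc (R S : Subalgebra ℂ K) (h : R ≤ S) : Subalgebra ℂ K where
  carrier := {x | ∃ r ∈ R, r ≠ 0 ∧ r * x ∈ S}
  mul_mem' := by
    rintro x y ⟨r, hr, hr0, hx⟩ ⟨s, hs, hs0, hy⟩
    refine ⟨r * s, R.mul_mem hr hs, mul_ne_zero hr0 hs0, ?_⟩
    have : r * s * (x * y) = (r * x) * (s * y) := by ring
    rw [this]
    exact S.mul_mem hx hy
  add_mem' := by
    rintro x y ⟨r, hr, hr0, hx⟩ ⟨s, hs, hs0, hy⟩
    refine ⟨r * s, R.mul_mem hr hs, mul_ne_zero hr0 hs0, ?_⟩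
    have : r * s * (x + y) = s * (r * x) + r * (s * y) := by ring
    rw [this]
    exact S.add_mem (S.mul_mem (h hs) hx) (S.mul_mem (h hr) hy)
  algebraMap_mem' := fun c => ⟨1, R.one_mem, one_ne_zero, by
    rw [one_mul]
    exact S.algebraMap_mem c⟩

theorem mem_loc {R S : Subalgebra ℂ K} {h : R ≤ S} {x : K} :
    x ∈ loc R S h ↔ ∃ r ∈ R, r ≠ 0 ∧ r * x ∈ S := Iff.rfl

theorem le_loc {R S : Subalgebra ℂ K} (h : R ≤ S) : S ≤ loc R S h := fun x hx =>
  ⟨1, R.one_mem, one_ne_zero, by rwa [one_mul]⟩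

theorem frac_le_loc {R S : Subalgebra ℂ K} (h : R ≤ S) {x : K} (hx : x ∈ frac R) :
    x ∈ loc R S h := by
  obtain ⟨r, hr, hr0, hx⟩ := hx
  exact ⟨r, hr, hr0, h hx⟩

theorem stab_frac {D : Derivation ℂ K K} {R : Subalgebra ℂ K} (h : Stab D R) {x : K}
    (hx : x ∈ frac R) : D x ∈ frac R := by
  obtain ⟨r, hr, hr0, hx⟩ := hx
  refine ⟨r * r, R.mul_mem hr hr, mul_ne_zero hr0 hr0, ?_⟩
  have h1 := h _ hx
  rw [D.leibniz] at h1
  simp only [smul_eq_mul] at h1
  have h2 : r * r * D x = r * (r * D x + x * D r) - (r * x) * D r := by ring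
  rw [h2]
  exact R.sub_mem (R.mul_mem hr h1) (R.mul_mem hx (h _ hr))

theorem stab_loc {D : Derivation ℂ K K} {R S : Subalgebra ℂ K} (hRS : R ≤ S) (hR : Stab D R)
    (hS : Stab D S) : Stab D (loc R S hRS) := by
  rintro x ⟨r, hr, hr0, hx⟩
  refine ⟨r * r, R.mul_mem hr hr, mul_ne_zero hr0 hr0, ?_⟩
  have h1 := hS _ hx
  rw [D.leibniz] at h1
  simp only [smul_eq_mul] at h1
  have h2 : r * r * D x = r * (r * D x + x * D r) - (r * x) * D r := by ring
  rw [h2]
  exact S.sub_mem (S.mul_mem (hRS hr) h1) (S.mul_mem hx (hRS (hR _ hr)))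

/-- **finitely generated differential modules over a differentially simple ring** -/
theorem DSimple.le {D : Derivation ℂ K K} {R : Subalgebra ℂ K} (h : DSimple D R)
    {N N' : Submodule R K} (hN : ∀ x ∈ N, D x ∈ N)
    (hN' : ∀ x ∈ N', D x ∈ N') (hfg : N.FG) (ht : ∀ x ∈ N, ∃ r ∈ R, r ≠ 0 ∧ r * x ∈ N')
    (hR : Stab D R) : N ≤ N' := by
  classical
  let I : Submodule R K :=
    { carrier := {r | r ∈ R ∧ ∀ x ∈ N, r * x ∈ N'}
      add_mem' := by
        rintro a b ⟨ha, ha'⟩ ⟨hb, hb'⟩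
        refine ⟨R.add_mem ha hb, fun x hx => ?_⟩
        rw [add_mul]
        exact N'.add_mem (ha' x hx) (hb' x hx)
      zero_mem' := ⟨R.zero_mem, fun x _ => by
        rw [zero_mul]
        exact N'.zero_mem⟩
      smul_mem' := by
        rintro c a ⟨ha, ha'⟩
        refine ⟨R.mul_mem c.2 ha, fun x hx => ?_⟩
        have h1 := N'.smul_mem c (ha' x hx)
        rw [Algebra.smul_def] at h1 ⊢
        rw [mul_assoc]
        exact h1 }
  have h1 : (1 : K) ∈ I := by
    apply h I (fun x hx => hx.1)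
    · rintro r ⟨hr, hr'⟩
      refine ⟨hR r hr, fun x hx => ?_⟩
      have h2 : D r * x = D (r * x) - r * D x := by
        rw [D.leibniz]
        simp only [smul_eq_mul]
        ring
      rw [h2]
      exact N'.sub_mem (hN' _ (hr' x hx)) (hr' _ (hN x hx))
    · obtain ⟨T, hT⟩ := hfg
      have h2 : ∀ x ∈ T, ∃ r ∈ R, r ≠ 0 ∧ r * x ∈ N' := fun x hx =>
        ht x (hT ▸ Submodule.subset_span hx)
      choose! ρ hρ1 hρ2 hρ3 using h2
      refine ⟨∏ x ∈ T, ρ x, ⟨R.prod_mem hρ1, ?_⟩, Finset.prod_ne_zero_iff.2 hρ2⟩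
      intro x hx
      rw [← hT] at hx
      refine Submodule.span_induction (p := fun x _ => (∏ x ∈ T, ρ x) * x ∈ N') ?_ ?_ ?_ ?_ hx
      · intro y hy
        rw [← Finset.prod_erase_mul T ρ hy, mul_assoc]
        have h3 : ∏ x ∈ T.erase y, ρ x ∈ R :=
          R.prod_mem fun z hz => hρ1 z (Finset.mem_of_mem_erase hz)
        have h4 := N'.smul_mem (⟨_, h3⟩ : R) (hρ3 y hy)
        rw [Algebra.smul_def] at h4
        exact h4
      · rw [mul_zero]
        exact N'.zero_mem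
      · intro y z _ _ hy hz
        rw [mul_add]
        exact N'.add_mem hy hz
      · intro c y _ hy
        have h3 := N'.smul_mem c hy
        rw [Algebra.smul_def] at h3 ⊢
        rw [mul_left_comm]
        exact h3
  intro x hx
  have h2 := h1.2 x hx
  rwa [one_mul] at h2

/-- localizations of differentially simple rings -/
theorem DSimple.loc {D : Derivation ℂ K K} {R S : Subalgebra ℂ K} (hRS : R ≤ S)
    (h : DSimple D S) (hst : Stab D S) : DSimple D (loc R S hRS) := by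
  intro I hI hD ⟨x, hx, hx0⟩
  let J : Submodule S K :=
    { carrier := {y | y ∈ S ∧ y ∈ I}
      add_mem' := fun ha hb => ⟨S.add_mem ha.1 hb.1, I.add_mem ha.2 hb.2⟩
      zero_mem' := ⟨S.zero_mem, I.zero_mem⟩
      smul_mem' := by
        rintro c a ⟨ha, ha'⟩
        refine ⟨S.mul_mem c.2 ha, ?_⟩
        exact I.smul_mem (⟨c, le_loc hRS c.2⟩ : IL.loc R S hRS) ha' }
  obtain ⟨r, hr, hr0, hrx⟩ := hI x hx
  exact (h J (fun y hy => hy.1) (fun y hy => ⟨hst y hy.1, hD y hy.2⟩)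
    ⟨r * x, ⟨hrx, I.smul_mem (⟨r, le_loc hRS (hRS hr)⟩ : IL.loc R S hRS) hx⟩,
      mul_ne_zero hr0 hx0⟩).2

/-- an ideal with a nonzero algebraic element contains a nonzero element of the base -/
theorem exists_base {R : Subalgebra ℂ K} {s : K} (hs : IsAlgebraic R s) (hs0 : s ≠ 0) :
    ∃ c ∈ R, c ≠ 0 ∧ ∃ P : Polynomial R, c = s * Polynomial.aeval s P := by
  obtain ⟨P, hP0, hP, hd, hmin⟩ := exists_min hs
  have hX : Polynomial.divX P * Polynomial.X + Polynomial.C (P.coeff 0) = P :=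
    Polynomial.divX_mul_X_add P
  have h1 : Polynomial.aeval s (Polynomial.divX P) * s + (P.coeff 0 : K) = 0 := by
    have h2 := congrArg (Polynomial.aeval s) hX
    rw [hP, map_add, map_mul, Polynomial.aeval_X, Polynomial.aeval_C] at h2
    exact h2
  refine ⟨P.coeff 0, (P.coeff 0).2, ?_, -Polynomial.divX P, ?_⟩
  · intro h0
    have h2 : Polynomial.X ∣ P := Polynomial.X_dvd_iff.2 (Subtype.ext h0)
    obtain ⟨Q, hQ2⟩ := h2
    have h3 : Polynomial.aeval s Q = 0 := by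
      rw [hQ2, map_mul, Polynomial.aeval_X] at hP
      exact (mul_eq_zero.1 hP).resolve_left hs0
    have h4 : Q = 0 := by
      apply hmin Q h3
      intro n hn
      have h5 : P.coeff (n + 1) = Q.coeff n := by rw [hQ2, Polynomial.coeff_X_mul]
      rw [← h5]
      exact Polynomial.coeff_eq_zero_of_natDegree_lt (by omega)
    rw [h4, mul_zero] at hQ2
    exact hP0 hQ2
  · rw [map_neg]
    linear_combination h1

/-- algebraic extensions of differentially simple rings -/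
theorem DSimple.alg {D : Derivation ℂ K K} {R S : Subalgebra ℂ K} (hRS : R ≤ S)
    (h : DSimple D R) (hR : Stab D R) (hS : ∀ x ∈ S, IsAlgebraic R x) : DSimple D S := by
  intro I hI hD ⟨x, hx, hx0⟩
  obtain ⟨c, hc, hc0, P, hP⟩ := exists_base (hS x (hI x hx)) hx0
  let J : Submodule R K :=
    { carrier := {y | y ∈ R ∧ y ∈ I}
      add_mem' := fun ha hb => ⟨R.add_mem ha.1 hb.1, I.add_mem ha.2 hb.2⟩
      zero_mem' := ⟨R.zero_mem, I.zero_mem⟩
      smul_mem' := by
        rintro c a ⟨ha, ha'⟩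
        refine ⟨R.mul_mem c.2 ha, ?_⟩
        exact I.smul_mem (⟨c, hRS c.2⟩ : S) ha' }
  refine (h J (fun y hy => hy.1) (fun y hy => ⟨hR y hy.1, hD y hy.2⟩) ⟨c, ⟨hc, ?_⟩, hc0⟩).2
  have h1 : Polynomial.aeval x P ∈ S := by
    rw [Polynomial.aeval_eq_sum_range]
    refine S.sum_mem fun i _ => ?_
    rw [Algebra.smul_def]
    exact S.mul_mem (hRS (P.coeff i).2) (S.pow_mem (hI x hx) i)
  rw [hP, mul_comm]
  exact I.smul_mem (⟨_, h1⟩ : S) hx

theorem dSimple_bot (D : Derivation ℂ K K) : DSimple D (⊥ : Subalgebra ℂ K) := by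
  intro I hI _ ⟨x, hx, hx0⟩
  obtain ⟨c, hc⟩ := Algebra.mem_bot.1 (hI x hx)
  have hinv : x⁻¹ ∈ (⊥ : Subalgebra ℂ K) := by
    rw [← hc, ← map_inv₀]
    exact Subalgebra.algebraMap_mem _ _
  have h1 := I.smul_mem (⟨x⁻¹, hinv⟩ : (⊥ : Subalgebra ℂ K)) hx
  rw [Algebra.smul_def] at h1
  have h2 : x⁻¹ * x ∈ I := h1
  rwa [inv_mul_cancel₀ hx0] at h2

/-- **Elements of the fraction field with a finitely generated differential module.** -/
theorem DSimple.mem_of_fg {D : Derivation ℂ K K} {R : Subalgebra ℂ K} (h : DSimple D R)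
    (hR : Stab D R) {N : Submodule R K} (hN : ∀ x ∈ N, D x ∈ N) (hfg : N.FG)
    (ht : ∀ x ∈ N, x ∈ frac R) {x : K} (hx : x ∈ N) : x ∈ R := by
  let N' : Submodule R K :=
    { carrier := {y | y ∈ R}
      add_mem' := fun ha hb => R.add_mem ha hb
      zero_mem' := R.zero_mem
      smul_mem' := fun c a ha => R.mul_mem c.2 ha }
  exact h.le (N' := N') hN (fun y hy => hR y hy) hfg (fun y hy => ht y hy) hR hx

end Pool.Agent.Y377.IL
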