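import Pool.Agent.Y377.IL.Asm
import Pool.Agent.Y377.EL.Main

/-!
Entire functions generated by linear differential equations.
-/

set_option autoImplicit false

namespace Pool.Agent.Y377.IL

open Set Pool.Agent.Y377.EL Pool.Agent.TH143

/-- The smallest set of entire functions which contains the constants and is closed under sums,
products and solutions of linear systems `y' = A y` with coefficients `A` in the set. -/
inductive LinODE : (ℂ → ℂ) → Prop
  | const (c : ℂ) : LinODE fun _ => c
  | add {f g : ℂ → ℂ} : LinODE f → LinODE g → LinODE fun z => f z + g z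
  | mul {f g : ℂ → ℂ} : LinODE f → LinODE g → LinODE fun z => f z * g z
  | ode {n : ℕ} (A : Fin n → Fin n → ℂ → ℂ) (y : Fin n → ℂ → ℂ) :
      (∀ i j, LinODE (A i j)) → (∀ i z, HasDerivAt (y i) (∑ j, A i j z * y j z) z) →
        ∀ i, LinODE (y i)

theorem LinODE.diff {f : ℂ → ℂ} (h : LinODE f) : Differentiable ℂ f := by
  induction h with
  | const c => exact differentiable_const c
  | add _ _ h1 h2 => exact h1.add h2
  | mul _ _ h1 h2 => exact h1.mul h2
  | ode A y _ h2 i _ => exact fun z => (h2 i z).differentiableAt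

theorem an_of_diff {f : ℂ → ℂ} (h : Differentiable ℂ f) : AnalyticOnNhd ℂ f univ :=
  fun z _ => h.analyticAt z

/-- all statements of the algebraic part -/
structure Hyp : Prop where
  noe : S_NOE
  rng : S_RNG
  fa : S_FA
  fb : S_FB
  fr : S_FR
  der : S_DER
  ge : S_GE
  sp : S_SP
  com : S_COM
  apn : S_APN
  ape : S_APE
  cn : S_CN
  ce : S_CE
  fund : S_FUND

theorem Hyp.main (h : Hyp) {K : Type} [Field K] [Algebra ℂ K] {D : Derivation ℂ K K}
    (hC : Cst D) {R0 R : Subalgebra ℂ K} (h0 : GoodB D R0) (hR : LTow D R0 R) {t : Finset K}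
    (ht : ∀ x ∈ t, x ∈ frac R) (hne : ∃ x ∈ t, ¬ IsAlgebraic R0 x) : RatFam R t :=
  hR.main h.noe h.rng h.fa h.fb h.fr h.der h.ge h.sp h.com h.apn h.ape h.cn h.ce hC h0 R le_rfl
    (hR.good h.noe h.rng hC h0).st (fgmod_self R) t ht hne

section amb

variable {K : Type} [Field K] [Algebra ℂ K] {D : Derivation ℂ K K}
  {A : Subalgebra ℂ K} {i : Hol univ →ₐ[ℂ] K}

/-- the element of the field given by an entire function -/
noncomputable def el (i : Hol univ →ₐ[ℂ] K) {f : ℂ → ℂ} (h : Differentiable ℂ f) : K :=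
  i (toHol f (an_of_diff h))

theorem el_add (i : Hol univ →ₐ[ℂ] K) {f g : ℂ → ℂ} (hf : Differentiable ℂ f)
    (hg : Differentiable ℂ g) (h : Differentiable ℂ fun z => f z + g z) :
    el i h = el i hf + el i hg := by
  unfold el
  rw [← map_add]
  rfl

theorem el_mul (i : Hol univ →ₐ[ℂ] K) {f g : ℂ → ℂ} (hf : Differentiable ℂ f)
    (hg : Differentiable ℂ g) (h : Differentiable ℂ fun z => f z * g z) :
    el i h = el i hf * el i hg := by
  unfold el
  rw [← map_mul]
  rfl

theorem el_const (i : Hol univ →ₐ[ℂ] K) (c : ℂ) (h : Differentiable ℂ fun _ : ℂ => c) :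
    el i h = algebraMap ℂ K c := by
  unfold el
  rw [← i.commutes]
  rfl

theorem el_sum (i : Hol univ →ₐ[ℂ] K) {ι : Type} (s : Finset ι) {f : ι → ℂ → ℂ}
    (hf : ∀ j, Differentiable ℂ (f j)) (h : Differentiable ℂ fun z => ∑ j ∈ s, f j z) :
    el i h = ∑ j ∈ s, el i (hf j) := by
  classical
  induction s using Finset.induction_on with
  | empty =>
    have h1 := el_const i 0 (differentiable_const 0)
    rw [map_zero] at h1
    rw [Finset.sum_empty, ← h1]
    rfl
  | insert a s ha ih =>
    have h1 : Differentiable ℂ fun z => ∑ j ∈ s, f j z := by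
      have := Differentiable.fun_sum (u := s) (A := f) (fun j _ => hf j)
      exact this
    rw [Finset.sum_insert ha, ← ih h1, ← el_add i (hf a) h1 ((hf a).add h1)]
    unfold el
    congr 1
    apply hol_ext
    intro z
    rw [evz_toHol, evz_toHol, Finset.sum_insert ha]

theorem el_congr (i : Hol univ →ₐ[ℂ] K) {f g : ℂ → ℂ} (hf : Differentiable ℂ f)
    (hg : Differentiable ℂ g) (h : ∀ z, f z = g z) : el i hf = el i hg := by
  unfold el
  congr 1
  apply hol_ext
  intro z
  rw [evz_toHol, evz_toHol, h]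

theorem der_el (h : Amb univ K D A i) {f g : ℂ → ℂ} (hf : Differentiable ℂ f)
    (hg : Differentiable ℂ g) (hd : ∀ z, HasDerivAt f (g z) z) : D (el i hf) = el i hg :=
  h.der g f (an_of_diff hg) (an_of_diff hf) fun z _ => hd z

/-- finitely many elements can be adjoined one after another -/
theorem ext_family {R0 : Subalgebra ℂ K} {P : K → Prop}
    (hP : ∀ x, P x → ∀ R, LTow D R0 R → ∃ R', R ≤ R' ∧ LTow D R0 R' ∧
    x ∈ R') {ι : Type} [Finite ι] {x : ι → K} (hx : ∀ j, P (x j)) (R : Subalgebra ℂ K)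
    (hR : LTow D R0 R) : ∃ R', R ≤ R' ∧ LTow D R0 R' ∧ ∀ j, x j ∈ R' := by
  classical
  obtain ⟨_⟩ := nonempty_fintype ι
  have key : ∀ s : Finset ι, ∃ R', R ≤ R' ∧ LTow D R0 R' ∧ ∀ j ∈ s, x j ∈ R' := by
    intro s
    induction s using Finset.induction_on with
    | empty => exact ⟨R, le_rfl, hR, fun j hj => absurd hj (Finset.notMem_empty j)⟩
    | insert a s _ ih =>
      obtain ⟨R1, h1, h2, h3⟩ := ih
      obtain ⟨R2, h4, h5, h6⟩ := hP (x a) (hx a) R1 h2
      refine ⟨R2, h1.trans h4, h5, fun j hj => ?_⟩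
      rcases Finset.mem_insert.1 hj with rfl | hj
      · exact h6
      · exact h4 (h3 j hj)
  obtain ⟨R', h1, h2, h3⟩ := key Finset.univ
  exact ⟨R', h1, h2, fun j => h3 j (Finset.mem_univ j)⟩

theorem LinODE.tow (hFUND : S_FUND) (h : Amb univ K D A i) {f : ℂ → ℂ} (hf : LinODE f) :
    ∀ R, LTow D ⊥ R → ∃ R', R ≤ R' ∧ LTow D ⊥ R' ∧ el i hf.diff ∈ R' := by
  induction hf with
  | const c =>
    intro R hR
    refine ⟨R, le_rfl, hR, ?_⟩
    rw [el_const]
    exact R.algebraMap_mem c
  | @add f g h1 h2 ih1 ih2 =>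
    intro R hR
    obtain ⟨R1, l1, t1, m1⟩ := ih1 R hR
    obtain ⟨R2, l2, t2, m2⟩ := ih2 R1 t1
    refine ⟨R2, l1.trans l2, t2, ?_⟩
    rw [el_add i h1.diff h2.diff]
    exact R2.add_mem (l2 m1) m2
  | @mul f g h1 h2 ih1 ih2 =>
    intro R hR
    obtain ⟨R1, l1, t1, m1⟩ := ih1 R hR
    obtain ⟨R2, l2, t2, m2⟩ := ih2 R1 t1
    refine ⟨R2, l1.trans l2, t2, ?_⟩
    rw [el_mul i h1.diff h2.diff]
    exact R2.mul_mem (l2 m1) m2
  | @ode n B y h1 h2 j0 ih =>
    intro R hR
    -- the coefficients
    obtain ⟨R1, l1, t1, m1⟩ : ∃ R', R ≤ R' ∧ LTow D ⊥ R' ∧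
        ∀ p : Fin n × Fin n, el i (h1 p.1 p.2).diff ∈ R' :=
      ext_family (P := fun x => ∃ p : Fin n × Fin n, x = el i (h1 p.1 p.2).diff)
        (by
          rintro _ ⟨p, rfl⟩
          exact ih p.1 p.2) (fun p => ⟨p, rfl⟩) R hR
    obtain ⟨X, Y, hX, hY, hXY, hdX, hsol⟩ := hFUND n B fun a b => (h1 a b).diff
    have hy : ∀ a, Differentiable ℂ (y a) := fun a z => (h2 a z).differentiableAt
    obtain ⟨c, hc⟩ := hsol y hy fun a z => (h2 a z).deriv
    let x : Matrix (Fin n) (Fin n) K := fun a b => el i (hX a b)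
    let v : Matrix (Fin n) (Fin n) K := fun a b => el i (hY a b)
    let m : Matrix (Fin n) (Fin n) K := fun a b => el i (h1 a b).diff
    have hF : Fund D R1 x v m := by
      refine ⟨?_, fun a b => m1 (a, b), ?_⟩
      · ext a b
        rw [Matrix.mul_apply, Matrix.one_apply]
        have e1 : ∀ k, Differentiable ℂ fun z => X a k z * Y k b z := fun k =>
          (hX a k).mul (hY k b)
        have e2 : Differentiable ℂ fun z => ∑ k, X a k z * Y k b z :=
          Differentiable.fun_sum fun k _ => e1 k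
        have e3 : ∑ k, x a k * v k b = el i e2 := by
          rw [el_sum i Finset.univ e1 e2]
          refine Finset.sum_congr rfl fun k _ => ?_
          rw [el_mul i (hX a k) (hY k b)]
        rw [e3]
        by_cases hab : a = b
        · rw [if_pos hab, ← map_one (algebraMap ℂ K), ← el_const i 1 (differentiable_const 1)]
          exact el_congr i _ _ fun z => by rw [hXY, if_pos hab]
        · rw [if_neg hab, ← map_zero (algebraMap ℂ K), ← el_const i 0 (differentiable_const 0)]
          exact el_congr i _ _ fun z => by rw [hXY, if_neg hab]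
      · intro a b
        have e1 : ∀ k, Differentiable ℂ fun z => B a k z * X k b z := fun k =>
          (h1 a k).diff.mul (hX k b)
        have e2 : Differentiable ℂ fun z => ∑ k, B a k z * X k b z :=
          Differentiable.fun_sum fun k _ => e1 k
        have e3 : ∑ k, m a k * x k b = el i e2 := by
          rw [el_sum i Finset.univ e1 e2]
          refine Finset.sum_congr rfl fun k _ => ?_
          rw [el_mul i (h1 a k).diff (hX k b)]
        rw [e3]
        exact der_el h (hX a b) e2 fun z => by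
          have e4 := ((hX a b) z).hasDerivAt
          rw [hdX] at e4
          exact e4
    refine ⟨mat R1 x v, l1.trans (le_mat R1 x v), LTow.step t1 hF, ?_⟩
    have e1 : ∀ k, Differentiable ℂ fun z => X j0 k z * c k := fun k =>
      (hX j0 k).mul (differentiable_const _)
    have e2 : Differentiable ℂ fun z => ∑ k, X j0 k z * c k :=
      Differentiable.fun_sum fun k _ => e1 k
    have e3 : el i (LinODE.ode B y h1 h2 j0).diff = ∑ k, x j0 k * algebraMap ℂ K (c k) := by
      rw [el_congr i _ e2 (hc j0), el_sum i Finset.univ e1 e2]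
      refine Finset.sum_congr rfl fun k _ => ?_
      rw [el_mul i (hX j0 k) (differentiable_const _), el_const]
    rw [e3]
    exact (mat R1 x v).sum_mem fun k _ => (mat R1 x v).mul_mem (mem_mat_left R1 x v j0 k)
      ((mat R1 x v).algebraMap_mem _)

/-- finitely many functions of the class lie in a tower -/
theorem LinODE.family (hFUND : S_FUND) (h : Amb univ K D A i) {N : ℕ} {f : Fin N → ℂ → ℂ}
    (hf : ∀ j, LinODE (f j)) : ∃ R, LTow D ⊥ R ∧ ∀ j, el i (hf j).diff ∈ R := by
  obtain ⟨R', -, h2, h3⟩ := ext_family (P := fun x => ∃ j, x = el i (hf j).diff)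
    (by
      rintro _ ⟨j, rfl⟩
      exact (hf j).tow hFUND h) (fun j => ⟨j, rfl⟩) ⊥ LTow.base
  exact ⟨R', h2, h3⟩

end amb

end Pool.Agent.Y377.IL
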