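import Pool.Agent.TH143.GT.Kod
import Pool.Agent.Y377.IL.Stm

/-!
Statements of the project IL (iterated linear differential equations): pluricanonical forms.
-/

set_option autoImplicit false

namespace Pool.Agent.Y377.IL

open MvPolynomial Pool.Agent.W602.GT Pool.Agent.TH143.GT

/-- varieties which are covered by rational curves have no pluricanonical forms -/
def S_PL : Prop := ∀ (n : ℕ) (p : Ideal (MvPolynomial (Fin (n + 1)) ℂ)) (K : Type) [Field K]
  [Algebra ℂ K] (w : ℕ) (y : Fin (n + 1) → K), FunField p 1 K w y → 0 < w → Covered K →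
    ∀ N, 0 < N → ∀ ω : (Fin w → Derivation ℂ K K) → K, Pluricanonical w N ω → ω = 0

end Pool.Agent.Y377.IL
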