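import Pool.Agent.Y377.IL.StmA

/-!
Statements of the project IL, third part.
-/

set_option autoImplicit false

namespace Pool.Agent.Y377.IL

open Pool.Agent.Y377.EL MvPolynomial Filter

/-- algebraic dependence is preserved by algebraic extensions of transcendence degree one -/
def S_TR : Prop := ∀ (K : Type) [Field K] [Algebra ℂ K] (B : Subalgebra ℂ K),
  (∀ b ∈ B, ∀ c ∈ B, ∃ P : MvPolynomial (Fin 2) ℂ, P ≠ 0 ∧ aeval ![b, c] P = 0) →
    ∀ a b : K, IsAlgebraic B a → IsAlgebraic B b →
      ∃ P : MvPolynomial (Fin 2) ℂ, P ≠ 0 ∧ aeval ![a, b] P = 0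

/-- subfields of finitely generated fields are finitely generated -/
def S_FGS : Prop := ∀ (K : Type) [Field K] [Algebra ℂ K],
  (⊤ : IntermediateField ℂ K).FG → ∀ E : IntermediateField ℂ K, E.FG

end Pool.Agent.Y377.IL
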