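import Pool.Agent.Y377.IL.SpA
import Pool.Agent.Y377.IL.Stm2
import Pool.Agent.Y377.IL.StmB

/-!
Images of the closures of curves given by iterated linear differential equations.
-/

set_option autoImplicit false

namespace Pool.Agent.Y377.IL

open Set Filter Topology MvPolynomial Pool.Agent.Y377.EL
open Pool.Agent.TH143.EL (TrOne mero_an mero_ne mero_id freq_of_ev codis_ev codis_nhds
  codis_of_ev mero_eval)
open Pool.Agent.TH143.GT (Covered)
open Pool.Agent.W602.GT (IsForm coords exists_embedding)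

variable {N : ℕ}

/-- a general point of the curve with the homogeneous coordinates `h` -/
structure FPt (hT : S_TAY) (B : Subalgebra ℂ (ℂ → ℂ)) (D : Derivation ℂ LK LK)
    (h : Fin (N + 1) → ℂ → ℂ) (z0 : ℂ) (l : Fin (N + 1)) (R : Subalgebra ℂ LK) : Prop where
  an : ∀ j, AnalyticAt ℂ (h j) z0
  tow : LTow D (baseF hT B z0) R
  mem : ∀ j, ty z0 (h j) ∈ R
  ne : h l z0 ≠ 0
  ne' : ty z0 (h l) ≠ 0
  val : ∀ G : MvPolynomial (Fin (N + 1)) ℂ, aeval (fun j => ty z0 (h j)) G = 0 ↔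
      ∀ᶠ z in codiscrete ℂ, eval (fun j => h j z) G = 0

theorem exists_fpt' (hT : S_TAY) (hFML : S_FML) {B : Subalgebra ℂ (ℂ → ℂ)} (hB : DB B)
    {D : Derivation ℂ LK LK} (hD : ∀ f : PowerSeries ℂ,
    D (algebraMap _ _ f) = algebraMap _ _ (PowerSeries.derivative ℂ f))
    {h : Fin (N + 1) → ℂ → ℂ} (hl : ∀ j, IterLin B (h j)) {P : ℂ → Prop}
    (hP : ∀ᶠ z in codiscrete ℂ, P z) (hne : ∀ᶠ z in codiscrete ℂ, (fun j => h j z) ≠ 0)
    {ι : Type} [Finite ι] {k : ι → ℂ → ℂ} (hk : ∀ i, IterLin B (k i)) :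
    ∃ z0 l R, P z0 ∧ FPt hT B D h z0 l R ∧ ∀ i, AnalyticAt ℂ (k i) z0 ∧ ty z0 (k i) ∈ R := by
  have hm : ∀ j, Meromorphic (h j) := fun j => (hl j).mero hB
  have e1 : ∀ᶠ z0 in codiscrete ℂ, ∀ j, AnalyticAt ℂ (h j) z0 ∧
      ∀ R, LTow D (baseF hT B z0) R → ∃ R', R ≤ R' ∧ LTow D (baseF hT B z0) R' ∧
        ty z0 (h j) ∈ R' := eventually_all.2 fun j => (hl j).tow hT hFML hB hD
  have e2 : ∀ᶠ z0 in codiscrete ℂ, ∀ j, AnalyticAt ℂ (k j) z0 ∧
      ∀ R, LTow D (baseF hT B z0) R → ∃ R', R ≤ R' ∧ LTow D (baseF hT B z0) R' ∧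
        ty z0 (k j) ∈ R' := eventually_all.2 fun j => (hk j).tow hT hFML hB hD
  obtain ⟨z0, ⟨⟨hz0, hz1⟩, hz2⟩, hz3⟩ := (((e1.and hne).and hP).and e2).exists
  obtain ⟨l, hl0⟩ := Function.ne_iff.1 hz1
  have hl0' : h l z0 ≠ 0 := hl0
  have han : ∀ j, AnalyticAt ℂ (h j) z0 := fun j => (hz0 j).1
  obtain ⟨R1, -, hRt1, hxR1⟩ := ext_family (P := fun y => ∃ j, y = ty z0 (h j)) (by
    rintro _ ⟨j, rfl⟩
    exact (hz0 j).2) (x := fun j => ty z0 (h j)) (fun j => ⟨j, rfl⟩) _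
    (LTow.base (R0 := baseF hT B z0))
  obtain ⟨R, hRR, hRt, hkR⟩ := ext_family (P := fun y => ∃ j, y = ty z0 (k j)) (by
    rintro _ ⟨j, rfl⟩
    exact (hz3 j).2) (x := fun j => ty z0 (k j)) (fun j => ⟨j, rfl⟩) _ hRt1
  refine ⟨z0, l, R, hz2, ⟨han, hRt, fun j => hRR (hxR1 j), hl0', ?_, fun G => ?_⟩,
    fun i => ⟨(hz3 i).1, hkR i⟩⟩
  · rw [Ne, ty_zero hT (han l)]
    intro h3
    exact hl0' h3.self_of_nhds
  · obtain ⟨h3, h4⟩ := ty_eval hT han G
    rw [← h4, ty_zero hT h3]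
    exact ⟨fun h6 => mero_id (mero_eval hm G) (freq_of_ev h6), fun h6 => near_zero h3 h6⟩

theorem exists_fpt (hT : S_TAY) (hFML : S_FML) {B : Subalgebra ℂ (ℂ → ℂ)} (hB : DB B)
    {D : Derivation ℂ LK LK} (hD : ∀ f : PowerSeries ℂ,
    D (algebraMap _ _ f) = algebraMap _ _ (PowerSeries.derivative ℂ f))
    {h : Fin (N + 1) → ℂ → ℂ} (hl : ∀ j, IterLin B (h j)) {P : ℂ → Prop}
    (hP : ∀ᶠ z in codiscrete ℂ, P z) (hne : ∀ᶠ z in codiscrete ℂ, (fun j => h j z) ≠ 0) :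
    ∃ z0 l R, P z0 ∧ FPt hT B D h z0 l R := by
  obtain ⟨z0, l, R, h1, h2, -⟩ := exists_fpt' hT hFML hB hD hl hP hne hl
  exact ⟨z0, l, R, h1, h2⟩

/-- the elements which are algebraic over a subring -/
noncomputable def algI {K : Type} [Field K] [Algebra ℂ K] (F : Subalgebra ℂ K) :
    IntermediateField ℂ K :=
  (algC F).toIntermediateField fun _ hx => IsAlgebraic.inv hx

theorem mem_algI {K : Type} [Field K] [Algebra ℂ K] {F : Subalgebra ℂ K} {x : K} :
    x ∈ algI F ↔ IsAlgebraic F x := Iff.rfl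

/-- **Images of the closure of the curve.** -/
theorem cov_of_fpt (H : Hyp) {hT : S_TAY} {B : Subalgebra ℂ (ℂ → ℂ)} (hB : DB B)
    {D : Derivation ℂ LK LK} (hD : ∀ f : PowerSeries ℂ,
    D (algebraMap _ _ f) = algebraMap _ _ (PowerSeries.derivative ℂ f)) (hC : Cst D)
    {h : Fin (N + 1) → ℂ → ℂ} {z0 : ℂ} {l : Fin (N + 1)} {R : Subalgebra ℂ LK}
    (hF : FPt hT B D h z0 l R) {K : Type} [Field K] [Algebra ℂ K] {y : Fin (N + 1) → K}
    (hgen : coords ℂ y = ⊤)
    (hrel : ∀ G : MvPolynomial (Fin (N + 1)) ℂ, IsForm G →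
      (W602.GT.val y G = 0 ↔ ∀ᶠ z in codiscrete ℂ, eval (fun j => h j z) G = 0)) :
    y l ≠ 0 ∧ ∃ ψ : K →ₐ[ℂ] LK, (∀ j, ψ (y j / y l) = ty z0 (h j) / ty z0 (h l)) ∧
      ∀ E : IntermediateField ℂ K, E.FG →
        (∀ e ∈ E, IsAlgebraic (baseF hT B z0) (ψ e)) ∨ Covered E := by
  classical
  have hyl : y l ≠ 0 := by
    intro h0
    apply hF.ne'
    have h1 : W602.GT.val y (X l : MvPolynomial (Fin (N + 1)) ℂ) = 0 := by
      unfold W602.GT.val
      rw [aeval_X, h0]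
    rw [hrel _ ⟨1, isHomogeneous_X _ _⟩, ← hF.val, aeval_X] at h1
    exact h1
  obtain ⟨ψ, hψ⟩ := exists_embedding (k := ℂ) (y := y) (y' := fun j => ty z0 (h j)) (i0 := l)
    hyl hF.ne' hgen (fun G hG => by
      rw [hrel G hG, ← hF.val]
      rfl)
  refine ⟨hyl, ψ, hψ, fun E hE => ?_⟩
  -- the image lies in the field of fractions of the ring
  have hfr : ∀ a : K, ψ a ∈ frac R := by
    intro a
    have h1 : a ∈ (frac R).comap ψ := by
      have h2 : coords ℂ y ≤ (frac R).comap ψ := by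
        unfold coords
        rw [IntermediateField.adjoin_le_iff]
        rintro _ ⟨i, j, hj, rfl⟩
        have h3 : y i / y j = (y i / y l) / (y j / y l) := by
          rw [div_div_div_cancel_right₀ hyl]
        change ψ (y i / y j) ∈ frac R
        rw [h3, map_div₀, hψ, hψ]
        have h4 : ∀ j, ty z0 (h j) / ty z0 (h l) ∈ frac R := fun j =>
          (frac R).div_mem (le_frac R (hF.mem j)) (le_frac R (hF.mem l))
        exact (frac R).div_mem (h4 i) (h4 j)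
      exact h2 (by rw [hgen]; exact IntermediateField.mem_top)
    exact h1
  obtain ⟨t0, ht0⟩ := hE
  by_cases hall : ∀ a ∈ t0, IsAlgebraic (baseF hT B z0) (ψ a)
  · left
    have h2 : E ≤ (algI (baseF hT B z0)).comap ψ := by
      rw [← ht0, IntermediateField.adjoin_le_iff]
      intro a ha
      exact hall a ha
    intro e he
    exact h2 he
  · right
    push Not at hall
    obtain ⟨a0, ha0, hna⟩ := hall
    obtain ⟨S0, M, i1, i2, φ, -, h2, -, ⟨x, hx, hxc⟩, -⟩ : RatFam R (t0.image ψ) := by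
      refine H.main hC (baseF_good hT hB z0 hD) hF.tow (fun a ha => ?_) ⟨ψ a0,
        Finset.mem_image_of_mem _ ha0, hna⟩
      obtain ⟨b, -, rfl⟩ := Finset.mem_image.1 ha
      exact hfr b
    have h3 : E ≤ (frac S0).comap ψ := by
      rw [← ht0, IntermediateField.adjoin_le_iff]
      intro a ha
      exact h2 _ (Finset.mem_image_of_mem _ ha)
    let θ : E →ₐ[ℂ] frac S0 := (ψ.comp E.val).codRestrict (frac S0).toSubalgebra
      fun e => h3 e.2
    obtain ⟨a, ha, hax⟩ := Finset.mem_image.1 hx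
    have haE : a ∈ E := by
      rw [← ht0]
      exact IntermediateField.subset_adjoin _ _ ha
    refine ⟨M, i1, i2, φ.comp θ, ⟨a, haE⟩, fun c hc => hxc c ?_⟩
    have h4 : θ ⟨a, haE⟩ = x := Subtype.ext hax
    rw [← h4]
    exact hc

/-- two functions whose ratio is algebraic over the ring `B` -/
def AlgRatio (B : Subalgebra ℂ (ℂ → ℂ)) (u v : ℂ → ℂ) : Prop :=
  ∃ (m : ℕ) (b : ℕ → ℂ → ℂ), (∀ k, b k ∈ B) ∧ (∃ k ≤ m, ¬ ∀ᶠ z in codiscrete ℂ, b k z = 0) ∧
    ∀ᶠ z in codiscrete ℂ, ∑ k ∈ Finset.range (m + 1), b k z * u z ^ k * v z ^ (m - k) = 0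

theorem mero_pow {u : ℂ → ℂ} (hu : Meromorphic u) (n : ℕ) : Meromorphic fun z => u z ^ n := by
  induction n with
  | zero => simpa using Meromorphic.const (1 : ℂ)
  | succ n ih =>
    simp only [pow_succ]
    exact ih.mul hu

theorem an_pow {u : ℂ → ℂ} {z0 : ℂ} (hu : AnalyticAt ℂ u z0) (hT : S_TAY) (n : ℕ) :
    AnalyticAt ℂ (fun z => u z ^ n) z0 ∧ ty z0 (fun z => u z ^ n) = ty z0 u ^ n := by
  induction n with
  | zero =>
    simp only [pow_zero]
    exact ⟨analyticAt_const, by rw [ty_const hT, map_one]⟩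
  | succ n ih =>
    simp only [pow_succ]
    exact ⟨ih.1.mul hu, by rw [ty_mul hT ih.1 hu, ih.2]⟩

theorem algRatio_of_ty (hT : S_TAY) {B : Subalgebra ℂ (ℂ → ℂ)} (hB : DB B) {z0 : ℂ}
    {u v : ℂ → ℂ} (hu : Meromorphic u) (hv : Meromorphic v) (hua : AnalyticAt ℂ u z0)
    (hva : AnalyticAt ℂ v z0) (hv0 : ty z0 v ≠ 0)
    (hal : IsAlgebraic (baseF hT B z0) (ty z0 u / ty z0 v)) : AlgRatio B u v := by
  have h1 : IsAlgebraic (baseR hT B z0) (ty z0 u / ty z0 v) :=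
    alg_trans (fun x hx => le_frac _ hx) (fun x hx => frac_alg (fun y hy => alg_of_mem hy) hx) hal
  obtain ⟨P, hP0, hP⟩ := h1
  have hc : ∀ k, ∃ b ∈ B, AnalyticAt ℂ b z0 ∧ ((P.coeff k : baseR hT B z0) : LK) = ty z0 b :=
    fun k => (P.coeff k).2
  choose b hb hba hbe using hc
  refine ⟨P.natDegree, b, hb, ⟨P.natDegree, le_rfl, fun h0 => ?_⟩, ?_⟩
  · apply hP0
    apply Polynomial.leadingCoeff_eq_zero.1
    apply Subtype.ext
    change ((P.coeff P.natDegree : baseR hT B z0) : LK) = 0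
    rw [hbe, ty_zero hT (hba _)]
    exact near_zero (hba _) h0
  · have h2 : ∀ k, AnalyticAt ℂ (fun z => b k z * u z ^ k * v z ^ (P.natDegree - k)) z0 := fun k =>
      ((hba k).mul (an_pow hua hT k).1).mul (an_pow hva hT _).1
    have h3 : ty z0 (fun z => ∑ k ∈ Finset.range (P.natDegree + 1),
        b k z * u z ^ k * v z ^ (P.natDegree - k)) = 0 := by
      rw [(ty_sum hT (Finset.range (P.natDegree + 1)) h2).2]
      have h4 : ∀ k ∈ Finset.range (P.natDegree + 1),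
          ty z0 (fun z => b k z * u z ^ k * v z ^ (P.natDegree - k)) =
            ty z0 v ^ P.natDegree * (((P.coeff k : baseR hT B z0) : LK) *
              (ty z0 u / ty z0 v) ^ k) := by
        intro k hk
        have hk' : k ≤ P.natDegree := by
          have := Finset.mem_range.1 hk
          omega
        have e1 : ty z0 (fun z => b k z * u z ^ k * v z ^ (P.natDegree - k)) =
            ty z0 (fun z => b k z * u z ^ k) * ty z0 (fun z => v z ^ (P.natDegree - k)) :=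
          ty_mul hT ((hba k).mul (an_pow hua hT k).1) (an_pow hva hT _).1
        have e2 : ty z0 (fun z => b k z * u z ^ k) = ty z0 (b k) * ty z0 (fun z => u z ^ k) :=
          ty_mul hT (hba k) (an_pow hua hT k).1
        rw [e1, e2, (an_pow hua hT k).2, (an_pow hva hT _).2, hbe, div_pow]
        have h5 : ty z0 v ^ P.natDegree = ty z0 v ^ k * ty z0 v ^ (P.natDegree - k) := by
          rw [← pow_add, Nat.add_sub_cancel' hk']
        rw [h5]
        have h6 : ty z0 v ^ k ≠ 0 := pow_ne_zero _ hv0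
        field_simp
      rw [Finset.sum_congr rfl h4, ← Finset.mul_sum]
      rw [Polynomial.aeval_eq_sum_range] at hP
      have h7 : ∑ k ∈ Finset.range (P.natDegree + 1), (((P.coeff k : baseR hT B z0) : LK) *
          (ty z0 u / ty z0 v) ^ k) = 0 := hP
      rw [h7, mul_zero]
    rw [ty_zero hT (ty_sum hT (Finset.range (P.natDegree + 1)) h2).1] at h3
    exact mero_id (x := z0) (mero_sum fun k => ((hB.mero _ (hb k)).mul (mero_pow hu k)).mul
      (mero_pow hv _)) (freq_of_ev h3)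

theorem baseR_dep (hT : S_TAY) {B : Subalgebra ℂ (ℂ → ℂ)} (hB : TrOne B) {z0 : ℂ} :
    ∀ b ∈ baseR hT B z0, ∀ c ∈ baseR hT B z0,
      ∃ P : MvPolynomial (Fin 2) ℂ, P ≠ 0 ∧ aeval ![b, c] P = 0 := by
  rintro _ ⟨b, hb, hba, rfl⟩ _ ⟨c, hc, hca, rfl⟩
  obtain ⟨P, hP0, hP⟩ := hB.dep b hb c hc
  refine ⟨P, hP0, ?_⟩
  let h : Fin (1 + 1) → ℂ → ℂ := ![b, c]
  have hh : ∀ j, AnalyticAt ℂ (h j) z0 := by
    intro j
    refine Fin.cases hba (fun i => ?_) j
    have : i = 0 := Subsingleton.elim _ _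
    subst this
    exact hca
  obtain ⟨h3, h4⟩ := ty_eval hT hh P
  have h5 : (fun j => ty z0 (h j)) = ![ty z0 b, ty z0 c] := by
    funext j
    refine Fin.cases rfl (fun i => ?_) j
    have : i = 0 := Subsingleton.elim _ _
    subst this
    rfl
  rw [← h5, ← h4, ty_zero hT h3]
  refine near_zero h3 ?_
  filter_upwards [hP] with z hz
  have h6 : (fun j => h j z) = ![b z, c z] := by
    funext j
    refine Fin.cases rfl (fun i => ?_) j
    have : i = 0 := Subsingleton.elim _ _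
    subst this
    rfl
  rw [h6]
  exact hz

end Pool.Agent.Y377.IL
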