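import Pool.Agent.Y377.IL.Rc

/-!
Entire curves given by iterated linear differential equations.
-/

set_option autoImplicit false

namespace Pool.Agent.Y377.IL

open MvPolynomial Set Pool.Agent.Y377.EL Pool.Agent.TH143

variable {N : ℕ}

theorem fracs_mem {K : Type} [Field K] [Algebra ℂ K] {R : Subalgebra ℂ K} {a b : K}
    (ha : a ∈ R) (hb : b ∈ R) : a / b ∈ frac R := by
  by_cases h0 : b = 0
  · rw [h0, div_zero]
    exact (frac R).zero_mem
  · exact ⟨b, hb, h0, by
      rw [mul_div_cancel₀ _ h0]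
      exact ha⟩

theorem el_inj {K : Type} [Field K] [Algebra ℂ K] {i : Hol univ →ₐ[ℂ] K}
    (hi : Function.Injective i) {f g : ℂ → ℂ} (hf : Differentiable ℂ f)
    (hg : Differentiable ℂ g) (h : el i hf = el i hg) (z : ℂ) : f z = g z := by
  have h1 := hi h
  have h2 := congrArg (evz (⟨z, mem_univ z⟩ : (univ : Set ℂ))) h1
  rwa [evz_toHol, evz_toHol] at h2

theorem el_ne_zero {K : Type} [Field K] [Algebra ℂ K] {i : Hol univ →ₐ[ℂ] K}
    (hi : Function.Injective i) {f : ℂ → ℂ} (hf : Differentiable ℂ f) {z : ℂ} (hz : f z ≠ 0) :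
    el i hf ≠ 0 := by
  intro h0
  apply hz
  refine el_inj hi hf (differentiable_const 0) ?_ z
  rw [h0, el_const, map_zero]

/-- **Forms which vanish on all rational curves vanish on the curves of the class.** -/
theorem curve_rc (H : Hyp) (hRC : S_RC) {I : Ideal (MvPolynomial (Fin (N + 1)) ℂ)}
    {G' : MvPolynomial (Fin (N + 1)) ℂ} (hG' : ∃ d, G'.IsHomogeneous d)
    (hcur : ∀ p : Fin (N + 1) → Polynomial ℂ,
      (∀ G ∈ I, (∃ d, G.IsHomogeneous d) → aeval p G = 0) →
      (∃ j k, Polynomial.derivative (p j) * p k ≠ p j * Polynomial.derivative (p k)) →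
        aeval p G' = 0)
    {h : ℂ → Fin (N + 1) → ℂ} (hh : ∀ j, LinODE (fun z => h z j))
    (hI : ∀ G ∈ I, (∃ d, G.IsHomogeneous d) → ∀ z, eval (h z) G = 0)
    (hnc : ∃ z w j k, h z j * h w k ≠ h z k * h w j) (z : ℂ) : eval (h z) G' = 0 := by
  classical
  obtain ⟨K, _, _, D, A, i, hA⟩ := exists_amb isOpen_univ isPreconnected_univ
    (univ_nonempty (α := ℂ))
  obtain ⟨R, hR, hx⟩ := LinODE.family H.fund hA hh
  have hC : Cst D := hA.con
  let x : Fin (N + 1) → K := fun j => el i (hh j).diff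
  obtain ⟨z0, w0, j0, k0, hne⟩ := hnc
  obtain ⟨l, hl⟩ : ∃ l, x l ≠ 0 := by
    by_contra hcon
    push Not at hcon
    have h0 : ∀ j z, h z j = 0 := by
      intro j z
      by_contra h1
      exact el_ne_zero hA.inj (hh j).diff h1 (hcon j)
    apply hne
    rw [h0 j0 z0, h0 k0 z0, zero_mul, zero_mul]
  let t : Finset K := Finset.univ.image fun j => x j / x l
  have hval : ∀ G : MvPolynomial (Fin (N + 1)) ℂ, aeval x G = 0 ↔ ∀ z, eval (h z) G = 0 := by
    intro G
    have h1 := vanish_iff hA.inj (f := h) (fun j => an_of_diff (hh j).diff) G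
    exact h1.trans ⟨fun h2 z => h2 z (mem_univ z), fun h2 z _ => h2 z⟩
  have hF : RatFam R t := by
    refine H.main hC (goodB_bot D) hR (fun a ha => ?_) ?_
    · obtain ⟨j, -, rfl⟩ := Finset.mem_image.1 ha
      exact fracs_mem (hx j) (hx l)
    · by_contra hcon
      push Not at hcon
      have h1 : ∀ j, ∃ c : ℂ, ∀ z, h z j = c * h z l := by
        intro j
        obtain ⟨c, hc⟩ := const_of_alg (hcon (x j / x l)
          (Finset.mem_image.2 ⟨j, Finset.mem_univ j, rfl⟩))
        rw [div_eq_iff hl] at hc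
        refine ⟨c, fun z => ?_⟩
        have h2 : Differentiable ℂ fun z => c * h z l := (differentiable_const c).mul (hh l).diff
        refine el_inj hA.inj (hh j).diff h2 ?_ z
        rw [el_mul i (differentiable_const c) (hh l).diff h2, el_const]
        exact hc
      choose c hc using h1
      apply hne
      rw [hc j0 z0, hc k0 w0, hc k0 z0, hc j0 w0]
      ring
  exact (hval G').1 (hF.rc hRC hG' hcur hl (fun j => Finset.mem_image.2
    ⟨j, Finset.mem_univ j, rfl⟩) (fun a ha => by
      obtain ⟨j, -, rfl⟩ := Finset.mem_image.1 ha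
      exact ⟨j, rfl⟩) fun G hG hGh => (hval G).2 (hI G hG hGh)) z

end Pool.Agent.Y377.IL
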