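import Pool.Agent.Y377.IL.MerA

/-!
Entire curves given by iterated linear differential equations over a base ring of meromorphic
functions.
-/

set_option autoImplicit false

namespace Pool.Agent.Y377.IL

open Set Filter Topology MvPolynomial Pool.Agent.Y377.EL
open scoped LinearAlgebra.Projectivization
open Pool.Agent.TH143.EL (TrOne LinB mero_an mero_ne mero_id mero_top freq_of_ev codis_ev
  codis_nhds codis_of_ev HolMap Rep InV inV_iff inV_of_punct rep_iff rep_smul mero_eval)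
open Pool.Agent.TH143.HE (RatCurvesIn IsPtP NonConst)

variable {N : ℕ}

theorem nonconst_of_wr {p : Fin (N + 1) → Polynomial ℂ}
    (h : ∃ j k, Polynomial.derivative (p j) * p k ≠ p j * Polynomial.derivative (p k)) :
    NonConst p := by
  by_contra hcon
  unfold NonConst at hcon
  push Not at hcon
  obtain ⟨j, k, hjk⟩ := h
  apply hjk
  apply Polynomial.funext
  intro v
  have h1 : p j * Polynomial.C ((p k).eval v) = p k * Polynomial.C ((p j).eval v) := by
    apply Polynomial.funext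
    intro u
    rw [Polynomial.eval_mul, Polynomial.eval_mul, Polynomial.eval_C, Polynomial.eval_C]
    exact hcon j k u v
  have h2 := congrArg (fun q => (Polynomial.derivative q).eval v) h1
  simp only [Polynomial.derivative_mul, Polynomial.derivative_C, mul_zero, add_zero,
    Polynomial.eval_mul, Polynomial.eval_C] at h2
  rw [Polynomial.eval_mul, Polynomial.eval_mul]
  linear_combination h2

/-- rational curves over the complex numbers -/
theorem cur_of_rat {I I' : Ideal (MvPolynomial (Fin (N + 1)) ℂ)}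
    (hR : RatCurvesIn (RingHom.id ℂ) I I') {G' : MvPolynomial (Fin (N + 1)) ℂ} (hG : G' ∈ I')
    (hG' : ∃ d, G'.IsHomogeneous d) (p : Fin (N + 1) → Polynomial ℂ)
    (h1 : ∀ G ∈ I, (∃ d, G.IsHomogeneous d) → aeval p G = 0)
    (h2 : ∃ j k, Polynomial.derivative (p j) * p k ≠ p j * Polynomial.derivative (p k)) :
    aeval p G' = 0 := by
  have hev : ∀ (G : MvPolynomial (Fin (N + 1)) ℂ) (u : ℂ),
      (aeval p G : Polynomial ℂ).eval u = eval (fun j => (p j).eval u) G := by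
    intro G u
    have e1 := MvPolynomial.comp_aeval_apply (f := p) (Polynomial.aeval u) G
    rw [Polynomial.coe_aeval_eq_eval] at e1
    rw [e1, MvPolynomial.aeval_eq_eval]
  apply Polynomial.funext
  intro u
  rw [hev, Polynomial.eval_zero]
  have h3 := hR p (fun u G hGI hGh => by
    rw [eval₂_id, ← hev, h1 G hGI hGh, Polynomial.eval_zero]) (nonconst_of_wr h2) u G' hG hG'
  rwa [eval₂_id] at h3

theorem near_zero {u : ℂ → ℂ} {x : ℂ} (hu : AnalyticAt ℂ u x)
    (h : ∀ᶠ z in codiscrete ℂ, u z = 0) : ∀ᶠ z in 𝓝 x, u z = 0 := by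
  have h1 : u =ᶠ[𝓝[≠] x] fun _ => 0 := codis_ev h x
  exact (hu.continuousAt.eventuallyEq_nhds_iff_eventuallyEq_nhdsNE continuousAt_const).1 h1

theorem ty_eval (hT : S_TAY) {z0 : ℂ} {h : Fin (N + 1) → ℂ → ℂ}
    (hh : ∀ j, AnalyticAt ℂ (h j) z0) (G : MvPolynomial (Fin (N + 1)) ℂ) :
    AnalyticAt ℂ (fun z => eval (fun j => h j z) G) z0 ∧
      ty z0 (fun z => eval (fun j => h j z) G) = aeval (fun j => ty z0 (h j)) G := by
  induction G using MvPolynomial.induction_on with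
  | C a =>
    simp only [eval_C, algHom_C]
    exact ⟨analyticAt_const, ty_const hT a⟩
  | add p q hp hq =>
    simp only [map_add]
    exact ⟨hp.1.add hq.1, by rw [ty_add hT hp.1 hq.1, hp.2, hq.2]⟩
  | mul_X p j hp =>
    simp only [map_mul, eval_X, aeval_X]
    exact ⟨hp.1.mul (hh j), by rw [ty_mul hT hp.1 (hh j), hp.2]⟩

theorem mero_sum {n : ℕ} {u : ℕ → ℂ → ℂ} (hu : ∀ k, Meromorphic (u k)) :
    Meromorphic (fun z => ∑ k ∈ Finset.range n, u k z) := by
  induction n with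
  | zero => simpa using Meromorphic.const (0 : ℂ)
  | succ n ih =>
    have h1 : (fun z => ∑ k ∈ Finset.range (n + 1), u k z) =
        fun z => ∑ k ∈ Finset.range n, u k z + u n z := by
      funext z
      rw [Finset.sum_range_succ]
    rw [h1]
    exact ih.add (hu n)

/-- functions with algebraic germs satisfy linear differential equations -/
theorem linB_of_alg (hT : S_TAY) (hALD : S_ALD) {B : Subalgebra ℂ (ℂ → ℂ)} (hB : DB B)
    {D : Derivation ℂ LK LK} (hD : ∀ f : PowerSeries ℂ,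
    D (algebraMap _ _ f) = algebraMap _ _ (PowerSeries.derivative ℂ f)) {z0 : ℂ} {r : ℂ → ℂ}
    (hr : Meromorphic r) (hra : AnalyticAt ℂ r z0) (hal : IsAlgebraic (baseF hT B z0) (ty z0 r)) :
    LinB B r := by
  have h1 : IsAlgebraic (baseR hT B z0) (ty z0 r) :=
    alg_trans (fun x hx => le_frac _ hx) (fun x hx => frac_alg (fun y hy => alg_of_mem hy) hx) hal
  obtain ⟨m, a, ha, ⟨k0, hk0, hak⟩, hsum⟩ := hALD LK D _ (baseR_stab hT hB z0 hD) _ h1
  choose b hb hba hbe using ha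
  refine ⟨m, b, hb, ⟨k0, hk0, fun hcon => hak ?_⟩, ?_⟩
  · rw [hbe, ty_zero hT (hba k0)]
    exact near_zero (hba k0) hcon
  · have h2 : ∀ k, AnalyticAt ℂ (fun z => b k z * iteratedDeriv k r z) z0 := fun k =>
      (hba k).mul (ty_iter hT hD hra k).1
    have h3 : ty z0 (fun z => ∑ k ∈ Finset.range (m + 1), b k z * iteratedDeriv k r z) = 0 := by
      rw [(ty_sum hT (Finset.range (m + 1)) h2).2, ← hsum]
      refine Finset.sum_congr rfl fun k _ => ?_
      rw [ty_mul hT (hba k) (ty_iter hT hD hra k).1, hbe k, (ty_iter hT hD hra k).2]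
    rw [ty_zero hT (ty_sum hT (Finset.range (m + 1)) h2).1] at h3
    refine mero_id (x := z0) (mero_sum fun k => (hB.mero _ (hb k)).mul ?_) (freq_of_ev h3)
    rw [iteratedDeriv_eq_iterate]
    exact hr.iterated_deriv

/-- **Alternative.** -/
theorem iter_alt (H : Hyp) (hRC : S_RC) (hT : S_TAY) (hFML : S_FML) (hFRC : S_FRC)
    {I I' : Ideal (MvPolynomial (Fin (N + 1)) ℂ)}
    (hR : RatCurvesIn (RingHom.id ℂ) I I') {B : Subalgebra ℂ (ℂ → ℂ)} (hB : DB B)
    {f : ℂ → ℙ ℂ (Fin (N + 1) → ℂ)} (hf : HolMap f) {h : Fin (N + 1) → ℂ → ℂ}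
    (hl : ∀ j, IterLin B (h j)) (hr : ∀ᶠ z in codiscrete ℂ, Rep (f z) fun j => h j z)
    (hI : ∀ z, InV I (f z)) : (∀ z, InV I' (f z)) ∨
      ∃ (z0 : ℂ) (l : Fin (N + 1)), (∀ j, AnalyticAt ℂ (h j) z0) ∧ h l z0 ≠ 0 ∧
        Rep (f z0) (fun j => h j z0) ∧
        ∀ j, IsAlgebraic (baseF hT B z0) (ty z0 (h j) / ty z0 (h l)) := by
  classical
  obtain ⟨D, hD, hC⟩ := hFRC
  have hm : ∀ j, Meromorphic (h j) := fun j => (hl j).mero hB
  have e1 : ∀ᶠ z0 in codiscrete ℂ, ∀ j, AnalyticAt ℂ (h j) z0 ∧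
      ∀ R, LTow D (baseF hT B z0) R → ∃ R', R ≤ R' ∧ LTow D (baseF hT B z0) R' ∧
        ty z0 (h j) ∈ R' := eventually_all.2 fun j => (hl j).tow hT hFML hB hD
  obtain ⟨z0, hz0, hz1⟩ := (e1.and hr).exists
  obtain ⟨l, hl0⟩ := Function.ne_iff.1 hz1.1
  have hl0' : h l z0 ≠ 0 := hl0
  have han : ∀ j, AnalyticAt ℂ (h j) z0 := fun j => (hz0 j).1
  let x : Fin (N + 1) → LK := fun j => ty z0 (h j)
  obtain ⟨R, -, hRt, hxR⟩ := ext_family (P := fun y => ∃ j, y = ty z0 (h j)) (by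
    rintro _ ⟨j, rfl⟩
    exact (hz0 j).2) (x := x) (fun j => ⟨j, rfl⟩) _ (LTow.base (R0 := baseF hT B z0))
  have hxl : x l ≠ 0 := by
    change ty z0 (h l) ≠ 0
    rw [Ne, ty_zero hT (han l)]
    intro h3
    exact hl0' h3.self_of_nhds
  have hval : ∀ G : MvPolynomial (Fin (N + 1)) ℂ, aeval x G = 0 ↔
      ∀ᶠ z in codiscrete ℂ, eval (fun j => h j z) G = 0 := by
    intro G
    obtain ⟨h3, h4⟩ := ty_eval hT han G
    have h5 : aeval x G = ty z0 (fun z => eval (fun j => h j z) G) := h4.symm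
    rw [h5, ty_zero hT h3]
    exact ⟨fun h6 => mero_id (mero_eval hm G) (freq_of_ev h6), fun h6 => near_zero h3 h6⟩
  by_cases hall : ∀ j, IsAlgebraic (baseF hT B z0) (x j / x l)
  · exact Or.inr ⟨z0, l, han, hl0', hz1, hall⟩
  · left
    push Not at hall
    obtain ⟨j0, hj0⟩ := hall
    have hRF : RatFam R (Finset.univ.image fun j => x j / x l) := by
      refine H.main hC (baseF_good hT hB z0 hD) hRt (fun a ha => ?_) ⟨x j0 / x l,
        Finset.mem_image.2 ⟨j0, Finset.mem_univ j0, rfl⟩, hj0⟩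
      obtain ⟨j, -, rfl⟩ := Finset.mem_image.1 ha
      exact (frac R).div_mem (le_frac R (hxR j)) (le_frac R (hxR l))
    have key : ∀ G ∈ I', (∃ d, G.IsHomogeneous d) →
        ∀ᶠ z in codiscrete ℂ, eval (fun j => h j z) G = 0 := by
      intro G hG hGh
      rw [← hval]
      refine hRF.rc hRC hGh (cur_of_rat hR hG hGh) hxl
        (fun j => Finset.mem_image.2 ⟨j, Finset.mem_univ j, rfl⟩) (fun a ha => by
          obtain ⟨j, -, rfl⟩ := Finset.mem_image.1 ha
          exact ⟨j, rfl⟩) fun G hG hGh => ?_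
      rw [hval]
      filter_upwards [hr] with z hz
      exact (inV_iff hz).1 (hI z) G hG hGh
    intro z
    refine fun G hG hGh => ?_
    have h3 : InV (Ideal.span {G}) (f z) := by
      apply inV_of_punct hf
      filter_upwards [codis_ev (key G hG hGh) z, codis_ev hr z] with w h4 h5
      rw [inV_iff h5]
      intro G2 hG2 _
      obtain ⟨G3, rfl⟩ := Ideal.mem_span_singleton.1 hG2
      rw [map_mul, h4, zero_mul]
    exact h3 G (Ideal.mem_span_singleton_self G) hGh

/-- **Dichotomy.** -/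
theorem iter_dichotomy (H : Hyp) (hRC : S_RC) (hT : S_TAY) (hFML : S_FML) (hFRC : S_FRC)
    (hALD : S_ALD) {I I' : Ideal (MvPolynomial (Fin (N + 1)) ℂ)}
    (hR : RatCurvesIn (RingHom.id ℂ) I I') {B : Subalgebra ℂ (ℂ → ℂ)} (hB : TrOne B)
    {f : ℂ → ℙ ℂ (Fin (N + 1) → ℂ)} (hf : HolMap f) {h : Fin (N + 1) → ℂ → ℂ}
    (hl : ∀ j, IterLin B (h j)) (hr : ∀ᶠ z in codiscrete ℂ, Rep (f z) fun j => h j z)
    (hI : ∀ z, InV I (f z)) (hnc : ∃ z w, f z ≠ f w) : (∀ z, InV I' (f z)) ∨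
      ∃ ω₁ ω₂ : ℂ, LinearIndependent ℝ ![ω₁, ω₂] ∧ (∀ z, f (z + ω₁) = f z) ∧
        ∀ z, f (z + ω₂) = f z := by
  have hB' : DB B := db_of_trOne hB
  rcases iter_alt H hRC hT hFML hFRC hR hB' hf hl hr hI with h1 | ⟨z0, l, han, hl0, hr0, hall⟩
  · exact Or.inl h1
  · obtain ⟨D, hD, hC⟩ := hFRC
    have hm : ∀ j, Meromorphic (h j) := fun j => (hl j).mero hB'
    have hne : ∀ᶠ z in codiscrete ℂ, h l z ≠ 0 := mero_ne (hm l) fun h3 =>
      hl0 (near_zero (han l) h3).self_of_nhds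
    refine Pool.Agent.TH143.EL.dichotomy hR hB hf (h := fun j z => h j z / h l z)
      (fun j => (hm j).div (hm l)) (fun j => ?_) ?_ hI hnc
    · obtain ⟨h3, h4⟩ := ty_div hT (han j) (han l) hl0
      refine linB_of_alg hT hALD hB' hD ((hm j).div (hm l)) h3 ?_
      rw [h4]
      exact hall j
    · filter_upwards [hr, hne] with z h3 h4
      have h5 : (fun j => h j z / h l z) = fun j => (h l z)⁻¹ * h j z := by
        funext j
        rw [div_eq_inv_mul]
      rw [h5]
      exact (rep_smul (inv_ne_zero h4)).2 h3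

end Pool.Agent.Y377.IL
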