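import Pool.Agent.Y377.IL.Basic

/-!
Descent of subspaces stable under a derivation, and derivations of polynomial rings.
-/

set_option autoImplicit false

namespace Pool.Agent.Y377.IL

open Pool.Agent.Y377.EL MvPolynomial

variable {K : Type} [Field K] [Algebra ℂ K]

/-- subspaces stable under the derivation are spanned by constant vectors -/
theorem descent {D : Derivation ℂ K K} (hC : ∀ x, D x = 0 → ∃ c : ℂ, x = algebraMap ℂ K c)
    {ι : Type} (V : Submodule K (ι → K)) (hfin : ∀ f ∈ V, (Function.support f).Finite)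
    (hV : ∀ f ∈ V, (fun i => D (f i)) ∈ V) (f : ι → K) (hf : f ∈ V) :
    f ∈ Submodule.span K {g | g ∈ V ∧ ∀ i, ∃ c : ℂ, g i = algebraMap ℂ K c} := by
  set V0 := Submodule.span K {g | g ∈ V ∧ ∀ i, ∃ c : ℂ, g i = algebraMap ℂ K c} with hV0
  suffices h : ∀ n : ℕ, ∀ f ∈ V, (Function.support f).ncard = n → f ∈ V0 from h _ f hf rfl
  intro n
  induction n using Nat.strong_induction_on with
  | _ n ih =>
    intro f hf hn
    by_cases hf0 : f = 0
    · rw [hf0]
      exact V0.zero_mem
    obtain ⟨i, hi⟩ := Function.ne_iff.1 hf0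
    have hi0 : f i ≠ 0 := hi
    have hlt : ∀ (g : ι → K), g ∈ V → Function.support g ⊆ Function.support f →
        (∃ j, f j ≠ 0 ∧ g j = 0) → g ∈ V0 := by
      rintro g hg hgs ⟨j, hj1, hj2⟩
      apply ih (Function.support g).ncard _ g hg rfl
      rw [← hn]
      apply Set.ncard_lt_ncard _ (hfin f hf)
      refine ⟨hgs, fun h => ?_⟩
      exact (h (show j ∈ Function.support f from hj1)) hj2
    set f1 : ι → K := (f i)⁻¹ • f with hf1
    have hf1V : f1 ∈ V := V.smul_mem _ hf
    have hf1i : f1 i = 1 := by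
      rw [hf1, Pi.smul_apply, smul_eq_mul, inv_mul_cancel₀ hi0]
    have hback : f1 ∈ V0 → f ∈ V0 := by
      intro h
      have h1 := V0.smul_mem (f i) h
      rwa [hf1, smul_smul, mul_inv_cancel₀ hi0, one_smul] at h1
    have hsup1 : ∀ j, f j = 0 → f1 j = 0 := by
      intro j hj
      rw [hf1, Pi.smul_apply, hj, smul_zero]
    have hg : (fun j => D (f1 j)) ∈ V0 := by
      apply hlt _ (hV _ hf1V)
      · intro j hj hj0
        apply hj
        change D (f1 j) = 0
        rw [hsup1 j hj0, map_zero]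
      · exact ⟨i, hi0, by
          change D (f1 i) = 0
          rw [hf1i, D.map_one_eq_zero]⟩
    by_cases hall : ∀ j, D (f1 j) = 0
    · exact hback (Submodule.subset_span ⟨hf1V, fun j => hC _ (hall j)⟩)
    push Not at hall
    obtain ⟨j, hj⟩ := hall
    have hj0 : f1 j ≠ 0 := by
      intro h
      apply hj
      rw [h, map_zero]
    have hfj : f j ≠ 0 := fun h => hj0 (hsup1 j h)
    set c : K := (f1 j)⁻¹ with hc
    have hDc : D c ≠ 0 := by
      rw [hc, D.leibniz_inv]
      simp only [smul_eq_mul]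
      exact mul_ne_zero (neg_ne_zero.2 (pow_ne_zero _ (inv_ne_zero hj0))) hj
    set f2 : ι → K := c • f1 with hf2
    have hf2V : f2 ∈ V := V.smul_mem _ hf1V
    have hg2 : (fun l => D (f2 l)) ∈ V0 := by
      apply hlt _ (hV _ hf2V)
      · intro l hl hl0
        apply hl
        change D (f2 l) = 0
        rw [hf2, Pi.smul_apply, hsup1 l hl0, smul_zero, map_zero]
      · exact ⟨j, hfj, by
          change D (f2 j) = 0
          rw [hf2, Pi.smul_apply, smul_eq_mul, hc, inv_mul_cancel₀ hj0, D.map_one_eq_zero]⟩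
    have h3 : (D c) • f1 = (fun l => D (f2 l)) - c • (fun l => D (f1 l)) := by
      funext l
      simp only [hf2, Pi.smul_apply, Pi.sub_apply, smul_eq_mul, D.leibniz]
      ring
    have h4 : (D c) • f1 ∈ V0 := by
      rw [h3]
      exact V0.sub_mem hg2 (V0.smul_mem _ hg)
    have h5 := V0.smul_mem (D c)⁻¹ h4
    rw [smul_smul, inv_mul_cancel₀ hDc, one_smul] at h5
    exact hback h5

/-- derivations as homomorphisms to the dual numbers -/
noncomputable def dualHom {A P : Type} [CommRing A] [CommRing P] (f : A →+* P) (d : A → P)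
    (hadd : ∀ a b, d (a + b) = d a + d b) (hmul : ∀ a b, d (a * b) = f a * d b + f b * d a) :
    A →+* TrivSqZeroExt P P where
  toFun a := TrivSqZeroExt.inl (f a) + TrivSqZeroExt.inr (d a)
  map_one' := by
    have h1 : d 1 = 0 := by
      have := hmul 1 1
      rw [mul_one, map_one, one_mul] at this
      linear_combination -this
    apply TrivSqZeroExt.ext
    · simp only [TrivSqZeroExt.fst_add, TrivSqZeroExt.fst_inl, TrivSqZeroExt.fst_inr, map_one,
        TrivSqZeroExt.fst_one, add_zero]
    · simp only [TrivSqZeroExt.snd_add, TrivSqZeroExt.snd_inl, TrivSqZeroExt.snd_inr,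
        TrivSqZeroExt.snd_one, zero_add, h1]
  map_mul' a b := by
    apply TrivSqZeroExt.ext
    · simp only [TrivSqZeroExt.fst_add, TrivSqZeroExt.fst_inl, TrivSqZeroExt.fst_inr, map_mul,
        TrivSqZeroExt.fst_mul, add_zero]
    · simp only [TrivSqZeroExt.snd_mul, TrivSqZeroExt.fst_add, TrivSqZeroExt.fst_inl,
        TrivSqZeroExt.fst_inr, TrivSqZeroExt.snd_add, TrivSqZeroExt.snd_inl,
        TrivSqZeroExt.snd_inr, add_zero, zero_add, smul_eq_mul, hmul, op_smul_eq_smul]
  map_zero' := by
    have h1 : d 0 = 0 := by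
      have := hadd 0 0
      rw [add_zero] at this
      linear_combination -this
    apply TrivSqZeroExt.ext
    · simp only [TrivSqZeroExt.fst_add, TrivSqZeroExt.fst_inl, TrivSqZeroExt.fst_inr, map_zero,
        TrivSqZeroExt.fst_zero, add_zero]
    · simp only [TrivSqZeroExt.snd_add, TrivSqZeroExt.snd_inl, TrivSqZeroExt.snd_inr,
        TrivSqZeroExt.snd_zero, zero_add, h1]
  map_add' a b := by
    apply TrivSqZeroExt.ext
    · simp only [TrivSqZeroExt.fst_add, TrivSqZeroExt.fst_inl, TrivSqZeroExt.fst_inr, map_add,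
        add_zero]
    · simp only [TrivSqZeroExt.snd_add, TrivSqZeroExt.snd_inl, TrivSqZeroExt.snd_inr, zero_add,
        hadd]

theorem fst_dualHom {A P : Type} [CommRing A] [CommRing P] (f : A →+* P) (d : A → P)
    (hadd : ∀ a b, d (a + b) = d a + d b) (hmul : ∀ a b, d (a * b) = f a * d b + f b * d a)
    (a : A) : (dualHom f d hadd hmul a).fst = f a := by
  change (TrivSqZeroExt.inl (f a) + TrivSqZeroExt.inr (d a) : TrivSqZeroExt P P).fst = f a
  rw [TrivSqZeroExt.fst_add, TrivSqZeroExt.fst_inl, TrivSqZeroExt.fst_inr, add_zero]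

theorem snd_dualHom {A P : Type} [CommRing A] [CommRing P] (f : A →+* P) (d : A → P)
    (hadd : ∀ a b, d (a + b) = d a + d b) (hmul : ∀ a b, d (a * b) = f a * d b + f b * d a)
    (a : A) : (dualHom f d hadd hmul a).snd = d a := by
  change (TrivSqZeroExt.inl (f a) + TrivSqZeroExt.inr (d a) : TrivSqZeroExt P P).snd = d a
  rw [TrivSqZeroExt.snd_add, TrivSqZeroExt.snd_inl, TrivSqZeroExt.snd_inr, zero_add]

/-- a derivation from a homomorphism to the dual numbers -/
theorem exists_of_dual {P : Type} [CommRing P] [Algebra ℂ P] (Φ : P →+* TrivSqZeroExt P P)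
    (hfst : ∀ x, (Φ x).fst = x) (hc : ∀ c : ℂ, (Φ (algebraMap ℂ P c)).snd = 0) :
    ∃ e : Derivation ℂ P P, ∀ x, e x = (Φ x).snd := by
  refine ⟨Derivation.mk' { toFun := fun x => (Φ x).snd
                           map_add' := fun x y => by rw [map_add, TrivSqZeroExt.snd_add]
                           map_smul' := fun c x => ?_ } fun x y => ?_, fun x => rfl⟩
  · rw [Algebra.smul_def, map_mul, TrivSqZeroExt.snd_mul, hfst, hfst, hc, smul_zero, add_zero,
      RingHom.id_apply, smul_eq_mul, Algebra.smul_def c]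
  · change (Φ (x * y)).snd = x • (Φ y).snd + y • (Φ x).snd
    rw [map_mul, TrivSqZeroExt.snd_mul, hfst, hfst]
    simp only [smul_eq_mul, op_smul_eq_smul]

/-- derivations of polynomial rings -/
theorem exists_polyDer {A σ : Type} [CommRing A] [Algebra ℂ A] (d : Derivation ℂ A A)
    (v : σ → MvPolynomial σ A) :
    ∃ e : Derivation ℂ (MvPolynomial σ A) (MvPolynomial σ A),
      (∀ a, e (C a) = C (d a)) ∧ ∀ s, e (X s) = v s := by
  set φ0 : A →+* TrivSqZeroExt (MvPolynomial σ A) (MvPolynomial σ A) :=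
    dualHom C (fun a => C (d a)) (fun a b => by rw [map_add, map_add])
      (fun a b => by rw [d.leibniz, map_add, smul_eq_mul, smul_eq_mul, map_mul, map_mul]) with hφ0
  set Φ : MvPolynomial σ A →+* TrivSqZeroExt (MvPolynomial σ A) (MvPolynomial σ A) :=
    eval₂Hom φ0 (fun s => TrivSqZeroExt.inl (X s) + TrivSqZeroExt.inr (v s)) with hΦ
  have hΦC : ∀ a, Φ (C a) = φ0 a := fun a => eval₂Hom_C _ _ _
  have hΦX : ∀ s, Φ (X s) = TrivSqZeroExt.inl (X s) + TrivSqZeroExt.inr (v s) := fun s =>
    eval₂Hom_X' _ _ _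
  have hfst : ∀ x, (Φ x).fst = x := by
    intro x
    have h1 : (TrivSqZeroExt.fstHom (MvPolynomial σ A) (MvPolynomial σ A)
        (MvPolynomial σ A)).toRingHom.comp Φ = RingHom.id (MvPolynomial σ A) := by
      apply MvPolynomial.ringHom_ext
      · intro a
        change (Φ (C a)).fst = C a
        rw [hΦC, hφ0, fst_dualHom]
      · intro s
        change (Φ (X s)).fst = X s
        rw [hΦX, TrivSqZeroExt.fst_add, TrivSqZeroExt.fst_inl, TrivSqZeroExt.fst_inr, add_zero]
    exact congrArg (fun g : MvPolynomial σ A →+* MvPolynomial σ A => g x) h1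
  have hC : ∀ a, (Φ (C a)).snd = C (d a) := by
    intro a
    rw [hΦC, hφ0, snd_dualHom]
  obtain ⟨e, he⟩ := exists_of_dual Φ hfst (fun c => by
    rw [IsScalarTower.algebraMap_apply ℂ A (MvPolynomial σ A), MvPolynomial.algebraMap_eq, hC,
      d.map_algebraMap, map_zero])
  refine ⟨e, fun a => by rw [he, hC], fun s => ?_⟩
  rw [he, hΦX, TrivSqZeroExt.snd_add, TrivSqZeroExt.snd_inl, TrivSqZeroExt.snd_inr, zero_add]

theorem coeff_polyDer {σ : Type} {D : Derivation ℂ K K}
    {e : Derivation ℂ (MvPolynomial σ K) (MvPolynomial σ K)} (h1 : ∀ a, e (C a) = C (D a))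
    (h2 : ∀ s, e (X s) = 0) (p : MvPolynomial σ K) (m : σ →₀ ℕ) :
    (e p).coeff m = D (p.coeff m) := by
  classical
  have hmon : ∀ (k : σ →₀ ℕ), e (monomial k 1) = 0 := by
    intro k
    induction k using Finsupp.induction with
    | zero =>
      change e (C 1) = 0
      rw [h1, D.map_one_eq_zero, map_zero]
    | single_add s n f hs hn ih =>
      have h3 : (monomial (Finsupp.single s n + f) (1 : K)) = X s ^ n * monomial f 1 := by
        rw [X_pow_eq_monomial, monomial_mul, mul_one]
      rw [h3, e.leibniz, e.leibniz_pow, h2, ih, smul_zero, smul_zero, smul_zero, smul_zero,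
        add_zero]
  induction p using MvPolynomial.induction_on' with
  | monomial k a =>
    have h3 : monomial k a = C a * monomial k 1 := by rw [C_mul_monomial, mul_one]
    rw [h3, e.leibniz, hmon, h1, smul_zero, zero_add, smul_eq_mul, mul_comm, coeff_C_mul,
      coeff_C_mul, coeff_monomial]
    split_ifs
    · rw [mul_one, mul_one]
    · rw [mul_zero, mul_zero, map_zero]
  | add p q hp hq => rw [map_add, coeff_add, coeff_add, map_add, hp, hq]

end Pool.Agent.Y377.IL
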