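import Pool.Agent.Y377.IL.AlgB

/-!
Curves in quasi-projective varieties given by iterated linear differential equations.
-/

set_option autoImplicit false

namespace Pool.Agent.Y377.IL

open Set Filter Topology MvPolynomial Pool.Agent.Y377.EL
open scoped LinearAlgebra.Projectivization
open Pool.Agent.TH143.EL (TrOne HolMap Rep InV inV_iff inV_of_punct mero_an mero_ne mero_id
  freq_of_ev codis_ev codis_nhds codis_of_ev mero_eval rep_rep rep_iff rep_smul)
open Pool.Agent.W602.GT (IsForm)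

variable {N : ℕ}

/-- the restriction of the regular function `x ^ α / Q` to the curve `f` -/
noncomputable def regf (Q : MvPolynomial (Fin (N + 1)) ℂ) (α : Fin (N + 1) →₀ ℕ)
    (f : ℂ → ℙ ℂ (Fin (N + 1) → ℂ)) : ℂ → ℂ :=
  fun z => (∏ j, (f z).rep j ^ α j) / eval (f z).rep Q

theorem form_rep {f : ℂ → ℙ ℂ (Fin (N + 1) → ℂ)} (hf : HolMap f) {h : Fin (N + 1) → ℂ → ℂ}
    (hr : ∀ᶠ z in codiscrete ℂ, Rep (f z) fun j => h j z) {G : MvPolynomial (Fin (N + 1)) ℂ}
    (hG : ∃ d, G.IsHomogeneous d) :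
    (∀ᶠ z in codiscrete ℂ, eval (fun j => h j z) G = 0) ↔ ∀ z, eval (f z).rep G = 0 := by
  have hspan : ∀ x : ℙ ℂ (Fin (N + 1) → ℂ), InV (Ideal.span {G}) x → eval x.rep G = 0 :=
    fun x hx => hx G (Ideal.mem_span_singleton_self G) hG
  have hspan' : ∀ (x : ℙ ℂ (Fin (N + 1) → ℂ)) (v : Fin (N + 1) → ℂ), Rep x v → eval v G = 0 →
      InV (Ideal.span {G}) x := by
    intro x v hv h0
    rw [inV_iff hv]
    intro G2 hG2 _
    obtain ⟨G3, rfl⟩ := Ideal.mem_span_singleton.1 hG2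
    rw [map_mul, h0, zero_mul]
  constructor
  · intro h0 z
    apply hspan
    apply inV_of_punct hf
    filter_upwards [codis_ev h0 z, codis_ev hr z] with w h4 h5
    exact hspan' _ _ h5 h4
  · intro h0
    filter_upwards [hr] with z hz
    exact (inV_iff hz).1 (hspan' _ _ (rep_rep (f z)) (h0 z)) G
      (Ideal.mem_span_singleton_self G) hG

theorem prod_two {A : Type} [CommMonoid A] (v : Fin (N + 1) → A) (j l : Fin (N + 1)) (e : ℕ) :
    ∏ i, v i ^ (Finsupp.single j 1 + Finsupp.single l e : Fin (N + 1) →₀ ℕ) i =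
      v j * v l ^ e := by
  classical
  simp only [Finsupp.add_apply, pow_add, Finset.prod_mul_distrib]
  congr 1
  · rw [Finset.prod_eq_single j]
    · rw [Finsupp.single_eq_same, pow_one]
    · intro i _ hi
      rw [Finsupp.single_eq_of_ne hi, pow_zero]
    · intro hi
      exact absurd (Finset.mem_univ _) hi
  · rw [Finset.prod_eq_single l]
    · rw [Finsupp.single_eq_same]
    · intro i _ hi
      rw [Finsupp.single_eq_of_ne hi, pow_zero]
    · intro hi
      exact absurd (Finset.mem_univ _) hi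

theorem sum_two (j l : Fin (N + 1)) (e : ℕ) :
    ∑ i, (Finsupp.single j 1 + Finsupp.single l e : Fin (N + 1) →₀ ℕ) i = 1 + e := by
  classical
  simp only [Finsupp.add_apply, Finset.sum_add_distrib]
  congr 1
  · rw [Finset.sum_eq_single j]
    · rw [Finsupp.single_eq_same]
    · intro i _ hi
      rw [Finsupp.single_eq_of_ne hi]
    · intro hi
      exact absurd (Finset.mem_univ _) hi
  · rw [Finset.sum_eq_single l]
    · rw [Finsupp.single_eq_same]
    · intro i _ hi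
      rw [Finsupp.single_eq_of_ne hi]
    · intro hi
      exact absurd (Finset.mem_univ _) hi

theorem aeval_mon {A : Type} [CommRing A] [Algebra ℂ A] (x : Fin (N + 1) → A)
    (α : Fin (N + 1) →₀ ℕ) :
    aeval x (monomial α (1 : ℂ)) = ∏ j, x j ^ α j := by
  rw [aeval_monomial, map_one, one_mul, Finsupp.prod_fintype _ _ fun j => pow_zero _]

theorem eval_scale {G : MvPolynomial (Fin (N + 1)) ℂ} {d : ℕ} (hG : G.IsHomogeneous d) (c : ℂ)
    (v : Fin (N + 1) → ℂ) : eval (fun j => c * v j) G = c ^ d * eval v G := by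
  have h1 := form_scale (A := ℂ) hG c v
  rwa [aeval_eq_eval, aeval_eq_eval] at h1

/-- **Curves in the complement of a hypersurface.** -/
theorem log_main (H : Hyp) (hT : S_TAY) (hFML : S_FML) (hFRC : S_FRC) (hRT : S_RT)
    (hLOGP : S_LOGP) (hPF : S_PF) {Q : MvPolynomial (Fin (N + 1)) ℂ} {d : ℕ} (hd : 0 < d)
    (hQ : Q.IsHomogeneous d) {B : Subalgebra ℂ (ℂ → ℂ)} (hB : DB B)
    {f : ℂ → ℙ ℂ (Fin (N + 1) → ℂ)} (hf : HolMap f) (hX : ∀ z, eval (f z).rep Q ≠ 0)
    (hl : ∀ α : Fin (N + 1) →₀ ℕ, ∑ j, α j = d → IterLin B (regf Q α f)) :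
    AlgebraicOver B f ∨
      ∃ (M : Type) (_ : Field M) (_ : Algebra ℂ M) (P : Fin (N + 1) → Polynomial M),
        (∀ G : MvPolynomial (Fin (N + 1)) ℂ, (∃ e, G.IsHomogeneous e) →
          (aeval P G = 0 ↔ ∀ z, eval (f z).rep G = 0)) ∧
        (∃ (c : M) (k : ℕ), c ≠ 0 ∧ aeval P Q = Polynomial.C c * Polynomial.X ^ k) ∧
        ∃ j k, Polynomial.derivative (P j) * P k ≠ P j * Polynomial.derivative (P k) := by
  classical
  obtain ⟨D, hD, hC⟩ := hFRC
  obtain ⟨l, hl0⟩ := Function.ne_iff.1 (f 0).rep_nonzero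
  obtain ⟨-, hne⟩ := hRT N f hf l ⟨0, hl0⟩
  let α : Fin (N + 1) → Fin (N + 1) →₀ ℕ := fun j => Finsupp.single j 1 + Finsupp.single l (d - 1)
  have hα : ∀ j, ∑ i, α j i = d := by
    intro j
    rw [sum_two]
    omega
  let h : Fin (N + 1) → ℂ → ℂ := fun j => regf Q (α j) f
  let c : ℂ → ℂ := fun z => (f z).rep l ^ (d - 1) / eval (f z).rep Q
  have hh : ∀ z, (fun j => h j z) = fun j => c z * (f z).rep j := by
    intro z
    funext j
    change (∏ i, (f z).rep i ^ α j i) / eval (f z).rep Q = _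
    rw [prod_two]
    change _ = (f z).rep l ^ (d - 1) / eval (f z).rep Q * (f z).rep j
    ring
  have hc : ∀ z, (f z).rep l ≠ 0 → c z ≠ 0 := fun z hz => div_ne_zero (pow_ne_zero _ hz) (hX z)
  have hr : ∀ᶠ z in codiscrete ℂ, Rep (f z) fun j => h j z := by
    filter_upwards [hne] with z hz
    rw [hh z]
    exact (rep_smul (hc z hz)).2 (rep_rep (f z))
  have hlh : ∀ j, IterLin B (h j) := fun j => hl (α j) (hα j)
  -- the regular functions
  let A : Finset (Fin (N + 1) →₀ ℕ) := Finset.univ.finsuppAntidiag d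
  have hA : ∀ β : Fin (N + 1) →₀ ℕ, β ∈ A ↔ ∑ j, β j = d := by
    intro β
    rw [Finset.mem_finsuppAntidiag]
    exact ⟨fun h1 => h1.1, fun h1 => ⟨h1, Finset.subset_univ _⟩⟩
  obtain ⟨z0, l', R, -, hF, hk⟩ := exists_fpt' hT hFML hB hD hlh (P := fun _ => True)
    (Eventually.of_forall fun _ => trivial) (hr.mono fun z hz => hz.1)
    (ι := A) (k := fun β => regf Q β.1 f) (fun β => hl β.1 ((hA β.1).1 β.2))
  let x : Fin (N + 1) → LK := fun j => ty z0 (h j)
  by_cases hall : ∀ j, IsAlgebraic (baseF hT B z0) (x j / x l')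
  · exact Or.inl (algebraicOver_of_ty hB hlh hF.an hF.ne' hr hall)
  right
  push Not at hall
  obtain ⟨j0, hj0⟩ := hall
  have hQx : aeval x Q ≠ 0 := by
    intro h0
    obtain ⟨z, hz1, hz2⟩ := (((hF.val Q).1 h0).and hne).exists
    rw [hh z, eval_scale hQ] at hz1
    rcases mul_eq_zero.1 hz1 with h1 | h1
    · exact hc z hz2 (pow_eq_zero_iff hd.ne'|>.1 h1)
    · exact hX z h1
  have hreg : ∀ β : Fin (N + 1) →₀ ℕ, ∑ j, β j = d →
      (∏ j, x j ^ β j) / aeval x Q = ty z0 (regf Q β f) ∧ ty z0 (regf Q β f) ∈ R := by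
    intro β hβ
    obtain ⟨k1, k2⟩ := hk ⟨β, (hA β).2 hβ⟩
    refine ⟨?_, k2⟩
    rw [div_eq_iff hQx, ← aeval_mon]
    obtain ⟨a1, b1⟩ := ty_eval hT hF.an (monomial β (1 : ℂ))
    obtain ⟨a2, b2⟩ := ty_eval hT hF.an Q
    have e1 : aeval x (monomial β (1 : ℂ)) =
        ty z0 (fun z => eval (fun j => h j z) (monomial β (1 : ℂ))) := b1.symm
    have e2 : aeval x Q = ty z0 (fun z => eval (fun j => h j z) Q) := b2.symm
    rw [e1, e2, ← ty_mul hT k1 a2]
    apply ty_congr hT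
    refine Eventually.of_forall fun z => ?_
    have e3 : ∀ v : Fin (N + 1) → ℂ, eval v (monomial β (1 : ℂ)) = ∏ j, v j ^ β j := by
      intro v
      rw [← aeval_eq_eval, aeval_mon]
    have hmon : (monomial β (1 : ℂ)).IsHomogeneous d := by
      apply isHomogeneous_monomial
      rw [Finsupp.degree_eq_sum]
      exact hβ
    rw [hh z, eval_scale hmon, eval_scale hQ, e3]
    change _ = (∏ j, (f z).rep j ^ β j) / eval (f z).rep Q * _
    rw [div_mul_eq_mul_div, eq_div_iff (hX z)]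
    ring
  let t : Finset LK := (Finset.univ.image fun j => x j / x l') ∪
    A.image fun β => (∏ j, x j ^ β j) / aeval x Q
  have hRF : RatFam R t := by
    refine H.main hC (baseF_good hT hB z0 hD) hF.tow (fun a ha => ?_) ⟨x j0 / x l',
      Finset.mem_union_left _ (Finset.mem_image.2 ⟨j0, Finset.mem_univ j0, rfl⟩), hj0⟩
    rcases Finset.mem_union.1 ha with h1 | h1
    · obtain ⟨j, -, rfl⟩ := Finset.mem_image.1 h1
      exact (frac R).div_mem (le_frac R (hF.mem j)) (le_frac R (hF.mem l'))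
    · obtain ⟨β, hβ, rfl⟩ := Finset.mem_image.1 h1
      obtain ⟨h2, h3⟩ := hreg β ((hA β).1 hβ)
      rw [h2]
      exact le_frac R h3
  obtain ⟨M, i1, i2, P, h1, h2, h3⟩ := hPF hLOGP LK N d Q hd hQ x l' R t hF.ne' hQx hRF
    (fun a ha => by
      rcases Finset.mem_union.1 ha with h1 | h1
      · obtain ⟨j, -, rfl⟩ := Finset.mem_image.1 h1
        exact Or.inl ⟨j, rfl⟩
      · obtain ⟨β, hβ, rfl⟩ := Finset.mem_image.1 h1
        exact Or.inr ⟨β, (hA β).1 hβ, rfl⟩)
    (fun j => Finset.mem_union_left _ (Finset.mem_image.2 ⟨j, Finset.mem_univ j, rfl⟩))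
    (fun β hβ => ⟨Finset.mem_union_right _ (Finset.mem_image.2 ⟨β, (hA β).2 hβ, rfl⟩), by
      obtain ⟨h2, h3⟩ := hreg β hβ
      rw [h2]
      exact h3⟩)
  refine ⟨M, i1, i2, P, fun G hG => ?_, h2, h3⟩
  rw [h1 G hG, ← form_rep hf hr hG]
  exact hF.val G

end Pool.Agent.Y377.IL
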