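import Pool.Agent.Y377.IL.Rc
import Pool.Agent.Y377.IL.StmA
import Pool.Agent.TH143.EL.Main3

/-!
Meromorphic functions given by iterated linear differential equations over a base ring.
-/

set_option autoImplicit false

namespace Pool.Agent.Y377.IL

open Set Filter Topology Pool.Agent.Y377.EL
open Pool.Agent.TH143.EL (TrOne LinB mero_an mero_ne mero_id mero_top freq_of_ev codis_ev
  codis_nhds codis_of_ev)

/-- The smallest set of meromorphic functions on the plane which contains the quotients of the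
functions in the ring `B` and is closed under sums, products and meromorphic solutions of linear
systems `y' = A y` with coefficients `A` in the set. -/
inductive IterLin (B : Subalgebra ℂ (ℂ → ℂ)) : (ℂ → ℂ) → Prop
  | quot {b c : ℂ → ℂ} : b ∈ B → c ∈ B → IterLin B fun z => b z / c z
  | add {f g : ℂ → ℂ} : IterLin B f → IterLin B g → IterLin B fun z => f z + g z
  | mul {f g : ℂ → ℂ} : IterLin B f → IterLin B g → IterLin B fun z => f z * g z
  | ode {n : ℕ} (A : Fin n → Fin n → ℂ → ℂ) (y : Fin n → ℂ → ℂ) :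
      (∀ i j, IterLin B (A i j)) → (∀ i, Meromorphic (y i)) →
      (∀ᶠ z in codiscrete ℂ, ∀ i, HasDerivAt (y i) (∑ j, A i j z * y j z) z) →
        ∀ i, IterLin B (y i)

/-- rings of meromorphic functions which are closed under differentiation -/
structure DB (B : Subalgebra ℂ (ℂ → ℂ)) : Prop where
  mero : ∀ b ∈ B, Meromorphic b
  der : ∀ b ∈ B, deriv b ∈ B

theorem db_of_trOne {B : Subalgebra ℂ (ℂ → ℂ)} (h : TrOne B) : DB B := ⟨h.mero, h.der⟩

theorem IterLin.mero {B : Subalgebra ℂ (ℂ → ℂ)} (hB : DB B) {f : ℂ → ℂ} (h : IterLin B f) :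
    Meromorphic f := by
  induction h with
  | quot h1 h2 => exact (hB.mero _ h1).div (hB.mero _ h2)
  | add _ _ h1 h2 => exact h1.add h2
  | mul _ _ h1 h2 => exact h1.mul h2
  | ode A y _ h2 _ i _ => exact h2 i

/-- the field of formal Laurent series -/
abbrev LK : Type := FractionRing (PowerSeries ℂ)

/-- the element of the field given by an analytic germ -/
noncomputable def ty (z0 : ℂ) (f : ℂ → ℂ) : LK := algebraMap (PowerSeries ℂ) LK (tay z0 f)

theorem ty_inj : Function.Injective (algebraMap (PowerSeries ℂ) LK) :=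
  IsFractionRing.injective _ _

section ty

variable (hT : S_TAY) {z0 : ℂ}
include hT

theorem ty_const (c : ℂ) : ty z0 (fun _ => c) = algebraMap ℂ LK c := by
  unfold ty
  rw [(hT z0).1 c, ← IsScalarTower.algebraMap_apply]

theorem ty_add {f g : ℂ → ℂ} (hf : AnalyticAt ℂ f z0) (hg : AnalyticAt ℂ g z0) :
    ty z0 (fun z => f z + g z) = ty z0 f + ty z0 g := by
  unfold ty
  rw [((hT z0).2.1 f g hf hg).1, map_add]

theorem ty_mul {f g : ℂ → ℂ} (hf : AnalyticAt ℂ f z0) (hg : AnalyticAt ℂ g z0) :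
    ty z0 (fun z => f z * g z) = ty z0 f * ty z0 g := by
  unfold ty
  rw [((hT z0).2.1 f g hf hg).2, map_mul]

theorem ty_congr {f g : ℂ → ℂ} (h : ∀ᶠ z in 𝓝 z0, f z = g z) : ty z0 f = ty z0 g := by
  unfold ty
  rw [(hT z0).2.2.2.1 f g h]

theorem ty_zero {f : ℂ → ℂ} (hf : AnalyticAt ℂ f z0) : ty z0 f = 0 ↔ ∀ᶠ z in 𝓝 z0, f z = 0 := by
  constructor
  · intro h
    exact (hT z0).2.2.2.2 f hf (ty_inj (by rw [map_zero]; exact h))
  · intro h
    rw [ty_congr hT h, ty_const hT, map_zero]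

theorem ty_sum {ι : Type} (s : Finset ι) {f : ι → ℂ → ℂ} (hf : ∀ j, AnalyticAt ℂ (f j) z0) :
    AnalyticAt ℂ (fun z => ∑ j ∈ s, f j z) z0 ∧
      ty z0 (fun z => ∑ j ∈ s, f j z) = ∑ j ∈ s, ty z0 (f j) := by
  classical
  induction s using Finset.induction_on with
  | empty =>
    refine ⟨?_, ?_⟩
    · simpa using analyticAt_const
    · have h1 : (fun z => ∑ j ∈ (∅ : Finset ι), f j z) = fun _ => (0 : ℂ) := by
        funext z
        rw [Finset.sum_empty]
      rw [h1, ty_const hT, map_zero, Finset.sum_empty]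
  | insert a s ha ih =>
    have h1 : (fun z => ∑ j ∈ insert a s, f j z) = fun z => f a z + ∑ j ∈ s, f j z := by
      funext z
      rw [Finset.sum_insert ha]
    rw [h1]
    exact ⟨(hf a).add ih.1, by rw [ty_add hT (hf a) ih.1, ih.2, Finset.sum_insert ha]⟩

theorem ty_div {f g : ℂ → ℂ} (hf : AnalyticAt ℂ f z0) (hg : AnalyticAt ℂ g z0) (h0 : g z0 ≠ 0) :
    AnalyticAt ℂ (fun z => f z / g z) z0 ∧ ty z0 (fun z => f z / g z) = ty z0 f / ty z0 g := by
  have h1 : AnalyticAt ℂ (fun z => f z / g z) z0 := hf.div hg h0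
  refine ⟨h1, ?_⟩
  have h2 : ty z0 g ≠ 0 := by
    rw [Ne, ty_zero hT hg]
    intro h3
    exact h0 h3.self_of_nhds
  rw [eq_div_iff h2, ← ty_mul hT h1 hg]
  apply ty_congr hT
  filter_upwards [hg.continuousAt.eventually_ne h0] with z hz
  rw [div_mul_cancel₀ _ hz]

theorem ty_deriv {D : Derivation ℂ LK LK} (hD : ∀ f : PowerSeries ℂ,
    D (algebraMap _ _ f) = algebraMap _ _ (PowerSeries.derivative ℂ f)) {f : ℂ → ℂ}
    (hf : AnalyticAt ℂ f z0) : D (ty z0 f) = ty z0 (deriv f) := by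
  unfold ty
  rw [hD, (hT z0).2.2.1 f hf]

theorem ty_iter {D : Derivation ℂ LK LK} (hD : ∀ f : PowerSeries ℂ,
    D (algebraMap _ _ f) = algebraMap _ _ (PowerSeries.derivative ℂ f)) {f : ℂ → ℂ}
    (hf : AnalyticAt ℂ f z0) (k : ℕ) : AnalyticAt ℂ (iteratedDeriv k f) z0 ∧
      (D^[k]) (ty z0 f) = ty z0 (iteratedDeriv k f) := by
  induction k with
  | zero =>
    rw [iteratedDeriv_zero]
    exact ⟨hf, rfl⟩
  | succ k ih =>
    rw [iteratedDeriv_succ, Function.iterate_succ_apply', ih.2]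
    exact ⟨ih.1.deriv, ty_deriv hT hD ih.1⟩

end ty

/-- the ring of the germs of the functions of `B` -/
noncomputable def baseR (hT : S_TAY) (B : Subalgebra ℂ (ℂ → ℂ)) (z0 : ℂ) : Subalgebra ℂ LK where
  carrier := {x | ∃ b ∈ B, AnalyticAt ℂ b z0 ∧ x = ty z0 b}
  mul_mem' := by
    rintro _ _ ⟨b, hb, hba, rfl⟩ ⟨c, hc, hca, rfl⟩
    exact ⟨fun z => b z * c z, B.mul_mem hb hc, hba.mul hca, (ty_mul hT hba hca).symm⟩
  add_mem' := by
    rintro _ _ ⟨b, hb, hba, rfl⟩ ⟨c, hc, hca, rfl⟩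
    exact ⟨fun z => b z + c z, B.add_mem hb hc, hba.add hca, (ty_add hT hba hca).symm⟩
  algebraMap_mem' := fun c => ⟨fun _ => c, B.algebraMap_mem c, analyticAt_const,
    (ty_const hT c).symm⟩

/-- the field generated by the germs of the functions of `B` -/
noncomputable def baseF (hT : S_TAY) (B : Subalgebra ℂ (ℂ → ℂ)) (z0 : ℂ) : Subalgebra ℂ LK :=
  (frac (baseR hT B z0)).toSubalgebra

theorem baseR_stab (hT : S_TAY) {B : Subalgebra ℂ (ℂ → ℂ)} (hB : DB B) (z0 : ℂ)
    {D : Derivation ℂ LK LK} (hD : ∀ f : PowerSeries ℂ,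
    D (algebraMap _ _ f) = algebraMap _ _ (PowerSeries.derivative ℂ f)) :
    Stab D (baseR hT B z0) := by
  rintro _ ⟨b, hb, hba, rfl⟩
  exact ⟨deriv b, hB.der b hb, hba.deriv, ty_deriv hT hD hba⟩

theorem goodB_field {K : Type} [Field K] [Algebra ℂ K] {D : Derivation ℂ K K}
    (F : IntermediateField ℂ K) (hF : ∀ x ∈ F, D x ∈ F) : GoodB D F.toSubalgebra := by
  refine ⟨hF, ?_, ?_⟩
  · intro I hI _ ⟨x, hx, hx0⟩
    have h1 : x⁻¹ ∈ F.toSubalgebra := F.inv_mem (hI x hx)
    have h2 := I.smul_mem (⟨x⁻¹, h1⟩ : F.toSubalgebra) hx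
    rw [Algebra.smul_def] at h2
    have h3 : x⁻¹ * x ∈ I := h2
    rwa [inv_mul_cancel₀ hx0] at h3
  · exact inferInstanceAs (IsNoetherianRing F)

theorem baseF_good (hT : S_TAY) {B : Subalgebra ℂ (ℂ → ℂ)} (hB : DB B) (z0 : ℂ)
    {D : Derivation ℂ LK LK} (hD : ∀ f : PowerSeries ℂ,
    D (algebraMap _ _ f) = algebraMap _ _ (PowerSeries.derivative ℂ f)) :
    GoodB D (baseF hT B z0) :=
  goodB_field _ fun _ hx => stab_frac (baseR_stab hT hB z0 hD) hx

/-- the functions of the class lie in towers at general points -/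
theorem IterLin.tow (hT : S_TAY) (hFML : S_FML) {B : Subalgebra ℂ (ℂ → ℂ)} (hB : DB B)
    {D : Derivation ℂ LK LK} (hD : ∀ f : PowerSeries ℂ,
    D (algebraMap _ _ f) = algebraMap _ _ (PowerSeries.derivative ℂ f)) {f : ℂ → ℂ}
    (hf : IterLin B f) : ∀ᶠ z0 in codiscrete ℂ, AnalyticAt ℂ f z0 ∧
      ∀ R, LTow D (baseF hT B z0) R → ∃ R', R ≤ R' ∧ LTow D (baseF hT B z0) R' ∧
        ty z0 f ∈ R' := by
  have hle : ∀ z0 (R : Subalgebra ℂ LK), LTow D (baseF hT B z0) R → baseF hT B z0 ≤ R := by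
    intro z0 R hR
    induction hR with
    | base => exact le_rfl
    | step _ _ ih => exact ih.trans (le_mat _ _ _)
  induction hf with
  | @quot b c hb hc =>
    by_cases h0 : ∀ᶠ z in codiscrete ℂ, c z = 0
    · filter_upwards [h0] with z0 hz0
      have h1 : ∀ᶠ z in 𝓝 z0, b z / c z = 0 := by
        filter_upwards [codis_nhds (U := {z | c z = 0}) h0 hz0] with z hz
        have h2 : c z = 0 := hz
        rw [h2, div_zero]
      refine ⟨(analyticAt_const (v := (0 : ℂ))).congr (h1.mono fun z hz => hz.symm),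
        fun R hR => ⟨R, le_rfl, hR, ?_⟩⟩
      rw [ty_congr hT h1, ty_const hT, map_zero]
      exact R.zero_mem
    · filter_upwards [mero_an (hB.mero b hb), mero_an (hB.mero c hc),
        mero_ne (hB.mero c hc) h0] with z0 h1 h2 h3
      obtain ⟨h4, h5⟩ := ty_div hT h1 h2 h3
      refine ⟨h4, fun R hR => ⟨R, le_rfl, hR, hle z0 R hR ?_⟩⟩
      rw [h5]
      exact (frac (baseR hT B z0)).div_mem (le_frac _ ⟨b, hb, h1, rfl⟩)
        (le_frac _ ⟨c, hc, h2, rfl⟩)
  | @add f g _ _ ih1 ih2 =>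
    filter_upwards [ih1, ih2] with z0 h1 h2
    refine ⟨h1.1.add h2.1, fun R hR => ?_⟩
    obtain ⟨R1, l1, t1, m1⟩ := h1.2 R hR
    obtain ⟨R2, l2, t2, m2⟩ := h2.2 R1 t1
    refine ⟨R2, l1.trans l2, t2, ?_⟩
    rw [ty_add hT h1.1 h2.1]
    exact R2.add_mem (l2 m1) m2
  | @mul f g _ _ ih1 ih2 =>
    filter_upwards [ih1, ih2] with z0 h1 h2
    refine ⟨h1.1.mul h2.1, fun R hR => ?_⟩
    obtain ⟨R1, l1, t1, m1⟩ := h1.2 R hR
    obtain ⟨R2, l2, t2, m2⟩ := h2.2 R1 t1
    refine ⟨R2, l1.trans l2, t2, ?_⟩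
    rw [ty_mul hT h1.1 h2.1]
    exact R2.mul_mem (l2 m1) m2
  | @ode n A y h1 h2 h3 i0 ih =>
    have e1 : ∀ᶠ z0 in codiscrete ℂ, ∀ i j, AnalyticAt ℂ (A i j) z0 ∧
        ∀ R, LTow D (baseF hT B z0) R → ∃ R', R ≤ R' ∧ LTow D (baseF hT B z0) R' ∧
          ty z0 (A i j) ∈ R' := eventually_all.2 fun i => eventually_all.2 fun j => ih i j
    have e2 : ∀ᶠ z0 in codiscrete ℂ, ∀ i, AnalyticAt ℂ (y i) z0 :=
      eventually_all.2 fun i => mero_an (h2 i)
    filter_upwards [e1, e2, h3] with z0 hA hy hz0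
    have hode : ∀ᶠ z in 𝓝 z0, ∀ i, HasDerivAt (y i) (∑ j, A i j z * y j z) z :=
      codis_nhds (U := {z | ∀ i, HasDerivAt (y i) (∑ j, A i j z * y j z) z}) h3 hz0
    refine ⟨hy i0, fun R hR => ?_⟩
    obtain ⟨R1, l1, t1, m1⟩ : ∃ R', R ≤ R' ∧ LTow D (baseF hT B z0) R' ∧
        ∀ p : Fin n × Fin n, ty z0 (A p.1 p.2) ∈ R' :=
      ext_family (P := fun x => ∃ p : Fin n × Fin n, x = ty z0 (A p.1 p.2))
        (by
          rintro _ ⟨p, rfl⟩
          exact (hA p.1 p.2).2) (fun p => ⟨p, rfl⟩) R hR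
    obtain ⟨X, Y, hXY, hdX, hsol⟩ := hFML n fun i j => tay z0 (A i j)
    have hdy : ∀ i, PowerSeries.derivative ℂ (tay z0 (y i)) =
        ∑ k, tay z0 (A i k) * tay z0 (y k) := by
      intro i
      apply ty_inj
      have f1 : algebraMap (PowerSeries ℂ) LK (PowerSeries.derivative ℂ (tay z0 (y i))) =
          ty z0 (deriv (y i)) := by
        rw [← hD]
        exact ty_deriv hT hD (hy i)
      have f2 : ∀ᶠ z in 𝓝 z0, deriv (y i) z = ∑ j, A i j z * y j z :=
        hode.mono fun z hz => (hz i).deriv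
      have f3 : ∀ j, AnalyticAt ℂ (fun z => A i j z * y j z) z0 := fun j =>
        (hA i j).1.mul (hy j)
      rw [f1, ty_congr hT f2, (ty_sum hT Finset.univ f3).2, map_sum]
      refine Finset.sum_congr rfl fun j _ => ?_
      rw [ty_mul hT (hA i j).1 (hy j), map_mul]
      rfl
    obtain ⟨c, hc⟩ := hsol (fun i => tay z0 (y i)) hdy
    let x : Matrix (Fin n) (Fin n) LK := fun a b => algebraMap (PowerSeries ℂ) LK (X a b)
    let v : Matrix (Fin n) (Fin n) LK := fun a b => algebraMap (PowerSeries ℂ) LK (Y a b)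
    let m : Matrix (Fin n) (Fin n) LK := fun a b => ty z0 (A a b)
    have hF : Fund D R1 x v m := by
      refine ⟨?_, fun a b => m1 (a, b), ?_⟩
      · ext a b
        rw [Matrix.mul_apply, Matrix.one_apply]
        have f1 := congrFun (congrFun hXY a) b
        rw [Matrix.mul_apply, Matrix.one_apply] at f1
        have f2 := congrArg (algebraMap (PowerSeries ℂ) LK) f1
        rw [map_sum] at f2
        simp only [map_mul] at f2
        change ∑ k, algebraMap (PowerSeries ℂ) LK (X a k) * algebraMap (PowerSeries ℂ) LK (Y k b) = _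
        rw [f2]
        split_ifs
        · exact map_one _
        · exact map_zero _
      · intro a b
        change D (algebraMap (PowerSeries ℂ) LK (X a b)) = ∑ k, ty z0 (A a k) *
          algebraMap (PowerSeries ℂ) LK (X k b)
        rw [hD, hdX, map_sum]
        refine Finset.sum_congr rfl fun k _ => ?_
        rw [map_mul]
        rfl
    refine ⟨mat R1 x v, l1.trans (le_mat R1 x v), LTow.step t1 hF, ?_⟩
    have f1 : ty z0 (y i0) = ∑ k, x i0 k * algebraMap ℂ LK (c k) := by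
      unfold ty
      rw [hc i0, map_sum]
      refine Finset.sum_congr rfl fun k _ => ?_
      rw [map_mul, ← IsScalarTower.algebraMap_apply]
    rw [f1]
    exact (mat R1 x v).sum_mem fun k _ => (mat R1 x v).mul_mem (mem_mat_left R1 x v i0 k)
      ((mat R1 x v).algebraMap_mem _)

end Pool.Agent.Y377.IL
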